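import Pool.Agent.GSX.Rat
import Pool.Agent.GSN.A2
import Pool.Agent.GSG.M2a

/-!
# The functions of the leaves as functions `GG`

`cotP 1 = X`, `cotP 2 = 1 + X ^ 2`, `cotP 3 = X (1 + X ^ 2)`, and for `x = I (u + 1) / (u - 1)` we have
`1 + x ^ 2 = -4 u / (1 - u) ^ 2`, so `cotP r (x) = cr r * ps r u` for `u ≠ 1`.

* `gg_GG`: the summands of `gg` (see `cs`, `gg`, `ww`, `TT`, `tc` in `Pool/Agent/H42/PF`) with
  `tc k (ii S k 0) (al S T) = 0` vanish. (`gg` is `cs` with `w_T = exp (2 π i (s al S T - k / 2)) = ww S k s T`.)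
* `node_NF`: `1 ≤ rr S 0 ≤ 3` as `S` is not empty, `GSN.TT_nonempty`, `Pool.H42.PF.ww_ne`, `ww_inj`. The
  last field, for `rr S 0 = 1`, i.e. `3 ≤ |S|`: the sum over `TT` is the sum over all `T ⊆ S` with
  `q ∈ T`, i.e. `T = insert q U`, `U ⊆ S.erase q`, of `(-1) ^ |(S.erase q) \ U| F(α + ∑_(p ∈ U) 1 / p)`
  for the polynomial `F` of degree `ms S 0 = |S| - 3` of `GSN.exists_tp`, a finite difference of
  order `|S| - 1` of a polynomial of smaller degree (proof by induction as in
  `Pool/Agent/GSG/M2a.lean`, `M2a_aux`, which is private: copy it).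
-/

set_option autoImplicit false

open Finset

namespace Pool.Agent.GSX

open Pool.Agent.GSP Pool.Agent.GSG Pool.Agent.GSN Pool.H42.PF

/-- The constants. -/
noncomputable def cr (r : ℕ) : ℂ :=
  if r = 1 then -Complex.I else if r = 2 then -4 else 4 * Complex.I

theorem cr_ne (r : ℕ) : cr r ≠ 0 := by
  unfold cr
  split_ifs
  · exact neg_ne_zero.2 Complex.I_ne_zero
  · norm_num
  · exact mul_ne_zero (by norm_num) Complex.I_ne_zero

/-- The coefficients. -/
noncomputable def bt (S : Finset ℕ) (k : ℕ) (T : Finset ℕ) : ℂ :=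
  (-1) ^ (S \ T).card * (tc k (ii S k 0) (al S T) : ℂ)

private theorem C2_cot2 : cotP 2 = 1 + Polynomial.X ^ 2 := by
  rw [cotP, cotP]
  simp

private theorem C2_cot3 : cotP 3 = Polynomial.X * (1 + Polynomial.X ^ 2) := by
  rw [cotP, C2_cot2]
  have h1 : Polynomial.derivative (1 + Polynomial.X ^ 2 : Polynomial ℚ) =
      Polynomial.C 2 * Polynomial.X := by
    rw [Polynomial.derivative_add, Polynomial.derivative_one, Polynomial.derivative_X_pow]
    simp
  have h2 : (Polynomial.C (1 / (((1 : ℕ) : ℚ) + 1)) : Polynomial ℚ) * Polynomial.C 2 = 1 := by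
    rw [← Polynomial.C_mul]
    norm_num
  rw [h1]
  linear_combination (1 + Polynomial.X ^ 2) * Polynomial.X * h2

theorem cotP_ps {r : ℕ} (h1 : 1 ≤ r) (h3 : r ≤ 3) {u : ℂ} (hu : u ≠ 1) :
    ((cotP r).map (algebraMap ℚ ℂ)).eval (Complex.I * (u + 1) / (u - 1)) = cr r * ps r u := by
  have hu1 : u - 1 ≠ 0 := sub_ne_zero.2 hu
  have hu2 : (1 : ℂ) - u ≠ 0 := sub_ne_zero.2 hu.symm
  have e0 : Complex.I * (u + 1) / (u - 1) = -Complex.I * ((1 + u) / (1 - u)) := by
    field_simp
    ring
  have hI : Complex.I ^ 2 = -1 := Complex.I_sq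
  have e1 : 1 + (Complex.I * (u + 1) / (u - 1)) ^ 2 = -4 * (u / (1 - u) ^ 2) := by
    rw [e0, mul_pow, neg_pow, hI]
    field_simp
    ring
  have hr : r = 1 ∨ r = 2 ∨ r = 3 := by omega
  rcases hr with rfl | rfl | rfl
  · have h5 : cotP 1 = Polynomial.X := by rw [cotP]
    rw [h5, Polynomial.map_X, Polynomial.eval_X, e0]
    unfold cr ps nu
    simp only [if_true, pow_one, Polynomial.eval_add, Polynomial.eval_one, Polynomial.eval_X]
  · have h6 : ((cotP 2).map (algebraMap ℚ ℂ)).eval (Complex.I * (u + 1) / (u - 1)) =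
        1 + (Complex.I * (u + 1) / (u - 1)) ^ 2 := by
      rw [C2_cot2]
      simp
    rw [h6, e1]
    unfold cr ps nu
    norm_num
  · have h6 : ((cotP 3).map (algebraMap ℚ ℂ)).eval (Complex.I * (u + 1) / (u - 1)) =
        Complex.I * (u + 1) / (u - 1) * (1 + (Complex.I * (u + 1) / (u - 1)) ^ 2) := by
      rw [C2_cot3]
      simp
    rw [h6, e1, e0]
    unfold cr ps nu
    have a1 : (3 : ℕ) ≠ 1 := by norm_num
    have a2 : (3 : ℕ) ≠ 2 := by norm_num
    simp only [a1, a2, if_false, Polynomial.eval_mul, Polynomial.eval_add, Polynomial.eval_one,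
      Polynomial.eval_X]
    field_simp

private theorem C2_rr {S : Finset ℕ} {q : ℕ} (hq : q ∈ S) : rr S 0 ≤ 3 := by
  have h0 : 1 ≤ S.card := Finset.card_pos.2 ⟨q, hq⟩
  unfold rr
  omega

theorem gg_GG {S : Finset ℕ} {k q : ℕ} (hq : q ∈ S) {s : ℤ} {z : ℂ}
    (hz : ∀ T ∈ TT S k (ii S k 0) q, ww S k s T * z ≠ 1) :
    gg S k (ii S k 0) (rr S 0) q s z =
      cr (rr S 0) * GG (rr S 0) (TT S k (ii S k 0) q) (ww S k s) (bt S k) z := by
  have hsub : TT S k (ii S k 0) q ⊆ S.powerset.filter fun T => q ∈ T := by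
    intro T hT
    have h2 := mem_TT.1 hT
    exact Finset.mem_filter.2 ⟨Finset.mem_powerset.2 h2.1, h2.2.1⟩
  have hr1 : 1 ≤ rr S 0 := rr_pos S 0
  have hr3 : rr S 0 ≤ 3 := C2_rr hq
  unfold gg cs GG
  rw [Finset.mul_sum]
  have hz0 : ∀ T ∈ S.powerset.filter (fun T => q ∈ T), T ∉ TT S k (ii S k 0) q →
      (-1) ^ (S \ T).card * (tc k (ii S k 0) (al S T) : ℂ) *
        ((cotP (rr S 0)).map (algebraMap ℚ ℂ)).eval (Complex.I *
          (Complex.exp (2 * Real.pi * Complex.I * (s * (al S T : ℂ) - k / 2)) * z + 1) /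
          (Complex.exp (2 * Real.pi * Complex.I * (s * (al S T : ℂ) - k / 2)) * z - 1)) = 0 := by
    intro T hT hT'
    rw [Finset.mem_filter, Finset.mem_powerset] at hT
    have h3 : tc k (ii S k 0) (al S T) = 0 := by
      by_contra h4
      exact hT' (mem_TT.2 ⟨hT.1, hT.2, h4⟩)
    rw [h3, Rat.cast_zero, mul_zero, zero_mul]
  rw [← Finset.sum_subset hsub hz0]
  refine Finset.sum_congr rfl fun T hT => ?_
  have h5 := cotP_ps hr1 hr3 (hz T hT)
  unfold ww at h5
  rw [h5]
  unfold bt ww
  ring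

private theorem C2_aux (h : ℕ → ℚ) (S : Finset ℕ) : ∀ (c : ℚ) (P : Polynomial ℚ),
    P.natDegree < S.card →
    ∑ T ∈ S.powerset, (-1 : ℚ) ^ (S \ T).card * P.eval (c + ∑ p ∈ T, h p) = 0 := by
  induction S using Finset.induction_on with
  | empty => intro c P hP; simp at hP
  | insert a S ha ih =>
    intro c P hP
    have e1 : ∀ T ∈ S.powerset, (insert a S \ T).card = (S \ T).card + 1 := by
      intro T hT
      have hT' := Finset.mem_powerset.mp hT
      have haT : a ∉ T := fun h' => ha (hT' h')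
      rw [Finset.insert_sdiff_of_notMem _ haT, Finset.card_insert_of_notMem]
      intro h'
      exact ha (Finset.mem_sdiff.mp h').1
    have e2 : ∀ T ∈ S.powerset, (insert a S \ insert a T).card = (S \ T).card := by
      intro T hT
      rw [Finset.insert_sdiff_insert, Finset.sdiff_insert_of_notMem ha]
    have e3 : ∀ T ∈ S.powerset, ∑ p ∈ insert a T, h p = h a + ∑ p ∈ T, h p := by
      intro T hT
      have hT' := Finset.mem_powerset.mp hT
      have haT : a ∉ T := fun h' => ha (hT' h')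
      exact Finset.sum_insert haT
    have key : ∑ T ∈ (insert a S).powerset, (-1 : ℚ) ^ (insert a S \ T).card *
        P.eval (c + ∑ p ∈ T, h p) =
        ∑ T ∈ S.powerset, (-1 : ℚ) ^ (S \ T).card *
          (Polynomial.taylor (h a) P - P).eval (c + ∑ p ∈ T, h p) := by
      rw [Finset.sum_powerset_insert ha, ← Finset.sum_add_distrib]
      refine Finset.sum_congr rfl fun T hT => ?_
      rw [e1 T hT, e2 T hT, e3 T hT, Polynomial.eval_sub, Polynomial.taylor_eval,
        show c + (h a + ∑ p ∈ T, h p) = c + ∑ p ∈ T, h p + h a by ring]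
      ring
    rw [key]
    rcases Nat.eq_zero_or_pos P.natDegree with h0 | h0
    · obtain ⟨b, hb⟩ := Polynomial.natDegree_eq_zero.mp h0
      refine Finset.sum_eq_zero fun T _ => ?_
      rw [← hb]
      simp
    · refine ih c _ ?_
      have hP0 : P ≠ 0 := by
        intro h'
        rw [h'] at h0
        simp at h0
      have hlt : (Polynomial.taylor (h a) P - P).degree < P.degree := by
        have := Polynomial.degree_sub_lt_left (p := Polynomial.taylor (h a) P) (q := P)
          (Polynomial.degree_taylor P (h a))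
          (by rw [Ne, Polynomial.taylor_eq_zero]; exact hP0)
          (Polynomial.leadingCoeff_taylor (h a) P)
        rwa [Polynomial.degree_taylor] at this
      have hlt2 : (Polynomial.taylor (h a) P - P).natDegree < P.natDegree := by
        by_cases hz : Polynomial.taylor (h a) P - P = 0
        · rw [hz]; simpa using h0
        · exact Polynomial.natDegree_lt_natDegree hz hlt
      rw [Finset.card_insert_of_notMem ha] at hP
      omega

private theorem C2_al {S T : Finset ℕ} (h : T ⊆ S) :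
    al S T = (-(∑ p ∈ S, (1 : ℚ) / p) / 2) + ∑ p ∈ T, (1 : ℚ) / p := by
  have h1 : ∑ p ∈ S \ T, (1 : ℚ) / p = ∑ p ∈ S, (1 : ℚ) / p - ∑ p ∈ T, (1 : ℚ) / p := by
    rw [← Finset.sum_sdiff h]; ring
  unfold al
  rw [h1]
  ring

private theorem C2_sum {S : Finset ℕ} {k : ℕ} (hS : LeafG S k) {q : ℕ} (hq : q ∈ S)
    (h3 : 3 ≤ S.card) :
    ∑ T ∈ S.powerset.filter (fun T => q ∈ T),
      (-1 : ℚ) ^ (S \ T).card * tc k (ii S k 0) (al S T) = 0 := by
  obtain ⟨F, hF, hd, -⟩ := exists_tp (ii_lt hS 0)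
  have hdeg : F.natDegree < (S.erase q).card := by
    rw [hd, sub_ii hS 0, Finset.card_erase_of_mem hq]
    unfold ms
    omega
  have h1 : (S.powerset.filter fun T => q ∈ T) = (S.erase q).powerset.image (insert q) := by
    ext T
    rw [Finset.mem_filter, Finset.mem_image, Finset.mem_powerset]
    constructor
    · rintro ⟨h1, h2⟩
      exact ⟨T.erase q, Finset.mem_powerset.2 (Finset.erase_subset_erase q h1),
        Finset.insert_erase h2⟩
    · rintro ⟨U, hU, rfl⟩
      rw [Finset.mem_powerset] at hU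
      exact ⟨Finset.insert_subset hq (hU.trans (Finset.erase_subset q S)),
        Finset.mem_insert_self q U⟩
  rw [h1, Finset.sum_image]
  · have h2 := C2_aux (fun p => (1 : ℚ) / p) (S.erase q)
      (-(∑ p ∈ S, (1 : ℚ) / p) / 2 + 1 / q) F hdeg
    rw [← h2]
    refine Finset.sum_congr rfl fun U hU => ?_
    rw [Finset.mem_powerset] at hU
    have hqU : q ∉ U := fun h => Finset.notMem_erase q S (hU h)
    have hUS : insert q U ⊆ S := Finset.insert_subset hq (hU.trans (Finset.erase_subset q S))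
    have h4 : S \ insert q U = S.erase q \ U := by
      ext x
      simp only [Finset.mem_sdiff, Finset.mem_insert, Finset.mem_erase, not_or]
      tauto
    rw [h4, ← hF, C2_al hUS, Finset.sum_insert hqU, add_assoc]
  · intro U hU U' hU' h
    rw [Finset.mem_coe, Finset.mem_powerset] at hU hU'
    have h2 : q ∉ U := fun h => Finset.notMem_erase q S (hU h)
    have h3 : q ∉ U' := fun h => Finset.notMem_erase q S (hU' h)
    rw [← Finset.erase_insert h2, ← Finset.erase_insert h3]
    exact congrArg (fun A => Finset.erase A q) h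

theorem node_NF {S : Finset ℕ} {k : ℕ} (hS : LeafG S k) {q : ℕ} (hq : q ∈ S) {s : ℤ}
    (hs : ∀ p ∈ S, IsCoprime s (p : ℤ)) :
    NF (rr S 0) (TT S k (ii S k 0) q) (ww S k s) (bt S k) where
  one_le := rr_pos S 0
  le_three := C2_rr hq
  ne := TT_nonempty hS hq 0
  w_ne := fun T _ => ww_ne S k s T
  inj := by
    intro T hT T' hT' h
    exact ww_inj hS.two_le hS.coprime hs (mem_TT.1 hT).1 (mem_TT.1 hT').1 h
  b_ne := by
    intro T hT
    have h2 := (mem_TT.1 hT).2.2
    exact mul_ne_zero (pow_ne_zero _ (by norm_num)) (by exact_mod_cast h2)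
  sum := by
    intro hr
    have h3 : 3 ≤ S.card := by
      unfold rr at hr
      omega
    have hsub : TT S k (ii S k 0) q ⊆ S.powerset.filter fun T => q ∈ T := by
      intro T hT
      have h2 := mem_TT.1 hT
      exact Finset.mem_filter.2 ⟨Finset.mem_powerset.2 h2.1, h2.2.1⟩
    have h5 : ∑ T ∈ TT S k (ii S k 0) q, bt S k T =
        ∑ T ∈ S.powerset.filter (fun T => q ∈ T), bt S k T := by
      refine Finset.sum_subset hsub fun T hT hT' => ?_
      rw [Finset.mem_filter, Finset.mem_powerset] at hT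
      have h3 : tc k (ii S k 0) (al S T) = 0 := by
        by_contra h4
        exact hT' (mem_TT.2 ⟨hT.1, hT.2, h4⟩)
      unfold bt
      rw [h3, Rat.cast_zero, mul_zero]
    rw [h5]
    have h6 := congrArg (fun x : ℚ => (x : ℂ)) (C2_sum hS hq h3)
    simp only [Rat.cast_sum, Rat.cast_zero] at h6
    rw [← h6]
    refine Finset.sum_congr rfl fun T _ => ?_
    unfold bt
    push_cast
    ring

end Pool.Agent.GSX
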