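import Pool.Agent.GSX.C1
import Pool.Agent.GSX.C2
import Pool.Agent.GSN.N

/-!
# The squares of the twisted lowest coefficients

`trailingCoeff_prod`: by induction, `Polynomial.trailingCoeff_mul` (domain).

`zz_pow`: `zz l c t = exp (2 π i t c / l)` and `c ≡ u m` modulo `l`.

`node_sq`: by `GSN.tau_eq` the trailing coefficient is `kap * gg S k (ii S k 0) (rr S 0) q s (z ^ m)`.
For `m > 0` use `C2.gg_GG` at `z ^ |m|`; for `m < 0` first `GSN.gg_neg` (the sign disappears in the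
square), then `gg_GG` for `-s`. The points are no poles by `GSN.zz_notMem` (for `-s`:
`ww S k (-s) T = (ww S k s T)⁻¹`, as `exp (2 π i k) = 1`).
-/

set_option autoImplicit false

open Finset

namespace Pool.Agent.GSX

open Pool.Agent.GSP Pool.Agent.GSG Pool.Agent.GSN Pool.H42.PF

theorem trailingCoeff_prod {κ : Type} (K : Finset κ) (f : κ → Polynomial ℝ) :
    (∏ x ∈ K, f x).trailingCoeff = ∏ x ∈ K, (f x).trailingCoeff := by
  classical
  induction K using Finset.induction_on with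
  | empty =>
    rw [Finset.prod_empty, Finset.prod_empty]
    simp [Polynomial.trailingCoeff]
  | insert a K ha ih =>
    rw [Finset.prod_insert ha, Finset.prod_insert ha, Polynomial.trailingCoeff_mul, ih]

/-- The lowest coefficient. -/
noncomputable def tcf (S : Finset ℕ) (k : ℕ) (s : ℤ) : ℂ :=
  (((YY S k 0 s).trailingCoeff : ℝ) : ℂ)

/-- The constant factor. -/
noncomputable def kk (S : Finset ℕ) (k : ℕ) : ℂ := kap S k 0 (rr S 0) * cr (rr S 0)

theorem kk_ne {S : Finset ℕ} {k : ℕ} (hS : LeafG S k) : kk S k ≠ 0 := by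
  unfold kk
  exact mul_ne_zero (kap_ne hS 0 (rr S 0)) (cr_ne _)

theorem zz_pow {l : ℕ} (hl : 0 < l) {c u m t : ℤ} (h : (l : ℤ) ∣ c - u * m) :
    zz l c t = zz l u t ^ m := by
  have hl0 : (l : ℚ) ≠ 0 := by exact_mod_cast hl.ne'
  obtain ⟨d, hd⟩ := h
  have h1 : zz l u t ^ m = Complex.exp (2 * Real.pi * Complex.I * ((t * (u * m) / l : ℚ) : ℂ)) := by
    unfold zz
    rw [← Complex.exp_int_mul]
    congr 1
    push_cast
    ring
  rw [h1]
  unfold zz
  rw [exp_eq_iff]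
  refine ⟨t * d, ?_⟩
  have h2 : (c : ℚ) - u * m = l * d := by exact_mod_cast hd
  have h3 : (t * c / l - t * (u * m) / l : ℚ) = t * (c - u * m) / l := by ring
  rw [h3, h2]
  push_cast
  field_simp

private theorem C3_neg (S : Finset ℕ) (k : ℕ) (s : ℤ) (T : Finset ℕ) :
    ww S k (-s) T = (ww S k s T)⁻¹ := by
  unfold ww
  rw [← Complex.exp_neg, Complex.exp_eq_exp_iff_exists_int]
  refine ⟨-k, ?_⟩
  push_cast
  ring

private theorem C3_not {N : ℕ} {S : Finset ℕ} {k : ℕ} (hS : LeafG S k) {l q : ℕ} {c : ℤ}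
    (hL : Lf N S l q c) {s t : ℤ} (hst : UG S (tz N l (xp l S) t * s)) {T : Finset ℕ}
    (hT : T ∈ TT S k (ii S k 0) q) : ww S k s T * zz l c (t * s) ≠ 1 := by
  intro h
  refine zz_notMem hS hL hst.2 (ii S k 0) (k := k) (Finset.mem_image.2 ⟨T, hT, ?_⟩)
  exact (eq_inv_of_mul_eq_one_right h).symm

theorem node_sq {N : ℕ} {S : Finset ℕ} {k : ℕ} (hS : LeafG S k) {l : ℕ} (hl : l.Prime)
    (hb : 4 ^ (S.card + 3) ≤ l) (hi : 1 ≤ xp l S) {q : ℕ} {c : ℤ} (hL : Lf N S l q c) {s t : ℤ}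
    (hst : UG S (tz N l (xp l S) t * s)) {m : ℤ} (hm : m ≠ 0) {z : ℂ} (hz0 : z ≠ 0)
    (hz : zz l c (t * s) = z ^ m) :
    (∀ T ∈ TT S k (ii S k 0) q, ww S k (m.sign * s) T * z ^ m.natAbs ≠ 1) ∧
      tcf S k (tz N l (xp l S) t * s) ^ 2 = kk S k ^ 2 *
        GG (rr S 0) (TT S k (ii S k 0) q) (ww S k (m.sign * s)) (bt S k) (z ^ m.natAbs) ^ 2 := by
  have h1 : tcf S k (tz N l (xp l S) t * s) =
      kap S k 0 (rr S 0) * gg S k (ii S k 0) (rr S 0) q s (zz l c (t * s)) :=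
    tau_eq hS hl hb hi hL hst
  rcases lt_or_gt_of_ne hm with h | h
  · have h2 : m.sign * s = -s := by
      rw [Int.sign_eq_neg_one_of_neg h]
      ring
    have h3 : z ^ m = (z ^ m.natAbs)⁻¹ := by
      have h4 : m = -((m.natAbs : ℕ) : ℤ) := by omega
      rw [← zpow_natCast z m.natAbs, ← zpow_neg, ← h4]
    have h5 : ∀ T ∈ TT S k (ii S k 0) q, ww S k (-s) T * z ^ m.natAbs ≠ 1 := by
      intro T hT h6
      refine C3_not hS hL hst hT ?_
      rw [hz, h3, ← inv_inj, mul_inv, inv_inv, inv_one, ← C3_neg, h6]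
    rw [h2]
    refine ⟨h5, ?_⟩
    rw [h1, hz, h3, gg_neg S k (ii S k 0) (rr S 0) q s (pow_ne_zero _ hz0),
      gg_GG hL.mem h5]
    unfold kk
    have h7 : (((-1 : ℂ)) ^ rr S 0) ^ 2 = 1 := by
      rw [← pow_mul, mul_comm, pow_mul]
      norm_num
    linear_combination (kap S k 0 (rr S 0) * (cr (rr S 0) * GG (rr S 0) (TT S k (ii S k 0) q)
      (ww S k (-s)) (bt S k) (z ^ m.natAbs))) ^ 2 * h7
  · have h2 : m.sign * s = s := by
      rw [Int.sign_eq_one_of_pos h]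
      ring
    have h3 : z ^ m = z ^ m.natAbs := by
      have h4 : m = ((m.natAbs : ℕ) : ℤ) := by omega
      conv_lhs => rw [h4]
      rw [zpow_natCast]
    have h5 : ∀ T ∈ TT S k (ii S k 0) q, ww S k s T * z ^ m.natAbs ≠ 1 := by
      intro T hT h6
      refine C3_not hS hL hst hT ?_
      rw [hz, h3, h6]
    rw [h2]
    refine ⟨h5, ?_⟩
    rw [h1, hz, h3, gg_GG hL.mem h5]
    unfold kk
    ring

end Pool.Agent.GSX
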