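import Pool.Agent.GSX.A6
import Pool.Agent.GSX.C3

/-!
# A product of nodes is not invariant under the twists of a large prime

* `dirichlet` with `M = (n + 1) 2 ^ (A + 4)` (`M ^ K.card ≤ bd n A < l`) for the numbers `c_x` of
  `GSN.exists_lf`: `u`, `m_x`.
* The points: `GSN.points hl (c := u) t₀` with `t₀` from `tz_unit`: `z = zz l u t` where `tz N l i t` is a
  unit, at least `l - 1` points, and `zz l c_x t = z ^ m_x` (`zz_pow`).
* The trailing coefficients of both sides of `h` (`trailingCoeff_prod`), and `node_sq` with `s = 1`: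
  `∏ kk_x ^ 2 * GG_x(z ^ |m_x|) ^ 2 = ∏ tcf_x(1) ^ 2 ≠ 0` (`GSN.trail`).
* `A6.prod_one` with `n_x = |m_x|`, `w_x = ww S_x k_x (sign m_x)` and `C2.node_NF`. The number of the
  points: `GSN.deg_bound` (`rr S 0 * |TT| < 2 ^ (|S| + 1) ≤ 2 ^ (A + 1)`) and `C1.sum_small`.
-/

set_option autoImplicit false

open Finset

namespace Pool.Agent.GSX

open Pool.Agent.GSP Pool.Agent.GSG Pool.Agent.GSN Pool.H42.PF

/-- The sign of a number which is not `0` is a unit. -/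
private theorem C4_sign {m : ℤ} (hm : m ≠ 0) (a : ℤ) : IsCoprime (m.sign * 1) a := by
  rcases lt_or_gt_of_ne hm with h | h
  · rw [Int.sign_eq_neg_one_of_neg h]
    exact ⟨-1, 0, by ring⟩
  · rw [Int.sign_eq_one_of_pos h]
    exact ⟨1, 0, by ring⟩

private theorem C4_UG (S : Finset ℕ) : UG S 1 :=
  ⟨odd_one, fun _ _ => isCoprime_one_left⟩

/-- The lowest coefficients of a product. -/
private theorem C4_tcf {κ : Type} (K : Finset κ) (S : κ → Finset ℕ) (k : κ → ℕ) {a b : ℤ}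
    (h : (∏ x ∈ K, YY (S x) (k x) 0 a) ^ 2 = (∏ x ∈ K, YY (S x) (k x) 0 b) ^ 2) :
    ∏ x ∈ K, tcf (S x) (k x) a ^ 2 = ∏ x ∈ K, tcf (S x) (k x) b ^ 2 := by
  have h1 := congrArg Polynomial.trailingCoeff h
  rw [sq, sq, Polynomial.trailingCoeff_mul, Polynomial.trailingCoeff_mul, trailingCoeff_prod,
    trailingCoeff_prod, ← sq, ← sq, ← Finset.prod_pow, ← Finset.prod_pow] at h1
  unfold tcf
  have h2 := congrArg (fun x : ℝ => (x : ℂ)) h1
  simpa only [Complex.ofReal_prod, Complex.ofReal_pow] using h2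

theorem no_const {κ : Type} {N n A l i : ℕ} (hN : 0 < N) (h4 : 4 ∣ N) {K : Finset κ}
    (hK : K.Nonempty) (hKn : K.card ≤ n) {S : κ → Finset ℕ} {k : κ → ℕ}
    (hS : ∀ x ∈ K, LeafG (S x) (k x)) (hNS : ∀ x ∈ K, ∀ p ∈ S x, 2 * p ∣ N)
    (hA : ∀ x ∈ K, (S x).card ≤ A) (hl : l.Prime) (hb : bd n A < l) (hi : 1 ≤ i)
    (hx : ∀ x ∈ K, xp l (S x) = i)
    (h : ∀ t : ℤ, IsCoprime (tz N l i t) (N : ℤ) →
      (∏ x ∈ K, YY (S x) (k x) 0 (tz N l i t)) ^ 2 = (∏ x ∈ K, YY (S x) (k x) 0 1) ^ 2) :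
    False := by
  have hn1 : 1 ≤ n := (Finset.card_pos.2 hK).trans_le hKn
  have hbl : ∀ x ∈ K, 4 ^ ((S x).card + 3) ≤ l := fun x hxK => (bd_le hn1 (hA x hxK)).trans hb.le
  obtain ⟨x₀, hx₀⟩ := hK
  have h64 : 64 ≤ l := five_le (hbl x₀ hx₀)
  have h5 : 5 ≤ l := by omega
  have hxi : ∀ x ∈ K, 1 ≤ xp l (S x) := fun x hxK => by rw [hx x hxK]; exact hi
  have hex : ∀ x ∈ K, ∃ (q : ℕ) (c : ℤ), Lf N (S x) l q c := fun x hxK =>
    exists_lf hN (hS x hxK) (hNS x hxK) hl h5 (hxi x hxK)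
  choose! q c hL using hex
  have hM : 1 ≤ (n + 1) * 2 ^ (A + 4) := Nat.mul_pos (Nat.succ_pos n) (by positivity)
  have hMl : ((n + 1) * 2 ^ (A + 4)) ^ K.card < l := by
    refine lt_of_le_of_lt ?_ hb
    unfold bd
    exact Nat.pow_le_pow_right hM (hKn.trans (Nat.le_succ n))
  obtain ⟨u, hu, m, hm⟩ := dirichlet K hl hM hMl c fun x hxK => (hL x hxK).cop
  obtain ⟨t₀, ht₀⟩ := tz_unit hN hl hi
  obtain ⟨Z, hZc, hZ⟩ := points hl hu t₀
  have hkk : ∏ x ∈ K, kk (S x) (k x) ^ 2 ≠ 0 :=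
    Finset.prod_ne_zero_iff.2 fun x hxK => pow_ne_zero 2 (kk_ne (hS x hxK))
  have htc : ∏ x ∈ K, tcf (S x) (k x) 1 ^ 2 ≠ 0 := by
    refine Finset.prod_ne_zero_iff.2 fun x hxK => pow_ne_zero 2 ?_
    unfold tcf
    have h1 := (trail (hS x hxK) hl (hbl x hxK) (hxi x hxK) (Nat.zero_le 1) (C4_UG (S x))
      (hL x hxK).mem).1
    exact_mod_cast h1
  refine prod_one (K := K) (r := fun x => rr (S x) 0)
    (J := fun x => TT (S x) (k x) (ii (S x) (k x) 0) (q x))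
    (w := fun x => ww (S x) (k x) ((m x).sign * 1)) (β := fun x => bt (S x) (k x))
    (n := fun x => (m x).natAbs) ⟨x₀, hx₀⟩ ?_ ?_
    (c := (∏ x ∈ K, tcf (S x) (k x) 1 ^ 2) / ∏ x ∈ K, kk (S x) (k x) ^ 2)
    (div_ne_zero htc hkk) (Z := Z) ?_ ?_
  · intro x hxK
    exact node_NF (hS x hxK) (hL x hxK).mem fun p _ => C4_sign (hm x hxK).2.1 p
  · intro x hxK
    exact Int.natAbs_pos.2 (hm x hxK).2.1
  · have h1 := sum_small (K := K) (n := n) (A := A) (l := l) (hKn.trans (Nat.le_succ n))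
      (m := fun x => (m x).natAbs) fun x hxK => (hm x hxK).2.2
    have h2 : ∑ x ∈ K, (m x).natAbs *
        (rr (S x) 0 * (TT (S x) (k x) (ii (S x) (k x) 0) (q x)).card) ≤
        (∑ x ∈ K, (m x).natAbs) * 2 ^ (A + 1) := by
      rw [Finset.sum_mul]
      refine Finset.sum_le_sum fun x hxK => Nat.mul_le_mul_left _ ?_
      have h3 := (deg_bound (hL x hxK).mem (k x) (ii (S x) (k x) 0)).1
      have h6 : 2 ^ ((S x).card + 1) ≤ 2 ^ (A + 1) :=
        Nat.pow_le_pow_right (by norm_num) (Nat.succ_le_succ (hA x hxK))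
      exact h3.le.trans h6
    have h3 : (2 : ℕ) ^ (A + 4) = 8 * 2 ^ (A + 1) := by
      rw [show A + 4 = 3 + (A + 1) by ring, pow_add]
      norm_num
    rw [h3] at h1
    have h6 : (∑ x ∈ K, (m x).natAbs) * (8 * 2 ^ (A + 1)) =
        8 * ((∑ x ∈ K, (m x).natAbs) * 2 ^ (A + 1)) := by ring
    rw [h6] at h1
    generalize (∑ x ∈ K, (m x).natAbs) * 2 ^ (A + 1) = B at h1 h2
    omega
  · intro z hz
    obtain ⟨t, ht, rfl⟩ := hZ z hz
    have hcu := ht₀ t ht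
    have hns : ∀ x ∈ K,
        (∀ T ∈ TT (S x) (k x) (ii (S x) (k x) 0) (q x),
          ww (S x) (k x) ((m x).sign * 1) T * zz l u t ^ (m x).natAbs ≠ 1) ∧
        tcf (S x) (k x) (tz N l i t) ^ 2 = kk (S x) (k x) ^ 2 *
          GG (rr (S x) 0) (TT (S x) (k x) (ii (S x) (k x) 0) (q x))
            (ww (S x) (k x) ((m x).sign * 1)) (bt (S x) (k x)) (zz l u t ^ (m x).natAbs) ^ 2 := by
      intro x hxK
      have hst : UG (S x) (tz N l (xp l (S x)) t * 1) := by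
        rw [mul_one, hx x hxK]
        exact uG_of h4 (hNS x hxK) hcu
      have h1 := node_sq (hS x hxK) hl (hbl x hxK) (hxi x hxK) (hL x hxK) hst (hm x hxK).2.1
        (zz_ne l u t) (by rw [mul_one]; exact zz_pow hl.pos (hm x hxK).1)
      rw [mul_one (tz N l (xp l (S x)) t), hx x hxK] at h1
      exact h1
    refine ⟨fun x hxK => (hns x hxK).1, ?_⟩
    have h1 := C4_tcf K S k (h t hcu)
    rw [Finset.prod_congr rfl fun x hxK => (hns x hxK).2, Finset.prod_mul_distrib] at h1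
    rw [eq_div_iff hkk, ← h1, ← Finset.prod_pow, mul_comm]

end Pool.Agent.GSX
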