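import Pool.Agent.GSX.A2

/-!
# One function and a product of functions with one or two poles

Write `N_0 = nn r₀ J₀ w₀ β₀`, `D_0 = dd r₀ J₀ w₀`, `N_x`, `D_x`. As in `A6` we get the identity
`c N_0(X ^ n₀) ^ 2 ∏ D_x(X ^ n_x) ^ 2 = c' D_0(X ^ n₀) ^ 2 ∏ N_x(X ^ n_x) ^ 2` in `ℂ[X]`.

* Comparison of the trailing degrees (the `D` have the constant coefficient `1`):
  `n₀ ntd(N_0) = ∑ n_x`.
* Comparison of the degrees: `n₀ (r₀ |J₀| - deg N_0) = ∑ n_x`.
* Hence `2 ∑ n_x = n₀ (ntd(N_0) + r₀ |J₀| - deg N_0) ≤ n₀ |J₀|` by `hv`.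
* Each of the `n₀ |J₀|` roots of `D_0(X ^ n₀)` is a root of the left side and not of `N_0(X ^ n₀)`
  (`nn_pole`), hence it is a root of some `D_x(X ^ n_x)`: `n₀ |J₀| ≤ ∑ n_x |J_x|`. (The roots of
  `1 - w X ^ n` are different; for the count use the set of the roots of `D_0(X ^ n₀)`, e.g.
  `Polynomial.nthRootsFinset`/`card_nthRoots` in `ℂ`, see `rt`, `card_rt` in `Pool/Agent/H42/PF/Pow.lean`,
  and `A1.card_root` for the upper bound.)
* As `|J_x| ≤ 2` for all `x` and `|J_x| = 1` for one `x`, we have `∑ n_x |J_x| < 2 ∑ n_x`,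
  a contradiction.
-/

set_option autoImplicit false

open Finset Polynomial

namespace Pool.Agent.GSX

variable {ι κ : Type} [DecidableEq ι] {K : Finset κ} {r : κ → ℕ} {J : κ → Finset ι}
  {w β : κ → ι → ℂ} {n : κ → ℕ}

private theorem A7_card_nth {n : ℕ} (hn : 1 ≤ n) {a : ℂ} (ha : a ≠ 0) :
    (nthRootsFinset n a).card = n := by
  have h3 : (X ^ n - C a : ℂ[X]).roots.Nodup :=
    nodup_roots (separable_X_pow_sub_C a (by exact_mod_cast (show n ≠ 0 by omega)) ha)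
  rw [nthRootsFinset_def]
  unfold nthRoots
  rw [Multiset.toFinset_card_of_nodup h3,
    ← (IsAlgClosed.splits (X ^ n - C a : ℂ[X])).natDegree_eq_card_roots, natDegree_X_pow_sub_C]

omit [DecidableEq ι] in
private theorem A7_card_roots {J : Finset ι} {w : ι → ℂ} (hw : ∀ j ∈ J, w j ≠ 0)
    (hi : Set.InjOn w J) {n : ℕ} (hn : 1 ≤ n) :
    ∃ R : Finset ℂ, R.card = n * J.card ∧ ∀ z ∈ R, ∃ j ∈ J, w j * z ^ n = 1 := by
  classical
  refine ⟨J.biUnion fun j => nthRootsFinset n (w j)⁻¹, ?_, fun z hz => ?_⟩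
  · rw [Finset.card_biUnion]
    · rw [Finset.sum_congr rfl fun j hj => A7_card_nth hn (inv_ne_zero (hw j hj)),
        Finset.sum_const, smul_eq_mul, mul_comm]
    · intro i hi' j hj hij
      rw [Function.onFun, Finset.disjoint_left]
      intro z hz hz'
      rw [mem_nthRootsFinset hn] at hz hz'
      exact hij (hi hi' hj (inv_injective (hz.symm.trans hz')))
  · rw [Finset.mem_biUnion] at hz
    obtain ⟨j, hj, hz⟩ := hz
    rw [mem_nthRootsFinset hn] at hz
    exact ⟨j, hj, by rw [hz, mul_inv_cancel₀ (hw j hj)]⟩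

private theorem A7_ntd_comp {p : ℂ[X]} {n : ℕ} (hn : 1 ≤ n) :
    (p.comp (X ^ n)).natTrailingDegree = n * p.natTrailingDegree := by
  rcases eq_or_ne p 0 with rfl | hp
  · simp
  rw [← expand_eq_comp_X_pow]
  refine le_antisymm (natTrailingDegree_le_of_ne_zero ?_) (le_natTrailingDegree ?_ fun m hm => ?_)
  · rw [coeff_expand_mul' hn]
    exact coeff_natTrailingDegree_ne_zero.2 hp
  · rwa [Ne, expand_eq_zero hn]
  · rw [coeff_expand hn]
    split_ifs with hd
    · obtain ⟨k, rfl⟩ := hd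
      rw [Nat.mul_div_cancel_left _ (by omega)]
      exact coeff_eq_zero_of_lt_natTrailingDegree (Nat.lt_of_mul_lt_mul_left hm)
    · rfl

private theorem A7_ntd_prod {f : κ → ℂ[X]} (hf : ∀ x ∈ K, f x ≠ 0) :
    (∏ x ∈ K, f x).natTrailingDegree = ∑ x ∈ K, (f x).natTrailingDegree := by
  classical
  induction K using Finset.induction_on with
  | empty => simp
  | insert a s ha ih =>
    rw [Finset.prod_insert ha, Finset.sum_insert ha,
      natTrailingDegree_mul (hf a (Finset.mem_insert_self _ _))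
        (Finset.prod_ne_zero_iff.2 fun x hx => hf x (Finset.mem_insert_of_mem hx)),
      ih fun x hx => hf x (Finset.mem_insert_of_mem hx)]

theorem prod_single (h : ∀ x ∈ K, NF (r x) (J x) (w x) (β x)) (hn : ∀ x ∈ K, 1 ≤ n x)
    {r₀ : ℕ} {J₀ : Finset ι} {w₀ β₀ : ι → ℂ} {n₀ : ℕ} (h₀ : NF r₀ J₀ w₀ β₀) (hn₀ : 1 ≤ n₀)
    (hs : ∀ x ∈ K, (nn (r x) (J x) (w x) (β x)).natTrailingDegree = 1 ∧
      (nn (r x) (J x) (w x) (β x)).natDegree + 1 = r x * (J x).card ∧ (J x).card ≤ 2)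
    (h1 : ∃ x ∈ K, (J x).card = 1)
    (hv : (nn r₀ J₀ w₀ β₀).natTrailingDegree + r₀ * J₀.card ≤
      (nn r₀ J₀ w₀ β₀).natDegree + J₀.card)
    {c c' : ℂ} (hc : c ≠ 0) (hc' : c' ≠ 0) {Z : Finset ℂ}
    (hcard : 2 * (n₀ * (r₀ * J₀.card) + ∑ x ∈ K, n x * (r x * (J x).card)) < Z.card)
    (hZ : ∀ z ∈ Z, (∀ j ∈ J₀, w₀ j * z ^ n₀ ≠ 1) ∧
      (∀ x ∈ K, ∀ j ∈ J x, w x j * z ^ n x ≠ 1) ∧
      c * GG r₀ J₀ w₀ β₀ (z ^ n₀) ^ 2 =
        c' * (∏ x ∈ K, GG (r x) (J x) (w x) (β x) (z ^ n x)) ^ 2) : False := by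
  classical
  set N₀ : ℂ[X] := (nn r₀ J₀ w₀ β₀).comp (X ^ n₀) with hN₀
  set D₀ : ℂ[X] := (dd r₀ J₀ w₀).comp (X ^ n₀) with hD₀
  set N : κ → ℂ[X] := fun x => (nn (r x) (J x) (w x) (β x)).comp (X ^ n x) with hN
  set D : κ → ℂ[X] := fun x => (dd (r x) (J x) (w x)).comp (X ^ n x) with hD
  -- non-vanishing
  have comp_ne : ∀ {p : ℂ[X]} {m : ℕ}, 1 ≤ m → p ≠ 0 → p.comp (X ^ m) ≠ 0 := by
    intro p m hm hp hpm
    rw [← expand_eq_comp_X_pow, expand_eq_zero (by omega)] at hpm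
    exact hp hpm
  have hN₀0 : N₀ ≠ 0 := comp_ne hn₀ (nn_ne h₀)
  have hD₀0 : D₀ ≠ 0 := comp_ne hn₀ (dd_ne _ _ _)
  have hN0 : ∀ x ∈ K, N x ≠ 0 := fun x hx => comp_ne (hn x hx) (nn_ne (h x hx))
  have hD0 : ∀ x ∈ K, D x ≠ 0 := fun x hx => comp_ne (hn x hx) (dd_ne _ _ _)
  have hPN : ∏ x ∈ K, N x ≠ 0 := Finset.prod_ne_zero_iff.2 hN0
  have hPD : ∏ x ∈ K, D x ≠ 0 := Finset.prod_ne_zero_iff.2 hD0
  -- degrees
  have dN₀ : N₀.natDegree = n₀ * (nn r₀ J₀ w₀ β₀).natDegree := by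
    rw [hN₀, natDegree_comp, natDegree_X_pow, mul_comm]
  have dD₀ : D₀.natDegree = n₀ * (r₀ * J₀.card) := by
    rw [hD₀, natDegree_comp, natDegree_X_pow, mul_comm, dd_natDegree h₀.w_ne]
  have dN : (∏ x ∈ K, N x).natDegree =
      ∑ x ∈ K, n x * (nn (r x) (J x) (w x) (β x)).natDegree := by
    rw [natDegree_prod _ _ hN0]
    refine Finset.sum_congr rfl fun x _ => ?_
    rw [hN, natDegree_comp, natDegree_X_pow, mul_comm]
  have dD : (∏ x ∈ K, D x).natDegree = ∑ x ∈ K, n x * (r x * (J x).card) := by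
    rw [natDegree_prod _ _ hD0]
    refine Finset.sum_congr rfl fun x hx => ?_
    rw [hD, natDegree_comp, natDegree_X_pow, mul_comm, dd_natDegree (h x hx).w_ne]
  -- the identity
  have key : C c * (N₀ * ∏ x ∈ K, D x) ^ 2 = C c' * (D₀ * ∏ x ∈ K, N x) ^ 2 := by
    rw [← sub_eq_zero]
    refine eq_zero_of_natDegree_lt_card_of_eval_eq_zero' _ Z (fun z hz => ?_) ?_
    · obtain ⟨z0, z1, z2⟩ := hZ z hz
      have e0 : eval z N₀ = GG r₀ J₀ w₀ β₀ (z ^ n₀) * eval z D₀ := by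
        rw [hN₀, hD₀, eval_comp, eval_comp, eval_pow, eval_X, nn_eval z0]
      have e1 : ∏ x ∈ K, eval z (N x) =
          (∏ x ∈ K, GG (r x) (J x) (w x) (β x) (z ^ n x)) * ∏ x ∈ K, eval z (D x) := by
        rw [← Finset.prod_mul_distrib]
        refine Finset.prod_congr rfl fun x hx => ?_
        rw [hN, hD, eval_comp, eval_comp, eval_pow, eval_X, nn_eval (z1 x hx)]
      rw [eval_sub, eval_mul, eval_mul, eval_C, eval_C, eval_pow, eval_pow, eval_mul, eval_mul,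
        eval_prod, eval_prod, e0, e1]
      linear_combination (eval z D₀ * ∏ x ∈ K, eval z (D x)) ^ 2 * z2
    · have b1 : (N₀ * ∏ x ∈ K, D x).natDegree ≤
          n₀ * (r₀ * J₀.card) + ∑ x ∈ K, n x * (r x * (J x).card) := by
        refine natDegree_mul_le.trans (add_le_add ?_ dD.le)
        rw [dN₀]
        exact Nat.mul_le_mul_left _ (nn_natDegree h₀).le
      have b2 : (D₀ * ∏ x ∈ K, N x).natDegree ≤
          n₀ * (r₀ * J₀.card) + ∑ x ∈ K, n x * (r x * (J x).card) := by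
        refine natDegree_mul_le.trans (add_le_add dD₀.le ?_)
        rw [dN]
        exact Finset.sum_le_sum fun x hx => Nat.mul_le_mul_left _ (nn_natDegree (h x hx)).le
      refine lt_of_le_of_lt ((natDegree_sub_le _ _).trans (max_le ?_ ?_)) hcard
      · exact (natDegree_C_mul_le _ _).trans (natDegree_pow_le.trans (Nat.mul_le_mul_left 2 b1))
      · exact (natDegree_C_mul_le _ _).trans (natDegree_pow_le.trans (Nat.mul_le_mul_left 2 b2))
  -- the degrees
  have E1 : n₀ * (nn r₀ J₀ w₀ β₀).natDegree + ∑ x ∈ K, n x = n₀ * (r₀ * J₀.card) := by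
    have := congrArg natDegree key
    rw [natDegree_C_mul hc, natDegree_C_mul hc', natDegree_pow, natDegree_pow,
      natDegree_mul hN₀0 hPD, natDegree_mul hD₀0 hPN, dN₀, dD₀, dN, dD] at this
    have h2 : ∑ x ∈ K, n x * (r x * (J x).card) =
        ∑ x ∈ K, n x * (nn (r x) (J x) (w x) (β x)).natDegree + ∑ x ∈ K, n x := by
      rw [← Finset.sum_add_distrib]
      refine Finset.sum_congr rfl fun x hx => ?_
      rw [← (hs x hx).2.1]
      ring
    omega
  -- the trailing degrees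
  have tD : ∀ {m s : ℕ} {I : Finset ι} {v : ι → ℂ}, 1 ≤ m →
      ((dd s I v).comp (X ^ m)).natTrailingDegree = 0 := by
    intro m s I v hm
    rw [natTrailingDegree_eq_zero]
    right
    rw [coeff_zero_eq_eval_zero, eval_comp, eval_pow, eval_X, zero_pow (by omega), dd_eval_zero]
    exact one_ne_zero
  have E2 : n₀ * (nn r₀ J₀ w₀ β₀).natTrailingDegree = ∑ x ∈ K, n x := by
    have := congrArg natTrailingDegree key
    have c1 : ∀ {a : ℂ} {p : ℂ[X]}, a ≠ 0 → p ≠ 0 →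
        (C a * p ^ 2).natTrailingDegree = 2 * p.natTrailingDegree := by
      intro a p ha hp
      rw [natTrailingDegree_mul (C_ne_zero.2 ha) (pow_ne_zero _ hp), natTrailingDegree_C, zero_add,
        pow_two, natTrailingDegree_mul hp hp]
      ring
    rw [c1 hc (mul_ne_zero hN₀0 hPD), c1 hc' (mul_ne_zero hD₀0 hPN),
      natTrailingDegree_mul hN₀0 hPD, natTrailingDegree_mul hD₀0 hPN, A7_ntd_prod hD0,
      A7_ntd_prod hN0, hD₀, tD hn₀, Finset.sum_eq_zero fun x hx => tD (hn x hx), hN₀,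
      A7_ntd_comp hn₀] at this
    have h2 : ∑ x ∈ K, (N x).natTrailingDegree = ∑ x ∈ K, n x := by
      refine Finset.sum_congr rfl fun x hx => ?_
      rw [hN]
      simp only
      rw [A7_ntd_comp (hn x hx), (hs x hx).1, mul_one]
    omega
  have E3 : 2 * ∑ x ∈ K, n x ≤ n₀ * J₀.card := by
    have := Nat.mul_le_mul_left n₀ hv
    rw [mul_add, mul_add] at this
    omega
  -- the roots
  obtain ⟨R, hR, hR'⟩ := A7_card_roots h₀.w_ne h₀.inj hn₀
  have E4 : n₀ * J₀.card ≤ ∑ x ∈ K, n x * (J x).card := by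
    rw [← hR]
    have hsub : R ⊆ K.biUnion fun x => R.filter fun z => ∃ j ∈ J x, w x j * z ^ n x = 1 := by
      intro z hz
      have z1 : eval (z ^ n₀) (nn r₀ J₀ w₀ β₀) ≠ 0 := nn_pole h₀ (hR' z hz)
      have z2 : eval z D₀ = 0 := by
        rw [hD₀, eval_comp, eval_pow, eval_X]
        exact (dd_root h₀.one_le).2 (hR' z hz)
      have z3 := congrArg (eval z) key
      rw [eval_mul, eval_mul, eval_C, eval_C, eval_pow, eval_pow, eval_mul, eval_mul, z2, zero_mul,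
        zero_pow two_ne_zero, mul_zero, mul_eq_zero, or_iff_right hc, pow_eq_zero_iff two_ne_zero,
        mul_eq_zero, eval_prod] at z3
      have z4 : eval z N₀ ≠ 0 := by
        rw [hN₀, eval_comp, eval_pow, eval_X]
        exact z1
      rcases z3 with z3 | z3
      · exact absurd z3 z4
      obtain ⟨x, hx, z5⟩ := Finset.prod_eq_zero_iff.1 z3
      rw [Finset.mem_biUnion]
      refine ⟨x, hx, Finset.mem_filter.2 ⟨hz, ?_⟩⟩
      rw [hD] at z5
      simp only [eval_comp, eval_pow, eval_X] at z5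
      exact (dd_root (h x hx).one_le).1 z5
    refine (Finset.card_le_card hsub).trans (Finset.card_biUnion_le.trans ?_)
    exact Finset.sum_le_sum fun x hx =>
      card_root (h x hx).w_ne (hn x hx) fun z hz => (Finset.mem_filter.1 hz).2
  have E5 : ∑ x ∈ K, n x * (J x).card < 2 * ∑ x ∈ K, n x := by
    obtain ⟨y, hy, hy1⟩ := h1
    rw [Finset.mul_sum]
    refine Finset.sum_lt_sum (fun x hx => ?_) ⟨y, hy, ?_⟩
    · rw [mul_comm 2]
      exact Nat.mul_le_mul_left _ (hs x hx).2.2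
    · rw [hy1]
      have := hn y hy
      omega
  omega

end Pool.Agent.GSX
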