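import Pool.Agent.GSX.A5
import Pool.Agent.GSX.A7
import Pool.Agent.GSX.C3
import Pool.Agent.GSN.C1

/-!
# One node does not correspond to several nodes with few leaves

Each `x ∈ K` has `min 3 |S_x| ≥ 1` (as `xp l (S x) ≥ 1`, `S x` is not empty). As `|K| ≥ 2` and the sum is
at most `3`, all `|S_x| ≤ 2` and some `|S_x| = 1`; moreover `|S₀| ≥ 2`.

* `|S_x| = 1`: `rr = 3`, `|TT| = 1` (`GSN.TT_small`), `A5.nn_one`.
* `|S_x| = 2`: `rr = 2`, `|TT| = 2`, `A5.nn_two`: the sum of the `bt` over the two sets `{q}` and `{q, p}` is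
  `0`, as the Taylor coefficient has degree `ms S 0 = 0`, i.e. it is constant (`GSN.exists_tp`), and the
  signs are opposite.
* `S₀`: for `|S₀| = 2` the same, `1 + 4 ≤ 3 + 2`; for `|S₀| ≥ 3` we have `rr = 1` and `A5.nn_half`.

Then `A7.prod_single` as in `C4`: Dirichlet for `insert none (K.map some) : Finset (Option κ)`, with
at most `n + 1` elements (`M ^ (n + 1) = bd n A < l`), the trailing coefficients of `h`, `node_sq`.
-/

set_option autoImplicit false

open Finset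

namespace Pool.Agent.GSX

open Pool.Agent.GSP Pool.Agent.GSG Pool.Agent.GSN Pool.H42.PF

/-- The sign of a number which is not `0` is a unit. -/
private theorem C5_sign {m : ℤ} (hm : m ≠ 0) (a : ℤ) : IsCoprime (m.sign * 1) a := by
  rcases lt_or_gt_of_ne hm with h | h
  · rw [Int.sign_eq_neg_one_of_neg h]
    exact ⟨-1, 0, by ring⟩
  · rw [Int.sign_eq_one_of_pos h]
    exact ⟨1, 0, by ring⟩

private theorem C5_UG (S : Finset ℕ) : UG S 1 :=
  ⟨odd_one, fun _ _ => isCoprime_one_left⟩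

/-- The lowest coefficients. -/
private theorem C5_tcf {κ : Type} (K : Finset κ) (S : κ → Finset ℕ) (k : κ → ℕ) {S₀ : Finset ℕ}
    {k₀ : ℕ} {a b : ℤ}
    (h : (YY S₀ k₀ 0 a * ∏ x ∈ K, YY (S x) (k x) 0 b) ^ 2 =
      (YY S₀ k₀ 0 b * ∏ x ∈ K, YY (S x) (k x) 0 a) ^ 2) :
    tcf S₀ k₀ a ^ 2 * ∏ x ∈ K, tcf (S x) (k x) b ^ 2 =
      tcf S₀ k₀ b ^ 2 * ∏ x ∈ K, tcf (S x) (k x) a ^ 2 := by
  have h1 := congrArg Polynomial.trailingCoeff h
  rw [sq, sq, Polynomial.trailingCoeff_mul, Polynomial.trailingCoeff_mul,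
    Polynomial.trailingCoeff_mul, Polynomial.trailingCoeff_mul, trailingCoeff_prod,
    trailingCoeff_prod, ← sq, ← sq, mul_pow, mul_pow, ← Finset.prod_pow, ← Finset.prod_pow] at h1
  unfold tcf
  have h2 := congrArg (fun x : ℝ => (x : ℂ)) h1
  simpa only [Complex.ofReal_prod, Complex.ofReal_pow, Complex.ofReal_mul] using h2

private theorem C5_card {l : ℕ} {S : Finset ℕ} (h : 1 ≤ xp l S) : 1 ≤ S.card := by
  rw [Nat.one_le_iff_ne_zero, Ne, Finset.card_eq_zero]
  rintro rfl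
  simp [xp] at h

private theorem C5_count {κ : Type} {K : Finset κ} (hK : 2 ≤ K.card) {S : κ → Finset ℕ}
    (hne : ∀ x ∈ K, 1 ≤ (S x).card) (hm : ∑ x ∈ K, min 3 (S x).card ≤ 3) :
    (∀ x ∈ K, (S x).card ≤ 2) ∧ ∃ x ∈ K, (S x).card = 1 := by
  classical
  constructor
  · intro x hx
    obtain ⟨y, hy, hxy⟩ := Finset.exists_mem_ne (by omega : 1 < K.card) x
    have h1 : ∑ z ∈ ({x, y} : Finset κ), min 3 (S z).card ≤ ∑ z ∈ K, min 3 (S z).card := by
      refine Finset.sum_le_sum_of_subset ?_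
      intro z hz
      rw [Finset.mem_insert, Finset.mem_singleton] at hz
      rcases hz with rfl | rfl
      · exact hx
      · exact hy
    rw [Finset.sum_pair hxy.symm] at h1
    have := hne y hy
    omega
  · by_contra hc
    push Not at hc
    have h1 : ∑ z ∈ K, 2 ≤ ∑ z ∈ K, min 3 (S z).card := by
      refine Finset.sum_le_sum fun z hz => ?_
      have h2 := hne z hz
      have h3 := hc z hz
      omega
    rw [Finset.sum_const, smul_eq_mul] at h1
    omega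

private theorem C5_two {κ : Type} {K : Finset κ} (hK : 2 ≤ K.card) {S : κ → Finset ℕ}
    (hne : ∀ x ∈ K, 1 ≤ (S x).card) {c : ℕ} (hm : ∑ x ∈ K, min 3 (S x).card ≤ c) : 2 ≤ c := by
  have h1 : ∑ z ∈ K, 1 ≤ ∑ z ∈ K, min 3 (S z).card := by
    refine Finset.sum_le_sum fun z hz => ?_
    have h2 := hne z hz
    omega
  rw [Finset.sum_const, smul_eq_mul] at h1
  omega

/-- The coefficients of a node with two leaves. -/
private theorem C5_sum {S : Finset ℕ} {k : ℕ} (hS : LeafG S k) {q : ℕ} (hq : q ∈ S)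
    (h2 : S.card = 2) : ∑ T ∈ TT S k (ii S k 0) q, bt S k T = 0 := by
  obtain ⟨F, hF, hd, -⟩ := exists_tp (ii_lt hS 0)
  have hd0 : F.natDegree = 0 := by
    rw [hd, sub_ii hS 0]
    unfold ms
    omega
  obtain ⟨b, hb⟩ := Polynomial.natDegree_eq_zero.1 hd0
  have hFb : ∀ x, tc k (ii S k 0) x = b := by
    intro x
    rw [← hF x, ← hb, Polynomial.eval_C]
  have hsub : TT S k (ii S k 0) q ⊆ S.powerset.filter fun T => q ∈ T := by
    intro T hT
    have h2 := mem_TT.1 hT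
    exact Finset.mem_filter.2 ⟨Finset.mem_powerset.2 h2.1, h2.2.1⟩
  have heq : TT S k (ii S k 0) q = S.powerset.filter fun T => q ∈ T := by
    refine Finset.eq_of_subset_of_card_le hsub ?_
    rw [card_filter hq, TT_small hS hq 0 (by omega)]
  obtain ⟨p, hp⟩ : ∃ p, S.erase q = {p} := by
    rw [← Finset.card_eq_one, Finset.card_erase_of_mem hq]
    omega
  have hSe : S = {q, p} := by
    rw [← Finset.insert_erase hq, hp]
  have hqp : q ≠ p := by
    intro h
    have : p ∈ S.erase q := by rw [hp]; exact Finset.mem_singleton_self p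
    exact (Finset.ne_of_mem_erase this) h.symm
  have hset : (S.powerset.filter fun T => q ∈ T) = {{q}, S} := by
    ext T
    rw [Finset.mem_filter, Finset.mem_powerset, Finset.mem_insert, Finset.mem_singleton]
    constructor
    · rintro ⟨h3, h4⟩
      by_cases h5 : p ∈ T
      · right
        refine Finset.Subset.antisymm h3 ?_
        rw [hSe]
        intro x hx
        rw [Finset.mem_insert, Finset.mem_singleton] at hx
        rcases hx with rfl | rfl
        · exact h4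
        · exact h5
      · left
        ext x
        rw [Finset.mem_singleton]
        constructor
        · intro hx
          have h6 := h3 hx
          rw [hSe, Finset.mem_insert, Finset.mem_singleton] at h6
          rcases h6 with h6 | h6
          · exact h6
          · rw [h6] at hx
            exact absurd hx h5
        · rintro rfl
          exact h4
    · rintro (rfl | rfl)
      · exact ⟨Finset.singleton_subset_iff.2 hq, Finset.mem_singleton_self q⟩
      · exact ⟨Finset.Subset.refl _, hq⟩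
  have hne : ({q} : Finset ℕ) ≠ S := by
    intro h
    rw [← h, Finset.card_singleton] at h2
    omega
  rw [heq, hset, Finset.sum_pair hne]
  unfold bt
  rw [hFb, hFb, Finset.sdiff_self, Finset.card_empty, pow_zero,
    Finset.card_sdiff_of_subset (Finset.singleton_subset_iff.2 hq), Finset.card_singleton, h2]
  norm_num

/-- A node with one or two leaves. -/
private theorem C5_node {S : Finset ℕ} {k : ℕ} (hS : LeafG S k) {q : ℕ} (hq : q ∈ S)
    (h2 : S.card ≤ 2) {w : Finset ℕ → ℂ} (hNF : NF (rr S 0) (TT S k (ii S k 0) q) w (bt S k)) :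
    (nn (rr S 0) (TT S k (ii S k 0) q) w (bt S k)).natTrailingDegree = 1 ∧
      (nn (rr S 0) (TT S k (ii S k 0) q) w (bt S k)).natDegree + 1 =
        rr S 0 * (TT S k (ii S k 0) q).card ∧ (TT S k (ii S k 0) q).card ≤ 2 := by
  have h1 : 1 ≤ S.card := Finset.card_pos.2 ⟨q, hq⟩
  have hT := TT_small hS hq 0 (by omega)
  have hc : S.card = 1 ∨ S.card = 2 := by omega
  rcases hc with hc | hc
  · rw [hc] at hT
    have hT' : (TT S k (ii S k 0) q).card = 1 := by rw [hT]; norm_num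
    have h3 := nn_one hNF (by unfold rr; omega) hT'
    exact ⟨h3.1, h3.2, by omega⟩
  · rw [hc] at hT
    have hT' : (TT S k (ii S k 0) q).card = 2 := by rw [hT]; norm_num
    have h3 := nn_two hNF (by unfold rr; omega) hT' (C5_sum hS hq hc)
    exact ⟨h3.1, h3.2, by omega⟩

theorem no_split {κ : Type} {N n A l i : ℕ} (hN : 0 < N) (h4 : 4 ∣ N) {K : Finset κ}
    (hK : 2 ≤ K.card) (hKn : K.card ≤ n) {S : κ → Finset ℕ} {k : κ → ℕ}
    (hS : ∀ x ∈ K, LeafG (S x) (k x)) (hNS : ∀ x ∈ K, ∀ p ∈ S x, 2 * p ∣ N)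
    (hA : ∀ x ∈ K, (S x).card ≤ A) {S₀ : Finset ℕ} {k₀ : ℕ} (hS₀ : LeafG S₀ k₀)
    (hNS₀ : ∀ p ∈ S₀, 2 * p ∣ N) (hA₀ : S₀.card ≤ A) (hl : l.Prime) (hb : bd n A < l)
    (hi : 1 ≤ i) (hx : ∀ x ∈ K, xp l (S x) = i) (hx₀ : xp l S₀ = i)
    (hm : ∑ x ∈ K, min 3 (S x).card ≤ min 3 S₀.card)
    (h : ∀ t : ℤ, IsCoprime (tz N l i t) (N : ℤ) →
      (YY S₀ k₀ 0 (tz N l i t) * ∏ x ∈ K, YY (S x) (k x) 0 1) ^ 2 =
        (YY S₀ k₀ 0 1 * ∏ x ∈ K, YY (S x) (k x) 0 (tz N l i t)) ^ 2) :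
    False := by
  -- the numbers of the leaves
  have hne : ∀ x ∈ K, 1 ≤ (S x).card := fun x hxK =>
    C5_card (by rw [hx x hxK]; exact hi)
  obtain ⟨hle2, hone⟩ := C5_count hK hne (hm.trans (min_le_left _ _))
  have h2 : 2 ≤ S₀.card := C5_two hK hne (hm.trans (min_le_right _ _))
  have hn1 : 1 ≤ n := (by omega : 1 ≤ K.card).trans hKn
  have hbl : ∀ x ∈ K, 4 ^ ((S x).card + 3) ≤ l := fun x hxK => (bd_le hn1 (hA x hxK)).trans hb.le
  have hbl₀ : 4 ^ (S₀.card + 3) ≤ l := (bd_le hn1 hA₀).trans hb.le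
  have h64 : 64 ≤ l := five_le hbl₀
  have h5 : 5 ≤ l := by omega
  have hxi : ∀ x ∈ K, 1 ≤ xp l (S x) := fun x hxK => by rw [hx x hxK]; exact hi
  have hxi₀ : 1 ≤ xp l S₀ := by rw [hx₀]; exact hi
  have hex : ∀ x ∈ K, ∃ (q : ℕ) (c : ℤ), Lf N (S x) l q c := fun x hxK =>
    exists_lf hN (hS x hxK) (hNS x hxK) hl h5 (hxi x hxK)
  choose! q c hL using hex
  obtain ⟨q₀, c₀, hL₀⟩ := exists_lf hN hS₀ hNS₀ hl h5 hxi₀
  have hM : 1 ≤ (n + 1) * 2 ^ (A + 4) := Nat.mul_pos (Nat.succ_pos n) (by positivity)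
  have hKc : (Finset.insertNone K).card = K.card + 1 := Finset.card_insertNone K
  have hMl : ((n + 1) * 2 ^ (A + 4)) ^ (Finset.insertNone K).card < l := by
    rw [hKc]
    refine lt_of_le_of_lt ?_ hb
    unfold bd
    exact Nat.pow_le_pow_right hM (Nat.succ_le_succ hKn)
  obtain ⟨u, hu, m', hm'⟩ := dirichlet (Finset.insertNone K) hl hM hMl (fun o => o.elim c₀ c)
    (by
      intro o ho
      cases o with
      | none => exact hL₀.cop
      | some x => exact (hL x (Finset.some_mem_insertNone.1 ho)).cop)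
  have hmn := hm' none (Finset.none_mem_insertNone)
  have hms : ∀ x ∈ K, (l : ℤ) ∣ c x - u * m' (some x) ∧ m' (some x) ≠ 0 ∧
      (m' (some x)).natAbs * ((n + 1) * 2 ^ (A + 4)) ≤ l := fun x hxK =>
    hm' (some x) (Finset.some_mem_insertNone.2 hxK)
  obtain ⟨t₀, ht₀⟩ := tz_unit hN hl hi
  obtain ⟨Z, hZc, hZ⟩ := points hl hu t₀
  have hkk : ∏ x ∈ K, kk (S x) (k x) ^ 2 ≠ 0 :=
    Finset.prod_ne_zero_iff.2 fun x hxK => pow_ne_zero 2 (kk_ne (hS x hxK))
  have htc : ∏ x ∈ K, tcf (S x) (k x) 1 ^ 2 ≠ 0 := by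
    refine Finset.prod_ne_zero_iff.2 fun x hxK => pow_ne_zero 2 ?_
    unfold tcf
    have h1 := (trail (hS x hxK) hl (hbl x hxK) (hxi x hxK) (Nat.zero_le 1) (C5_UG (S x))
      (hL x hxK).mem).1
    exact_mod_cast h1
  have hkk₀ : kk S₀ k₀ ^ 2 ≠ 0 := pow_ne_zero 2 (kk_ne hS₀)
  have htc₀ : tcf S₀ k₀ 1 ^ 2 ≠ 0 := by
    refine pow_ne_zero 2 ?_
    unfold tcf
    have h1 := (trail hS₀ hl hbl₀ hxi₀ (Nat.zero_le 1) (C5_UG S₀) hL₀.mem).1
    exact_mod_cast h1
  have hNF₀ : NF (rr S₀ 0) (TT S₀ k₀ (ii S₀ k₀ 0) q₀) (ww S₀ k₀ ((m' none).sign * 1))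
      (bt S₀ k₀) := node_NF hS₀ hL₀.mem fun p _ => C5_sign hmn.2.1 p
  refine prod_single (K := K) (r := fun x => rr (S x) 0)
    (J := fun x => TT (S x) (k x) (ii (S x) (k x) 0) (q x))
    (w := fun x => ww (S x) (k x) ((m' (some x)).sign * 1)) (β := fun x => bt (S x) (k x))
    (n := fun x => (m' (some x)).natAbs) ?_ ?_
    (r₀ := rr S₀ 0) (J₀ := TT S₀ k₀ (ii S₀ k₀ 0) q₀) (w₀ := ww S₀ k₀ ((m' none).sign * 1))
    (β₀ := bt S₀ k₀) (n₀ := (m' none).natAbs) hNF₀ (Int.natAbs_pos.2 hmn.2.1) ?_ ?_ ?_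
    (c := kk S₀ k₀ ^ 2 * ∏ x ∈ K, tcf (S x) (k x) 1 ^ 2)
    (c' := tcf S₀ k₀ 1 ^ 2 * ∏ x ∈ K, kk (S x) (k x) ^ 2)
    (mul_ne_zero hkk₀ htc) (mul_ne_zero htc₀ hkk) (Z := Z) ?_ ?_
  · intro x hxK
    exact node_NF (hS x hxK) (hL x hxK).mem fun p _ => C5_sign (hms x hxK).2.1 p
  · intro x hxK
    exact Int.natAbs_pos.2 (hms x hxK).2.1
  · intro x hxK
    exact C5_node (hS x hxK) (hL x hxK).mem (hle2 x hxK)
      (node_NF (hS x hxK) (hL x hxK).mem fun p _ => C5_sign (hms x hxK).2.1 p)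
  · obtain ⟨x, hxK, h1⟩ := hone
    refine ⟨x, hxK, ?_⟩
    rw [TT_small (hS x hxK) (hL x hxK).mem 0 (by omega), h1]
    norm_num
  · rcases Nat.lt_or_ge S₀.card 3 with h3 | h3
    · have hc2 : S₀.card = 2 := by omega
      obtain ⟨e1, e2, e3⟩ := C5_node hS₀ hL₀.mem (by omega) hNF₀
      have hJ : (TT S₀ k₀ (ii S₀ k₀ 0) q₀).card = 2 := by
        rw [TT_small hS₀ hL₀.mem 0 (by omega), hc2]
        norm_num
      have hr : rr S₀ 0 = 2 := by
        unfold rr
        omega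
      rw [e1]
      rw [hJ] at e2 ⊢
      rw [hr] at e2 ⊢
      omega
    · exact nn_half hNF₀ (by unfold rr; omega)
  · have h1 := sum_small (K := Finset.insertNone K) (n := n) (A := A) (l := l)
      (by rw [hKc]; omega) (m := fun o => (m' o).natAbs) fun o ho => (hm' o ho).2.2
    rw [Finset.sum_insertNone] at h1
    have hb1 : ∀ {S : Finset ℕ} {k q : ℕ}, q ∈ S → S.card ≤ A →
        rr S 0 * (TT S k (ii S k 0) q).card ≤ 2 ^ (A + 1) := by
      intro S k q hq hA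
      have h3 := (deg_bound hq k (ii S k 0)).1
      exact h3.le.trans (Nat.pow_le_pow_right (by norm_num) (Nat.succ_le_succ hA))
    have h2 : ∑ x ∈ K, (m' (some x)).natAbs *
        (rr (S x) 0 * (TT (S x) (k x) (ii (S x) (k x) 0) (q x)).card) ≤
        (∑ x ∈ K, (m' (some x)).natAbs) * 2 ^ (A + 1) := by
      rw [Finset.sum_mul]
      exact Finset.sum_le_sum fun x hxK => Nat.mul_le_mul_left _ (hb1 (hL x hxK).mem (hA x hxK))
    have h2' : (m' none).natAbs * (rr S₀ 0 * (TT S₀ k₀ (ii S₀ k₀ 0) q₀).card) ≤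
        (m' none).natAbs * 2 ^ (A + 1) := Nat.mul_le_mul_left _ (hb1 hL₀.mem hA₀)
    have h3 : (2 : ℕ) ^ (A + 4) = 8 * 2 ^ (A + 1) := by
      rw [show A + 4 = 3 + (A + 1) by ring, pow_add]
      norm_num
    rw [h3] at h1
    have h6 : ((m' none).natAbs + ∑ x ∈ K, (m' (some x)).natAbs) * (8 * 2 ^ (A + 1)) =
        8 * ((m' none).natAbs * 2 ^ (A + 1)) +
          8 * ((∑ x ∈ K, (m' (some x)).natAbs) * 2 ^ (A + 1)) := by ring
    rw [h6] at h1
    generalize (∑ x ∈ K, (m' (some x)).natAbs) * 2 ^ (A + 1) = B at h1 h2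
    generalize (m' none).natAbs * 2 ^ (A + 1) = B' at h1 h2'
    omega
  · intro z hz
    obtain ⟨t, ht, rfl⟩ := hZ z hz
    have hcu := ht₀ t ht
    have hns : ∀ x ∈ K,
        (∀ T ∈ TT (S x) (k x) (ii (S x) (k x) 0) (q x),
          ww (S x) (k x) ((m' (some x)).sign * 1) T * zz l u t ^ (m' (some x)).natAbs ≠ 1) ∧
        tcf (S x) (k x) (tz N l i t) ^ 2 = kk (S x) (k x) ^ 2 *
          GG (rr (S x) 0) (TT (S x) (k x) (ii (S x) (k x) 0) (q x))
            (ww (S x) (k x) ((m' (some x)).sign * 1)) (bt (S x) (k x))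
            (zz l u t ^ (m' (some x)).natAbs) ^ 2 := by
      intro x hxK
      have hst : UG (S x) (tz N l (xp l (S x)) t * 1) := by
        rw [mul_one, hx x hxK]
        exact uG_of h4 (hNS x hxK) hcu
      have h1 := node_sq (hS x hxK) hl (hbl x hxK) (hxi x hxK) (hL x hxK) hst (hms x hxK).2.1
        (zz_ne l u t) (by rw [mul_one]; exact zz_pow hl.pos (hms x hxK).1)
      rw [mul_one (tz N l (xp l (S x)) t), hx x hxK] at h1
      exact h1
    have hns₀ : (∀ T ∈ TT S₀ k₀ (ii S₀ k₀ 0) q₀,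
          ww S₀ k₀ ((m' none).sign * 1) T * zz l u t ^ (m' none).natAbs ≠ 1) ∧
        tcf S₀ k₀ (tz N l i t) ^ 2 = kk S₀ k₀ ^ 2 *
          GG (rr S₀ 0) (TT S₀ k₀ (ii S₀ k₀ 0) q₀)
            (ww S₀ k₀ ((m' none).sign * 1)) (bt S₀ k₀)
            (zz l u t ^ (m' none).natAbs) ^ 2 := by
      have hst : UG S₀ (tz N l (xp l S₀) t * 1) := by
        rw [mul_one, hx₀]
        exact uG_of h4 hNS₀ hcu
      have h1 := node_sq hS₀ hl hbl₀ hxi₀ hL₀ hst hmn.2.1
        (zz_ne l u t) (by rw [mul_one]; exact zz_pow hl.pos hmn.1)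
      rw [mul_one (tz N l (xp l S₀) t), hx₀] at h1
      exact h1
    refine ⟨hns₀.1, fun x hxK => (hns x hxK).1, ?_⟩
    have h1 := C5_tcf K S k (h t hcu)
    rw [hns₀.2, Finset.prod_congr rfl fun x hxK => (hns x hxK).2, Finset.prod_mul_distrib,
      Finset.prod_pow K 2 (fun x => GG (rr (S x) 0) (TT (S x) (k x) (ii (S x) (k x) 0) (q x))
            (ww (S x) (k x) ((m' (some x)).sign * 1)) (bt (S x) (k x))
            (zz l u t ^ (m' (some x)).natAbs))] at h1
    linear_combination h1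

/-- two corresponding nodes have the same lowest exponent (from `GSN.dec_id`, for `(S, S')` or for
`(S', S)`) -/
theorem same_rr {N : ℕ} (hN : 0 < N) (h4 : 4 ∣ N) {S S' : Finset ℕ} {k k' : ℕ}
    (hS : LeafG S k) (hS' : LeafG S' k') (hNS : ∀ p ∈ S, 2 * p ∣ N) (hNS' : ∀ p ∈ S', 2 * p ∣ N)
    {l : ℕ} (hl : l.Prime) (hb : 4 ^ (S.card + 3) ≤ l) (hb' : 4 ^ (S'.card + 3) ≤ l)
    (hi : 1 ≤ xp l S) (hi' : xp l S' = xp l S)
    (h : ∀ t : ℤ, IsCoprime (tz N l (xp l S) t) (N : ℤ) →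
      (YY S k 0 (tz N l (xp l S) t) * YY S' k' 0 1) ^ 2 =
        (YY S' k' 0 (tz N l (xp l S) t) * YY S k 0 1) ^ 2) :
    rr S 0 = rr S' 0 := by
  rcases le_total S'.card S.card with hc | hc
  · obtain ⟨-, -, -, -, -, -, -, -, -, -, -, -, -, h1, -⟩ :=
      dec_id hN h4 hS hS' hNS hNS' hc hl hb hi hi' h
    exact h1
  · obtain ⟨-, -, -, -, -, -, -, -, -, -, -, -, -, h1, -⟩ :=
      dec_id hN h4 hS' hS hNS' hNS hc hl hb' (by rw [hi']; exact hi) hi'.symm
        (by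
          intro t ht
          rw [hi'] at ht ⊢
          exact (h t ht).symm)
    exact h1.symm

end Pool.Agent.GSX
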