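import Pool.Agent.GSX.A4
import Pool.Agent.GSX.C3

/-!
# The power sums of a node under the twists of a second prime

Let `W = zz l' c' t'`. By `Pool.H42.PF.ww_twist` (with `s = ε`; see `GSN.gg_tz`), for `T ⊆ S`:
`ww S k (ε * tz N l' (xp l' S) t') T = ww S k ε T * W ^ (ε σ_T)`, `σ_T = 1` if `q' ∈ T` and `-1` otherwise.
So with `A_μ = ∑ bt T * ww S k ε T ^ μ` over the `T ∈ TT S k (ii S k 0) q` with `ε σ_T = 1` and `B_μ` the sum
over the others, `∑ bt T * ww S k (ε * tz …) T ^ μ = A_μ W ^ μ + B_μ (W ^ μ)⁻¹`. Let `ν` be the least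
`ν ≥ 1` with `A_ν ≠ 0` or `B_ν ≠ 0` (`Nat.find`); by `A4.exists_pow` for `node_NF` with `s = ε` there is
`ν₀ ≤ |TT|` with `A_ν₀ + B_ν₀ ≠ 0`.
-/

set_option autoImplicit false

open Finset

namespace Pool.Agent.GSX

open Pool.Agent.GSP Pool.Agent.GSG Pool.Agent.GSN Pool.H42.PF

/-- The twist of a power of the exponentials. -/
private theorem C6_pow {N : ℕ} {S : Finset ℕ} {k : ℕ} (hS : LeafG S k)
    {l' q' : ℕ} {c' : ℤ} (hL : Lf N S l' q' c') {ε : ℤ} (hε : ε = 1 ∨ ε = -1) (t : ℤ)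
    {T : Finset ℕ} (hT : T ⊆ S) (μ : ℕ) :
    ww S k (ε * tz N l' (xp l' S) t) T ^ μ =
      ww S k ε T ^ μ * (if (q' ∈ T ↔ ε = 1) then zz l' c' t ^ μ else (zz l' c' t ^ μ)⁻¹) := by
  have h1 := ww_twist (k := k) (s := ε) (t := t) hS.two_le hL.prime.pos hL.mem hL.two_dvd hL.eq hT
  have h2 : ε * tz N l' (xp l' S) t = (1 + t * tw N l' (xp l' S)) * ε := by
    unfold tz
    ring
  have h3 : Complex.exp (2 * Real.pi * Complex.I *
      (((if q' ∈ T then (1 : ℚ) else -1) * (ε * t * c' / l') : ℚ) : ℂ)) =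
      if (q' ∈ T ↔ ε = 1) then zz l' c' t else (zz l' c' t)⁻¹ := by
    have hpos : ∀ x : ℚ, x = t * c' / l' →
        Complex.exp (2 * Real.pi * Complex.I * (x : ℂ)) = zz l' c' t := by
      intro x hx
      unfold zz
      rw [hx]
    have hneg : ∀ x : ℚ, x = -(t * c' / l') →
        Complex.exp (2 * Real.pi * Complex.I * (x : ℂ)) = (zz l' c' t)⁻¹ := by
      intro x hx
      unfold zz
      rw [hx, ← Complex.exp_neg]
      congr 1
      push_cast
      ring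
    by_cases hq : q' ∈ T
    · rcases hε with h | h
      · rw [if_pos hq, if_pos (by simp [hq, h])]
        refine hpos _ ?_
        rw [h]
        push_cast
        ring
      · rw [if_pos hq, if_neg (by simp [hq, h])]
        refine hneg _ ?_
        rw [h]
        push_cast
        ring
    · rcases hε with h | h
      · rw [if_neg hq, if_neg (by simp [hq, h])]
        refine hneg _ ?_
        rw [h]
        push_cast
        ring
      · rw [if_neg hq, if_pos (by simp [hq, h])]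
        refine hpos _ ?_
        rw [h]
        push_cast
        ring
  rw [h2, h1, h3, mul_pow]
  congr 1
  split_ifs
  · rfl
  · rw [inv_pow]

theorem two_term {N : ℕ} {S : Finset ℕ} {k : ℕ} (hS : LeafG S k) {q : ℕ} (hq : q ∈ S)
    {l' q' : ℕ} {c' : ℤ} (hL : Lf N S l' q' c') {ε : ℤ} (hε : ε = 1 ∨ ε = -1) :
    ∃ (ν : ℕ) (a b : ℂ), 1 ≤ ν ∧ ν ≤ (TT S k (ii S k 0) q).card ∧ (a ≠ 0 ∨ b ≠ 0) ∧ ∀ t : ℤ,
      (∀ μ, 1 ≤ μ → μ < ν → ∑ T ∈ TT S k (ii S k 0) q,
        bt S k T * ww S k (ε * tz N l' (xp l' S) t) T ^ μ = 0) ∧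
      ∑ T ∈ TT S k (ii S k 0) q, bt S k T * ww S k (ε * tz N l' (xp l' S) t) T ^ ν =
        a * zz l' c' t ^ ν + b * (zz l' c' t ^ ν)⁻¹ := by
  classical
  set J := TT S k (ii S k 0) q with hJ
  set A : ℕ → ℂ := fun μ => ∑ T ∈ J with (q' ∈ T ↔ ε = 1), bt S k T * ww S k ε T ^ μ with hA
  set B : ℕ → ℂ := fun μ => ∑ T ∈ J with ¬ (q' ∈ T ↔ ε = 1), bt S k T * ww S k ε T ^ μ with hB
  have hAB : ∀ μ, A μ + B μ = ∑ T ∈ J, bt S k T * ww S k ε T ^ μ := fun μ =>
    sum_filter_add_sum_filter_not J (fun T => (q' ∈ T ↔ ε = 1)) _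
  have hkey : ∀ (t : ℤ) (μ : ℕ), ∑ T ∈ J, bt S k T * ww S k (ε * tz N l' (xp l' S) t) T ^ μ =
      A μ * zz l' c' t ^ μ + B μ * (zz l' c' t ^ μ)⁻¹ := by
    intro t μ
    rw [← sum_filter_add_sum_filter_not J (fun T => (q' ∈ T ↔ ε = 1)), hA, hB, sum_mul, sum_mul]
    congr 1
    · refine sum_congr rfl fun T hT => ?_
      rw [mem_filter] at hT
      rw [C6_pow hS hL hε t (mem_TT.1 hT.1).1 μ, if_pos hT.2, mul_assoc]
    · refine sum_congr rfl fun T hT => ?_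
      rw [mem_filter] at hT
      rw [C6_pow hS hL hε t (mem_TT.1 hT.1).1 μ, if_neg hT.2, mul_assoc]
  have hNF := node_NF (k := k) hS hq (s := ε) fun p _ => by
    rcases hε with h | h
    · rw [h]
      exact isCoprime_one_left
    · rw [h]
      exact isCoprime_one_left.neg_left
  obtain ⟨ν₀, h1, h2, h3⟩ := exists_pow hNF
  have hex : ∃ ν, 1 ≤ ν ∧ (A ν ≠ 0 ∨ B ν ≠ 0) := by
    refine ⟨ν₀, h1, ?_⟩
    by_contra hcon
    push Not at hcon
    apply h3
    rw [← hJ, ← hAB, hcon.1, hcon.2, add_zero]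
  have hmin : Nat.find hex ≤ ν₀ := by
    refine Nat.find_min' hex ⟨h1, ?_⟩
    by_contra hcon
    push Not at hcon
    apply h3
    rw [← hJ, ← hAB, hcon.1, hcon.2, add_zero]
  refine ⟨Nat.find hex, A (Nat.find hex), B (Nat.find hex), (Nat.find_spec hex).1,
    hmin.trans h2, (Nat.find_spec hex).2, fun t => ⟨fun μ hμ1 hμ => ?_, hkey t _⟩⟩
  have h4 := Nat.find_min hex hμ
  rw [not_and] at h4
  have h5 := h4 hμ1
  push Not at h5
  rw [hkey t μ, h5.1, h5.2, zero_mul, zero_mul, add_zero]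

end Pool.Agent.GSX
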