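import Pool.Agent.GSX.A8
import Pool.Agent.GSX.C3

/-!
# The comparison of the lowest coefficients at the nodes which two primes move

Here `q x`, `c x` belong to the first prime `l`. `dirichlet` for `l` and the `c x` gives `u`, `m_x`; take
`ε x = sign (m x)`. Fix `t'` and write `s = tz N l' i' t'`; it is a unit, `s ≡ 1` modulo `l`
(`GSN.zz_tz`: `zz l c (t * s) = zz l c t`; `l ∣ N` by `GSN.dvd_N`). For the points `z = zz l u t` (`t` such
that `tz N l i t` is a unit, `GSN.points`) the trailing coefficients of `h` give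
`∏ tcf(tz t * s) ^ 2 * ∏ tcf(1) ^ 2 = ∏ tcf(tz t) ^ 2 * ∏ tcf(s) ^ 2`, and `node_sq` (for `s` and for `1`)
`tcf(tz t * s) ^ 2 = kk ^ 2 GG(ww S k (ε s))(z ^ |m|) ^ 2`, `tcf(tz t) ^ 2 = kk ^ 2 GG(ww S k ε)(z ^ |m|) ^ 2`.
Cancel `∏ kk ^ 2` and apply `A8.lead` with `c = ∏ tcf(1) ^ 2`, `c' = ∏ tcf(s) ^ 2`. The number of the
points as in `C4` (`4 ∑ n_x r_x |TT_x| ≤ 4 ∑ n_x 2 ^ (A + 1) ≤ l / 2`).
-/

set_option autoImplicit false

open Finset

namespace Pool.Agent.GSX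

open Pool.Agent.GSP Pool.Agent.GSG Pool.Agent.GSN Pool.H42.PF

private theorem C7_sign {m : ℤ} (hm : m ≠ 0) : m.sign = 1 ∨ m.sign = -1 := by
  rcases lt_or_gt_of_ne hm with h | h
  · exact Or.inr (Int.sign_eq_neg_one_of_neg h)
  · exact Or.inl (Int.sign_eq_one_of_pos h)

private theorem C7_cop {e a b : ℤ} (he : e = 1 ∨ e = -1) (h : IsCoprime a b) :
    IsCoprime (e * a) b := by
  rcases he with rfl | rfl
  · rwa [one_mul]
  · rw [neg_one_mul]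
    exact h.neg_left

private theorem C7_UG (S : Finset ℕ) : UG S 1 :=
  ⟨odd_one, fun _ _ => isCoprime_one_left⟩

/-- The lowest coefficients of a product. -/
private theorem C7_tcf {κ : Type} (K : Finset κ) (S : κ → Finset ℕ) (k : κ → ℕ) {a b a' b' : ℤ}
    (h : (∏ x ∈ K, YY (S x) (k x) 0 a * YY (S x) (k x) 0 b) ^ 2 =
      (∏ x ∈ K, YY (S x) (k x) 0 a' * YY (S x) (k x) 0 b') ^ 2) :
    (∏ x ∈ K, tcf (S x) (k x) a ^ 2) * (∏ x ∈ K, tcf (S x) (k x) b) ^ 2 =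
      (∏ x ∈ K, tcf (S x) (k x) a' ^ 2) * (∏ x ∈ K, tcf (S x) (k x) b') ^ 2 := by
  have h1 := congrArg Polynomial.trailingCoeff h
  rw [sq, sq, Polynomial.trailingCoeff_mul, Polynomial.trailingCoeff_mul, trailingCoeff_prod,
    trailingCoeff_prod] at h1
  simp only [Polynomial.trailingCoeff_mul] at h1
  rw [Finset.prod_mul_distrib, Finset.prod_mul_distrib] at h1
  have h2 := congrArg (fun x : ℝ => (x : ℂ)) h1
  simp only [Complex.ofReal_prod, Complex.ofReal_mul] at h2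
  rw [Finset.prod_pow, Finset.prod_pow]
  unfold tcf
  linear_combination h2

theorem node_lead {κ : Type} {N n A l l' i i' : ℕ} (hN : 0 < N) (h4 : 4 ∣ N) {K : Finset κ}
    (hK : K.Nonempty) (hKn : K.card ≤ n) {S : κ → Finset ℕ} {k : κ → ℕ}
    (hS : ∀ x ∈ K, LeafG (S x) (k x)) (hNS : ∀ x ∈ K, ∀ p ∈ S x, 2 * p ∣ N)
    (hA : ∀ x ∈ K, (S x).card ≤ A) (hll : l ≠ l') (hl : l.Prime) (hb : bd n A < l)
    (hl' : l'.Prime) (hb' : bd n A < l') (hi : 1 ≤ i) (hi' : 1 ≤ i')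
    (hx : ∀ x ∈ K, xp l (S x) = i) (hx' : ∀ x ∈ K, xp l' (S x) = i')
    {q : κ → ℕ} {c : κ → ℤ} (hL : ∀ x ∈ K, Lf N (S x) l (q x) (c x))
    (h : ∀ t t' : ℤ, IsCoprime (tz N l i t) (N : ℤ) → IsCoprime (tz N l' i' t') (N : ℤ) →
      (∏ x ∈ K, YY (S x) (k x) 0 (tz N l i t * tz N l' i' t') * YY (S x) (k x) 0 1) ^ 2 =
        (∏ x ∈ K, YY (S x) (k x) 0 (tz N l i t) * YY (S x) (k x) 0 (tz N l' i' t')) ^ 2) :
    ∃ ε : κ → ℤ, (∀ x ∈ K, ε x = 1 ∨ ε x = -1) ∧ ∀ t' : ℤ, IsCoprime (tz N l' i' t') (N : ℤ) →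
      ∀ ν : κ → ℕ, (∀ x ∈ K, 1 ≤ ν x) →
      (∀ x ∈ K, ∀ μ, 1 ≤ μ → μ < ν x → ∑ T ∈ TT (S x) (k x) (ii (S x) (k x) 0) (q x),
        bt (S x) (k x) T * ww (S x) (k x) (ε x * tz N l' i' t') T ^ μ = 0) →
      (∀ x ∈ K, ∀ μ, 1 ≤ μ → μ < ν x → ∑ T ∈ TT (S x) (k x) (ii (S x) (k x) 0) (q x),
        bt (S x) (k x) T * ww (S x) (k x) (ε x) T ^ μ = 0) →
      (∏ x ∈ K, tcf (S x) (k x) 1) ^ 2 *
          (∏ x ∈ K, ∑ T ∈ TT (S x) (k x) (ii (S x) (k x) 0) (q x),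
            bt (S x) (k x) T * ww (S x) (k x) (ε x * tz N l' i' t') T ^ ν x) ^ 2 =
        (∏ x ∈ K, tcf (S x) (k x) (tz N l' i' t')) ^ 2 *
          (∏ x ∈ K, ∑ T ∈ TT (S x) (k x) (ii (S x) (k x) 0) (q x),
            bt (S x) (k x) T * ww (S x) (k x) (ε x) T ^ ν x) ^ 2 := by
  have hn1 : 1 ≤ n := (Finset.card_pos.2 hK).trans_le hKn
  have hbl : ∀ x ∈ K, 4 ^ ((S x).card + 3) ≤ l := fun x hxK => (bd_le hn1 (hA x hxK)).trans hb.le
  obtain ⟨x₀, hx₀⟩ := hK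
  have h64 : 64 ≤ l := five_le (hbl x₀ hx₀)
  have hlN : l ∣ N := dvd_N (hNS x₀ hx₀) (hL x₀ hx₀)
  have hxi : ∀ x ∈ K, 1 ≤ xp l (S x) := fun x hxK => by rw [hx x hxK]; exact hi
  have hM : 1 ≤ (n + 1) * 2 ^ (A + 4) := Nat.mul_pos (Nat.succ_pos n) (by positivity)
  have hMl : ((n + 1) * 2 ^ (A + 4)) ^ K.card < l := by
    refine lt_of_le_of_lt ?_ hb
    unfold bd
    exact Nat.pow_le_pow_right hM (hKn.trans (Nat.le_succ n))
  obtain ⟨u, hu, m, hm⟩ := dirichlet K hl hM hMl c fun x hxK => (hL x hxK).cop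
  obtain ⟨t₀, ht₀⟩ := tz_unit hN hl hi
  obtain ⟨Z, hZc, hZ⟩ := points hl hu t₀
  have hkk : ∏ x ∈ K, kk (S x) (k x) ^ 2 ≠ 0 :=
    Finset.prod_ne_zero_iff.2 fun x hxK => pow_ne_zero 2 (kk_ne (hS x hxK))
  have hsg : ∀ x ∈ K, (m x).sign = 1 ∨ (m x).sign = -1 := fun x hxK => C7_sign (hm x hxK).2.1
  refine ⟨fun x => (m x).sign, hsg, fun t' ht' ν hν h0 h0' => ?_⟩
  refine lead (K := K) (r := fun x => rr (S x) 0)
    (J := fun x => TT (S x) (k x) (ii (S x) (k x) 0) (q x))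
    (w := fun x => ww (S x) (k x) ((m x).sign * tz N l' i' t'))
    (w' := fun x => ww (S x) (k x) (m x).sign) (β := fun x => bt (S x) (k x))
    (n := fun x => (m x).natAbs) (ν := ν) (c := (∏ x ∈ K, tcf (S x) (k x) 1) ^ 2)
    (c' := (∏ x ∈ K, tcf (S x) (k x) (tz N l' i' t')) ^ 2) (Z := Z) ?_ ?_ ?_ hν h0 h0' ?_ ?_
  · intro x hxK
    exact node_NF (hS x hxK) (hL x hxK).mem fun p hp =>
      C7_cop (hsg x hxK) ((uG_of h4 (hNS x hxK) ht').2 p hp)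
  · intro x hxK
    refine node_NF (hS x hxK) (hL x hxK).mem fun p _ => ?_
    have h1 := C7_cop (hsg x hxK) (isCoprime_one_left : IsCoprime (1 : ℤ) (p : ℤ))
    rwa [mul_one] at h1
  · intro x hxK
    exact Int.natAbs_pos.2 (hm x hxK).2.1
  · have h1 := sum_small (K := K) (n := n) (A := A) (l := l) (hKn.trans (Nat.le_succ n))
      (m := fun x => (m x).natAbs) fun x hxK => (hm x hxK).2.2
    have h2 : ∑ x ∈ K, (m x).natAbs *
        (rr (S x) 0 * (TT (S x) (k x) (ii (S x) (k x) 0) (q x)).card) ≤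
        (∑ x ∈ K, (m x).natAbs) * 2 ^ (A + 1) := by
      rw [Finset.sum_mul]
      refine Finset.sum_le_sum fun x hxK => Nat.mul_le_mul_left _ ?_
      have h3 := (deg_bound (hL x hxK).mem (k x) (ii (S x) (k x) 0)).1
      have h6 : 2 ^ ((S x).card + 1) ≤ 2 ^ (A + 1) :=
        Nat.pow_le_pow_right (by norm_num) (Nat.succ_le_succ (hA x hxK))
      exact h3.le.trans h6
    have h3 : (2 : ℕ) ^ (A + 4) = 8 * 2 ^ (A + 1) := by
      rw [show A + 4 = 3 + (A + 1) by ring, pow_add]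
      norm_num
    rw [h3] at h1
    have h6 : (∑ x ∈ K, (m x).natAbs) * (8 * 2 ^ (A + 1)) =
        8 * ((∑ x ∈ K, (m x).natAbs) * 2 ^ (A + 1)) := by ring
    rw [h6] at h1
    generalize (∑ x ∈ K, (m x).natAbs) * 2 ^ (A + 1) = B at h1 h2
    omega
  · intro z hz
    obtain ⟨t, ht, rfl⟩ := hZ z hz
    have hcu := ht₀ t ht
    have hns : ∀ s : ℤ, IsCoprime s (N : ℤ) → (∀ c : ℤ, zz l c (t * s) = zz l c t) → ∀ x ∈ K,
        (∀ T ∈ TT (S x) (k x) (ii (S x) (k x) 0) (q x),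
          ww (S x) (k x) ((m x).sign * s) T * zz l u t ^ (m x).natAbs ≠ 1) ∧
        tcf (S x) (k x) (tz N l i t * s) ^ 2 = kk (S x) (k x) ^ 2 *
          GG (rr (S x) 0) (TT (S x) (k x) (ii (S x) (k x) 0) (q x))
            (ww (S x) (k x) ((m x).sign * s)) (bt (S x) (k x)) (zz l u t ^ (m x).natAbs) ^ 2 := by
      intro s hs hzs x hxK
      have hst : UG (S x) (tz N l (xp l (S x)) t * s) := by
        rw [hx x hxK]
        exact uG_of h4 (hNS x hxK) (hcu.mul_left hs)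
      have h1 := node_sq (hS x hxK) hl (hbl x hxK) (hxi x hxK) (hL x hxK) hst (hm x hxK).2.1
        (zz_ne l u t) (by rw [hzs]; exact zz_pow hl.pos (hm x hxK).1)
      rw [hx x hxK] at h1
      exact h1
    have hA1 := hns (tz N l' i' t') ht' fun c => zz_tz hN hl hl' (Ne.symm hll) hlN i' c t t'
    have hA2 := hns 1 isCoprime_one_left fun c => by rw [mul_one]
    simp only [mul_one] at hA2
    refine ⟨fun x hxK T hT => ⟨(hA1 x hxK).1 T hT, (hA2 x hxK).1 T hT⟩, ?_⟩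
    have h1 := C7_tcf K S k (h t t' hcu ht')
    rw [Finset.prod_congr rfl fun x hxK => (hA1 x hxK).2,
      Finset.prod_congr rfl fun x hxK => (hA2 x hxK).2, Finset.prod_mul_distrib,
      Finset.prod_mul_distrib, Finset.prod_pow _ _ fun x => GG (rr (S x) 0)
        (TT (S x) (k x) (ii (S x) (k x) 0) (q x)) (ww (S x) (k x) ((m x).sign * tz N l' i' t'))
        (bt (S x) (k x)) (zz l u t ^ (m x).natAbs), Finset.prod_pow _ _ fun x => GG (rr (S x) 0)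
        (TT (S x) (k x) (ii (S x) (k x) 0) (q x)) (ww (S x) (k x) (m x).sign)
        (bt (S x) (k x)) (zz l u t ^ (m x).natAbs)] at h1
    apply mul_left_cancel₀ hkk
    linear_combination h1

end Pool.Agent.GSX
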