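import Pool.Agent.GSX.A9
import Pool.Agent.GSX.C6
import Pool.Agent.GSX.C7

/-!
# No node is moved by two private primes

Take `q x`, `c x` (for `l`) and `q' x`, `c' x` (for `l'`) from `GSN.exists_lf`, `ε` from `C7.node_lead`, and
`ν x`, `a x`, `b x` from `C6.two_term` (with `q x`, `l'`, `q' x`, `c' x`, `ε x`), so that
`P_x(t') = ∑ bt T * ww (ε x * tz N l' i' t') T ^ ν x = a x W ^ ν x + b x (W ^ ν x)⁻¹`, `W = zz l' (c' x) t'`, and
`P_x(0)` is the sum with `ww (ε x)` (`tz N l' i' 0 = 1`). `dirichlet` for `l'` and the `c' x`: `u`, `m_x`;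
`ω = zz l' u t'`, `W = ω ^ m_x`; put `e_x = |m_x| ν_x`, so that `P_x(t') = a' ω ^ e_x + b' (ω ^ e_x)⁻¹` with
`(a', b') = (a x, b x)` if `m_x > 0` and `(b x, a x)` if `m_x < 0`. The points are the `ω = zz l' u t'` for
the `t'` such that `tz N l' i' t'` is a unit (at least `l' - 1` of them, `GSN.points`).

* `∏ P_x(0) ≠ 0`: otherwise, as `∏ tcf(1) ≠ 0` (`GSN.trail`), `∏ P_x(t') = 0` for all these `t'`, against
  `A9.laurent_zeros`.
* So `(∏ tcf (tz N l' i' t')) ^ 2 = C (∏ P_x(t')) ^ 2` with `C ≠ 0`, and by `C3.node_sq` (for `l'`, `q' x`,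
  `s = 1`) the left side is `∏ kk ^ 2 GG(ww (sign m_x))(ω ^ |m_x|) ^ 2` with `TT … (q' x)`. This
  contradicts `A9.laurent` (`node_NF` for `q' x`).
* The numbers: `ν x ≤ |TT| ≤ 2 ^ (A - 1)` (`GSN.TT_le`), `rr * |TT| < 2 ^ (A + 1)`, so
  `∑ (4 e_x + 2 |m_x| rr |TT|) ≤ ∑ |m_x| 2 ^ (A + 3) ≤ l' / 2 < l' - 1` by `C1.sum_small`.
-/

set_option autoImplicit false

open Finset

namespace Pool.Agent.GSX

open Pool.Agent.GSP Pool.Agent.GSG Pool.Agent.GSN Pool.H42.PF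

/-- The sign of a number which is not `0` is a unit. -/
private theorem C8_sign {m : ℤ} (hm : m ≠ 0) (a : ℤ) : IsCoprime (m.sign * 1) a := by
  rcases lt_or_gt_of_ne hm with h | h
  · rw [Int.sign_eq_neg_one_of_neg h]
    exact ⟨-1, 0, by ring⟩
  · rw [Int.sign_eq_one_of_pos h]
    exact ⟨1, 0, by ring⟩

private theorem C8_UG (S : Finset ℕ) : UG S 1 :=
  ⟨odd_one, fun _ _ => isCoprime_one_left⟩

/-- The two terms as functions of `ω`. -/
private theorem C8_two {a b ω W : ℂ} {m : ℤ} {ν : ℕ} (hW : W = ω ^ m) :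
    a * W ^ ν + b * (W ^ ν)⁻¹ =
      (if 0 < m then a else b) * ω ^ (m.natAbs * ν) +
        (if 0 < m then b else a) * (ω ^ (m.natAbs * ν))⁻¹ := by
  subst hW
  rcases lt_or_ge 0 m with h | h
  · rw [if_pos h, if_pos h]
    have h1 : ω ^ m = ω ^ m.natAbs := by
      conv_lhs => rw [← Int.natAbs_of_nonneg h.le]
      rw [zpow_natCast]
    rw [h1, ← pow_mul]
  · rw [if_neg (not_lt.2 h), if_neg (not_lt.2 h)]
    have h1 : ω ^ m = (ω ^ m.natAbs)⁻¹ := by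
      have h2 : m = -(m.natAbs : ℤ) := by omega
      conv_lhs => rw [h2]
      rw [zpow_neg, zpow_natCast]
    rw [h1, inv_pow, inv_inv, ← pow_mul]
    ring

theorem no_common {κ : Type} {N n A l l' i i' : ℕ} (hN : 0 < N) (h4 : 4 ∣ N) {K : Finset κ}
    (hK : K.Nonempty) (hKn : K.card ≤ n) {S : κ → Finset ℕ} {k : κ → ℕ}
    (hS : ∀ x ∈ K, LeafG (S x) (k x)) (hNS : ∀ x ∈ K, ∀ p ∈ S x, 2 * p ∣ N)
    (hA : ∀ x ∈ K, (S x).card ≤ A) (hll : l ≠ l') (hl : l.Prime) (hb : bd n A < l)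
    (hl' : l'.Prime) (hb' : bd n A < l') (hi : 1 ≤ i) (hi' : 1 ≤ i')
    (hx : ∀ x ∈ K, xp l (S x) = i) (hx' : ∀ x ∈ K, xp l' (S x) = i')
    (h : ∀ t t' : ℤ, IsCoprime (tz N l i t) (N : ℤ) → IsCoprime (tz N l' i' t') (N : ℤ) →
      (∏ x ∈ K, YY (S x) (k x) 0 (tz N l i t * tz N l' i' t') * YY (S x) (k x) 0 1) ^ 2 =
        (∏ x ∈ K, YY (S x) (k x) 0 (tz N l i t) * YY (S x) (k x) 0 (tz N l' i' t')) ^ 2) :
    False := by
  have hn1 : 1 ≤ n := (Finset.card_pos.2 hK).trans_le hKn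
  have hbl' : ∀ x ∈ K, 4 ^ ((S x).card + 3) ≤ l' := fun x hxK =>
    (bd_le hn1 (hA x hxK)).trans hb'.le
  have hbl : ∀ x ∈ K, 4 ^ ((S x).card + 3) ≤ l := fun x hxK =>
    (bd_le hn1 (hA x hxK)).trans hb.le
  obtain ⟨x₀, hx₀⟩ := id hK
  have h64 : 64 ≤ l := five_le (hbl x₀ hx₀)
  have h64' : 64 ≤ l' := five_le (hbl' x₀ hx₀)
  have hxi : ∀ x ∈ K, 1 ≤ xp l (S x) := fun x hxK => by rw [hx x hxK]; exact hi
  have hxi' : ∀ x ∈ K, 1 ≤ xp l' (S x) := fun x hxK => by rw [hx' x hxK]; exact hi'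
  have hex : ∀ x ∈ K, ∃ (q : ℕ) (c : ℤ), Lf N (S x) l q c := fun x hxK =>
    exists_lf hN (hS x hxK) (hNS x hxK) hl (by omega) (hxi x hxK)
  choose! q c hL using hex
  have hex' : ∀ x ∈ K, ∃ (q : ℕ) (c : ℤ), Lf N (S x) l' q c := fun x hxK =>
    exists_lf hN (hS x hxK) (hNS x hxK) hl' (by omega) (hxi' x hxK)
  choose! q' c' hL' using hex'
  obtain ⟨ε, hε, hlead⟩ := node_lead hN h4 hK hKn hS hNS hA hll hl hb hl' hb' hi hi' hx hx' hL h
  have htt : ∀ x ∈ K, ∃ (ν : ℕ) (a b : ℂ), 1 ≤ ν ∧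
      ν ≤ (TT (S x) (k x) (ii (S x) (k x) 0) (q x)).card ∧ (a ≠ 0 ∨ b ≠ 0) ∧ ∀ t : ℤ,
      (∀ μ, 1 ≤ μ → μ < ν → ∑ T ∈ TT (S x) (k x) (ii (S x) (k x) 0) (q x),
        bt (S x) (k x) T * ww (S x) (k x) (ε x * tz N l' i' t) T ^ μ = 0) ∧
      ∑ T ∈ TT (S x) (k x) (ii (S x) (k x) 0) (q x),
        bt (S x) (k x) T * ww (S x) (k x) (ε x * tz N l' i' t) T ^ ν =
        a * zz l' (c' x) t ^ ν + b * (zz l' (c' x) t ^ ν)⁻¹ := by
    intro x hxK
    have h1 := two_term (hS x hxK) (hL x hxK).mem (hL' x hxK) (hε x hxK)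
    rw [hx' x hxK] at h1
    exact h1
  choose! ν a b hν1 hνle hab hνt using htt
  have htz0 : tz N l' i' 0 = 1 := by
    unfold tz
    ring
  have hM : 1 ≤ (n + 1) * 2 ^ (A + 4) := Nat.mul_pos (Nat.succ_pos n) (by positivity)
  have hMl : ((n + 1) * 2 ^ (A + 4)) ^ K.card < l' := by
    refine lt_of_le_of_lt ?_ hb'
    unfold bd
    exact Nat.pow_le_pow_right hM (hKn.trans (Nat.le_succ n))
  obtain ⟨u, hu, m, hm⟩ := dirichlet K hl' hM hMl c' fun x hxK => (hL' x hxK).cop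
  obtain ⟨t₀, ht₀⟩ := tz_unit hN hl' hi'
  obtain ⟨Z, hZc, hZ⟩ := points hl' hu t₀
  -- the sums
  set P : κ → ℤ → ℂ := fun x t => ∑ T ∈ TT (S x) (k x) (ii (S x) (k x) 0) (q x),
    bt (S x) (k x) T * ww (S x) (k x) (ε x * tz N l' i' t) T ^ ν x with hP
  set a' : κ → ℂ := fun x => if 0 < m x then a x else b x with ha'
  set b' : κ → ℂ := fun x => if 0 < m x then b x else a x with hb1
  set e : κ → ℕ := fun x => (m x).natAbs * ν x with he
  have hPt : ∀ x ∈ K, ∀ t : ℤ, P x t = a' x * zz l' u t ^ e x + b' x * (zz l' u t ^ e x)⁻¹ := by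
    intro x hxK t
    rw [hP]
    simp only
    rw [(hνt x hxK t).2]
    exact C8_two (zz_pow hl'.pos (hm x hxK).1)
  have hab' : ∀ x ∈ K, a' x ≠ 0 ∨ b' x ≠ 0 := by
    intro x hxK
    rw [ha', hb1]
    simp only
    rcases lt_or_ge 0 (m x) with h1 | h1
    · rw [if_pos h1, if_pos h1]
      exact hab x hxK
    · rw [if_neg (not_lt.2 h1), if_neg (not_lt.2 h1)]
      exact (hab x hxK).symm
  have hmp : ∀ x ∈ K, 1 ≤ (m x).natAbs := fun x hxK => Int.natAbs_pos.2 (hm x hxK).2.1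
  have he1 : ∀ x ∈ K, 1 ≤ e x := fun x hxK => Nat.mul_pos (hmp x hxK) (hν1 x hxK)
  -- the numbers
  have hnum : ∑ x ∈ K, (4 * e x + 2 * ((m x).natAbs *
      (rr (S x) 0 * (TT (S x) (k x) (ii (S x) (k x) 0) (q' x)).card))) < Z.card := by
    have h1 := sum_small (K := K) (n := n) (A := A) (l := l') (hKn.trans (Nat.le_succ n))
      (m := fun x => (m x).natAbs) fun x hxK => (hm x hxK).2.2
    have h2 : ∑ x ∈ K, (4 * e x + 2 * ((m x).natAbs *
        (rr (S x) 0 * (TT (S x) (k x) (ii (S x) (k x) 0) (q' x)).card))) ≤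
        (∑ x ∈ K, (m x).natAbs) * (8 * 2 ^ A) := by
      rw [Finset.sum_mul]
      refine Finset.sum_le_sum fun x hxK => ?_
      have h3 := (deg_bound (hL' x hxK).mem (k x) (ii (S x) (k x) 0)).1
      have h6 : 2 ^ ((S x).card + 1) ≤ 2 ^ (A + 1) :=
        Nat.pow_le_pow_right (by norm_num) (Nat.succ_le_succ (hA x hxK))
      have h7 := TT_le (hL x hxK).mem (k x) (ii (S x) (k x) 0)
      have h8 : 2 ^ ((S x).card - 1) ≤ 2 ^ A :=
        Nat.pow_le_pow_right (by norm_num) ((Nat.sub_le _ _).trans (hA x hxK))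
      have h9 : ν x ≤ 2 ^ A := (hνle x hxK).trans (h7.trans h8)
      have h10 : rr (S x) 0 * (TT (S x) (k x) (ii (S x) (k x) 0) (q' x)).card ≤ 2 * 2 ^ A := by
        refine (h3.le.trans h6).trans (le_of_eq ?_)
        rw [pow_succ]
        ring
      have h11 : e x ≤ (m x).natAbs * 2 ^ A := Nat.mul_le_mul_left _ h9
      have h12 := Nat.mul_le_mul_left (m x).natAbs h10
      have h13 : (m x).natAbs * (8 * 2 ^ A) = 8 * ((m x).natAbs * 2 ^ A) := by ring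
      have h14 : (m x).natAbs * (2 * 2 ^ A) = 2 * ((m x).natAbs * 2 ^ A) := by ring
      rw [h13]
      rw [h14] at h12
      generalize (m x).natAbs * 2 ^ A = B at h11 h12
      omega
    have h3 : (2 : ℕ) ^ (A + 4) = 2 * (8 * 2 ^ A) := by
      rw [pow_add]
      ring
    have h6 : (∑ x ∈ K, (m x).natAbs) * 2 ^ (A + 4) =
        2 * ((∑ x ∈ K, (m x).natAbs) * (8 * 2 ^ A)) := by
      rw [h3]
      ring
    have h5 : (∑ x ∈ K, (m x).natAbs) * 2 ^ (A + 4) ≤ l' := h1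
    rw [h6] at h5
    generalize (∑ x ∈ K, (m x).natAbs) * (8 * 2 ^ A) = B at h2 h5
    omega
  have htc : ∏ x ∈ K, tcf (S x) (k x) 1 ≠ 0 := by
    refine Finset.prod_ne_zero_iff.2 fun x hxK => ?_
    unfold tcf
    have h1 := (trail (hS x hxK) hl' (hbl' x hxK) (hxi' x hxK) (Nat.zero_le 1) (C8_UG (S x))
      (hL' x hxK).mem).1
    exact_mod_cast h1
  have hkk : ∏ x ∈ K, kk (S x) (k x) ≠ 0 :=
    Finset.prod_ne_zero_iff.2 fun x hxK => kk_ne (hS x hxK)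
  -- the identity
  have hid : ∀ t : ℤ, IsCoprime (tz N l' i' t) (N : ℤ) →
      (∏ x ∈ K, tcf (S x) (k x) 1) ^ 2 * (∏ x ∈ K, P x t) ^ 2 =
        (∏ x ∈ K, tcf (S x) (k x) (tz N l' i' t)) ^ 2 * (∏ x ∈ K, P x 0) ^ 2 := by
    intro t ht
    have h1 := hlead t ht ν hν1 (fun x hxK μ h1 h2 => (hνt x hxK t).1 μ h1 h2)
      (fun x hxK μ h1 h2 => by
        have h3 := (hνt x hxK 0).1 μ h1 h2
        rw [htz0, mul_one] at h3
        exact h3)
    have h2 : ∏ x ∈ K, P x 0 = ∏ x ∈ K, ∑ T ∈ TT (S x) (k x) (ii (S x) (k x) 0) (q x),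
        bt (S x) (k x) T * ww (S x) (k x) (ε x) T ^ ν x := by
      refine Finset.prod_congr rfl fun x _ => ?_
      rw [hP]
      simp only
      rw [htz0, mul_one]
    rw [h2]
    exact h1
  have hP0 : ∏ x ∈ K, P x 0 ≠ 0 := by
    intro h0
    refine laurent_zeros (K := K) (a := a') (b := b') (e := e) he1 hab' (Z := Z) ?_ ?_
    · refine lt_of_le_of_lt (Finset.sum_le_sum fun x _ => ?_) hnum
      omega
    · intro z hz
      obtain ⟨t, ht, rfl⟩ := hZ z hz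
      refine ⟨zz_ne l' u t, ?_⟩
      have h1 := hid t (ht₀ t ht)
      rw [h0, zero_pow (by norm_num), mul_zero] at h1
      have h2 := (mul_eq_zero.1 h1).resolve_left (pow_ne_zero 2 htc)
      rw [← Finset.prod_congr rfl fun x hxK => hPt x hxK t]
      exact pow_eq_zero_iff (by norm_num) |>.1 h2
  refine laurent (K := K) (r := fun x => rr (S x) 0)
    (J := fun x => TT (S x) (k x) (ii (S x) (k x) 0) (q' x))
    (w := fun x => ww (S x) (k x) ((m x).sign * 1)) (β := fun x => bt (S x) (k x))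
    (n := fun x => (m x).natAbs) (e := e) (a := a') (b := b') hK ?_ hmp he1 hab'
    (c := (∏ x ∈ K, tcf (S x) (k x) 1) ^ 2 /
      ((∏ x ∈ K, P x 0) ^ 2 * (∏ x ∈ K, kk (S x) (k x)) ^ 2))
    (div_ne_zero (pow_ne_zero 2 htc) (mul_ne_zero (pow_ne_zero 2 hP0) (pow_ne_zero 2 hkk)))
    (Z := Z) hnum ?_
  · intro x hxK
    exact node_NF (hS x hxK) (hL' x hxK).mem fun p _ => C8_sign (hm x hxK).2.1 p
  · intro z hz
    obtain ⟨t, ht, rfl⟩ := hZ z hz
    have hcu := ht₀ t ht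
    have hns : ∀ x ∈ K,
        (∀ T ∈ TT (S x) (k x) (ii (S x) (k x) 0) (q' x),
          ww (S x) (k x) ((m x).sign * 1) T * zz l' u t ^ (m x).natAbs ≠ 1) ∧
        tcf (S x) (k x) (tz N l' i' t) ^ 2 = kk (S x) (k x) ^ 2 *
          GG (rr (S x) 0) (TT (S x) (k x) (ii (S x) (k x) 0) (q' x))
            (ww (S x) (k x) ((m x).sign * 1)) (bt (S x) (k x)) (zz l' u t ^ (m x).natAbs) ^ 2 := by
      intro x hxK
      have hst : UG (S x) (tz N l' (xp l' (S x)) t * 1) := by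
        rw [mul_one, hx' x hxK]
        exact uG_of h4 (hNS x hxK) hcu
      have h1 := node_sq (hS x hxK) hl' (hbl' x hxK) (hxi' x hxK) (hL' x hxK) hst (hm x hxK).2.1
        (zz_ne l' u t) (by rw [mul_one]; exact zz_pow hl'.pos (hm x hxK).1)
      rw [mul_one (tz N l' (xp l' (S x)) t), hx' x hxK] at h1
      exact h1
    refine ⟨zz_ne l' u t, fun x hxK => (hns x hxK).1, ?_⟩
    have h1 := hid t hcu
    have h2 : (∏ x ∈ K, tcf (S x) (k x) (tz N l' i' t)) ^ 2 =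
        (∏ x ∈ K, kk (S x) (k x)) ^ 2 *
          (∏ x ∈ K, GG (rr (S x) 0) (TT (S x) (k x) (ii (S x) (k x) 0) (q' x))
            (ww (S x) (k x) ((m x).sign * 1)) (bt (S x) (k x))
            (zz l' u t ^ (m x).natAbs)) ^ 2 := by
      rw [← Finset.prod_pow, Finset.prod_congr rfl fun x hxK => (hns x hxK).2,
        Finset.prod_mul_distrib, Finset.prod_pow, Finset.prod_pow]
    have h3 : ∏ x ∈ K, P x t = ∏ x ∈ K, (a' x * zz l' u t ^ e x + b' x * (zz l' u t ^ e x)⁻¹) :=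
      Finset.prod_congr rfl fun x hxK => hPt x hxK t
    rw [h2, h3] at h1
    rw [div_mul_eq_mul_div, eq_div_iff (mul_ne_zero (pow_ne_zero 2 hP0) (pow_ne_zero 2 hkk)), h1]
    ring

end Pool.Agent.GSX
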