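import Mathlib

/-!
# Twists which move a set of nodes on one side
-/

set_option autoImplicit false

open Finset

namespace Pool.Agent.GSX

variable {R V V' : Type} [CommRing R] [IsDomain R] [Fintype V] [Fintype V'] [DecidableEq V']
  {f : V → ℤ → R} {f' : V' → ℤ → R} {a b : R} {U : ℤ → Prop}

omit [IsDomain R] in
private theorem D1_split (K : Finset V') (g : V' → R) :
    ∏ x, g x = (∏ x ∈ K, g x) * ∏ x ∈ Kᶜ, g x :=
  (prod_mul_prod_compl K g).symm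

private theorem D1_ne (hne' : ∀ v s, U s → f' v s ≠ 0) (K : Finset V') {s : ℤ} (hs : U s) :
    ∏ x ∈ K, f' x s ≠ 0 := prod_ne_zero_iff.2 fun x _ => hne' x s hs

/-- only nodes of the second family are moved -/
theorem set_none (hb : b ≠ 0) (h1 : U 1) (hne' : ∀ v s, U s → f' v s ≠ 0)
    (hR : ∀ s, U s → a * (∏ v, f v s) ^ 2 = b * (∏ v, f' v s) ^ 2) {g : ℤ} (hg : U g)
    (K : Finset V') (hv : ∀ u, f u g = f u 1) (hv' : ∀ x, x ∉ K → f' x g = f' x 1) :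
    (∏ x ∈ K, f' x g) ^ 2 = (∏ x ∈ K, f' x 1) ^ 2 := by
  have e1 := hR g hg
  have e2 := hR 1 h1
  have hP : ∏ u, f u g = ∏ u, f u 1 := prod_congr rfl fun u _ => hv u
  have hP' : ∏ x ∈ Kᶜ, f' x g = ∏ x ∈ Kᶜ, f' x 1 :=
    prod_congr rfl fun x hx => hv' x (mem_compl.1 hx)
  rw [D1_split K, hP, hP'] at e1
  rw [D1_split K] at e2
  have hn := D1_ne (U := U) hne' Kᶜ h1
  refine mul_left_cancel₀ (mul_ne_zero hb (pow_ne_zero 2 hn)) ?_
  linear_combination e2 - e1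

/-- one node of the first family and a set of nodes of the second family are moved -/
theorem set_one [DecidableEq V] (ha : a ≠ 0) (hb : b ≠ 0) (h1 : U 1)
    (hne : ∀ v s, U s → f v s ≠ 0) (hne' : ∀ v s, U s → f' v s ≠ 0)
    (hR : ∀ s, U s → a * (∏ v, f v s) ^ 2 = b * (∏ v, f' v s) ^ 2) {g : ℤ} (hg : U g) (v : V)
    (K : Finset V') (hv : ∀ u, u ≠ v → f u g = f u 1) (hv' : ∀ x, x ∉ K → f' x g = f' x 1) :
    (f v g * ∏ x ∈ K, f' x 1) ^ 2 = (f v 1 * ∏ x ∈ K, f' x g) ^ 2 := by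
  have e1 := hR g hg
  have e2 := hR 1 h1
  have hP : ∏ u ∈ univ.erase v, f u g = ∏ u ∈ univ.erase v, f u 1 :=
    prod_congr rfl fun u hu => hv u (ne_of_mem_erase hu)
  have hP' : ∏ x ∈ Kᶜ, f' x g = ∏ x ∈ Kᶜ, f' x 1 :=
    prod_congr rfl fun x hx => hv' x (mem_compl.1 hx)
  rw [D1_split K, ← mul_prod_erase univ _ (mem_univ v), hP, hP'] at e1
  rw [D1_split K, ← mul_prod_erase univ _ (mem_univ v)] at e2
  have hn' := D1_ne (U := U) hne' Kᶜ h1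
  have hn : ∏ u ∈ univ.erase v, f u 1 ≠ 0 := prod_ne_zero_iff.2 fun u _ => hne u 1 h1
  refine mul_left_cancel₀ (mul_ne_zero (mul_ne_zero ha hb)
    (pow_ne_zero 2 (mul_ne_zero hn hn'))) ?_
  linear_combination (b * ((∏ x ∈ K, f' x 1) * ∏ x ∈ Kᶜ, f' x 1) ^ 2) * e1 -
    (b * ((∏ x ∈ K, f' x g) * ∏ x ∈ Kᶜ, f' x 1) ^ 2) * e2

/-- two twists which move no common node of the first family -/
theorem set_four (hb : b ≠ 0) (h1 : U 1) (hmul : ∀ s t, U s → U t → U (s * t))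
    (hne' : ∀ v s, U s → f' v s ≠ 0)
    (hR : ∀ s, U s → a * (∏ v, f v s) ^ 2 = b * (∏ v, f' v s) ^ 2) {g h : ℤ} (hg : U g)
    (hh : U h) (K : Finset V') (hv : ∀ u, f u (g * h) * f u 1 = f u g * f u h)
    (hv' : ∀ x, x ∉ K → f' x (g * h) * f' x 1 = f' x g * f' x h) :
    (∏ x ∈ K, f' x (g * h) * f' x 1) ^ 2 = (∏ x ∈ K, f' x g * f' x h) ^ 2 := by
  have e1 := hR (g * h) (hmul g h hg hh)
  have e2 := hR 1 h1
  have e3 := hR g hg
  have e4 := hR h hh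
  have hP : ∏ u, (f u (g * h) * f u 1) = ∏ u, (f u g * f u h) := prod_congr rfl fun u _ => hv u
  have hP' : ∏ x ∈ Kᶜ, (f' x (g * h) * f' x 1) = ∏ x ∈ Kᶜ, (f' x g * f' x h) :=
    prod_congr rfl fun x hx => hv' x (mem_compl.1 hx)
  have q1 : a ^ 2 * (∏ u, (f u (g * h) * f u 1)) ^ 2 =
      b ^ 2 * (∏ x, (f' x (g * h) * f' x 1)) ^ 2 := by
    rw [prod_mul_distrib, prod_mul_distrib]
    linear_combination (a * (∏ v, f v 1) ^ 2) * e1 + (b * (∏ v, f' v (g * h)) ^ 2) * e2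
  have q2 : a ^ 2 * (∏ u, (f u g * f u h)) ^ 2 = b ^ 2 * (∏ x, (f' x g * f' x h)) ^ 2 := by
    rw [prod_mul_distrib, prod_mul_distrib]
    linear_combination (a * (∏ v, f v h) ^ 2) * e3 + (b * (∏ v, f' v g) ^ 2) * e4
  rw [hP, q2, D1_split K, D1_split K (fun x => f' x (g * h) * f' x 1), hP'] at q1
  have hn : ∏ x ∈ Kᶜ, (f' x g * f' x h) ≠ 0 :=
    prod_ne_zero_iff.2 fun x _ => mul_ne_zero (hne' x g hg) (hne' x h hh)
  refine mul_left_cancel₀ (mul_ne_zero (pow_ne_zero 2 hb) (pow_ne_zero 2 hn)) ?_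
  linear_combination -q1

end Pool.Agent.GSX
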