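import Mathlib

/-!
# The count of the nodes

Write `m v = min 3 (a v)`, `m' x = min 3 (a' x)`, `L` = the `v` with `1 ≤ a v`, `E` = the `x` with
`1 ≤ a' x` which are in no `J v`, `v ∈ L`. From `h8` and `hc`,
`∑_(v ∈ L) m v = ∑_v m v = 4 |V| - ∑ (4 - m v) = 4 |V'| - ∑ td x = ∑_x (4 - td x)`
`≥ ∑_(v ∈ L) ∑_(x ∈ J v) m' x + |E|` (by `h2`, `h3`, `h6`, `h7`), and each inner sum is at least `m v`
(`h4`, `h5`; `J v` is not empty by `h1`). So `E` is empty and `∑_(x ∈ J v) m' x = m v` for all `v ∈ L`; by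
`h4` then `|J v| < 2`. (Work with `4 - td x` in `ℤ`, or add: `∑_x (td x + …)`.)
-/

set_option autoImplicit false

open Finset

namespace Pool.Agent.GSX

theorem comb {V V' : Type} [Fintype V] [Fintype V'] [DecidableEq V] [DecidableEq V']
    (hc : Fintype.card V = Fintype.card V') (a : V → ℕ) (a' td : V' → ℕ) (J : V → Finset V')
    (h1 : ∀ v, 1 ≤ a v → (J v).Nonempty)
    (h2 : ∀ v w, 1 ≤ a v → 1 ≤ a w → v ≠ w → Disjoint (J v) (J w))
    (h3 : ∀ v, 1 ≤ a v → ∀ x ∈ J v, 1 ≤ a' x ∧ td x = 4 - min 3 (a' x))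
    (h4 : ∀ v, 1 ≤ a v → 2 ≤ (J v).card → min 3 (a v) < ∑ x ∈ J v, min 3 (a' x))
    (h5 : ∀ v, 1 ≤ a v → ∀ x, J v = {x} → min 3 (a v) = min 3 (a' x))
    (h6 : ∀ x, 1 ≤ a' x → td x ≤ 3) (h7 : ∀ x, a' x = 0 → td x = 4)
    (h8 : ∑ v, (4 - min 3 (a v)) = ∑ x, td x) :
    (∀ v, 1 ≤ a v → ∃ x, J v = {x}) ∧ ∀ x, 1 ≤ a' x → ∃ v, 1 ≤ a v ∧ x ∈ J v := by
  classical
  set L : Finset V := Finset.univ.filter fun v => 1 ≤ a v with hL
  have hmL : ∀ v, v ∈ L ↔ 1 ≤ a v := fun v => by simp [hL]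
  set U : Finset V' := L.biUnion J with hU
  set E : Finset V' := Finset.univ.filter fun x => 1 ≤ a' x ∧ x ∉ U with hE
  have hmE : ∀ x, x ∈ E ↔ 1 ≤ a' x ∧ x ∉ U := fun x => by simp [hE]
  -- the total
  have htot : ∑ v, min 3 (a v) = ∑ x, (4 - td x) := by
    have e1 : ∑ v, min 3 (a v) + ∑ v, (4 - min 3 (a v)) = 4 * Fintype.card V := by
      rw [← Finset.sum_add_distrib, Finset.sum_congr rfl (g := fun _ => 4) fun v _ => by omega]
      simp [mul_comm]
    have e2 : ∑ x, (4 - td x) + ∑ x, td x = 4 * Fintype.card V' := by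
      rw [← Finset.sum_add_distrib, Finset.sum_congr rfl (g := fun _ => 4) fun x _ => ?_]
      · simp [mul_comm]
      · rcases Nat.eq_zero_or_pos (a' x) with h | h
        · have := h7 x h
          omega
        · have := h6 x h
          omega
    rw [h8, hc] at e1
    omega
  have hLs : ∑ v, min 3 (a v) = ∑ v ∈ L, min 3 (a v) := by
    symm
    refine Finset.sum_subset (Finset.subset_univ _) fun v _ hv => ?_
    rw [hmL] at hv
    have : a v = 0 := by omega
    rw [this]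
    rfl
  -- the lower bound
  have hlow : ∑ v ∈ L, ∑ x ∈ J v, min 3 (a' x) + E.card ≤ ∑ x, (4 - td x) := by
    have hd : (L : Set V).PairwiseDisjoint J := by
      intro v hv w hw hvw
      exact h2 v w ((hmL v).1 hv) ((hmL w).1 hw) hvw
    have hUE : Disjoint U E := by
      rw [Finset.disjoint_left]
      intro x hx hx'
      exact ((hmE x).1 hx').2 hx
    calc ∑ v ∈ L, ∑ x ∈ J v, min 3 (a' x) + E.card
        = ∑ x ∈ U, min 3 (a' x) + ∑ x ∈ E, 1 := by
          rw [hU, Finset.sum_biUnion hd, Finset.card_eq_sum_ones]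
      _ ≤ ∑ x ∈ U, (4 - td x) + ∑ x ∈ E, (4 - td x) := by
          refine add_le_add (Finset.sum_le_sum fun x hx => ?_) (Finset.sum_le_sum fun x hx => ?_)
          · obtain ⟨v, hv, hxv⟩ := Finset.mem_biUnion.1 hx
            have := (h3 v ((hmL v).1 hv) x hxv).2
            omega
          · have := h6 x ((hmE x).1 hx).1
            omega
      _ = ∑ x ∈ U ∪ E, (4 - td x) := (Finset.sum_union hUE).symm
      _ ≤ ∑ x, (4 - td x) := Finset.sum_le_sum_of_subset (Finset.subset_univ _)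
  have hge : ∀ v ∈ L, min 3 (a v) ≤ ∑ x ∈ J v, min 3 (a' x) := by
    intro v hv
    have hv' := (hmL v).1 hv
    rcases Nat.lt_or_ge (J v).card 2 with h | h
    · have h0 : (J v).card = 1 := by
        have := Finset.card_pos.2 (h1 v hv')
        omega
      obtain ⟨x, hx⟩ := Finset.card_eq_one.1 h0
      rw [hx, Finset.sum_singleton, h5 v hv' x hx]
    · exact (h4 v hv' h).le
  have hsum : ∑ v ∈ L, min 3 (a v) ≤ ∑ v ∈ L, ∑ x ∈ J v, min 3 (a' x) := Finset.sum_le_sum hge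
  constructor
  · intro v hv
    have hcard : (J v).card < 2 := by
      by_contra h
      have h' : 2 ≤ (J v).card := by omega
      have hlt : ∑ v ∈ L, min 3 (a v) < ∑ v ∈ L, ∑ x ∈ J v, min 3 (a' x) := Finset.sum_lt_sum hge ⟨v, (hmL v).2 hv, h4 v hv h'⟩
      omega
    have := Finset.card_pos.2 (h1 v hv)
    exact Finset.card_eq_one.1 (by omega)
  · intro x hx
    by_contra hcon
    have hxE : x ∈ E := by
      rw [hmE]
      refine ⟨hx, fun hxU => hcon ?_⟩
      obtain ⟨v, hv, hxv⟩ := Finset.mem_biUnion.1 hxU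
      exact ⟨v, (hmL v).1 hv, hxv⟩
    have : 0 < E.card := Finset.card_pos.2 ⟨x, hxE⟩
    omega

end Pool.Agent.GSX
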