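import Pool.Agent.GSX.B6
import Pool.Agent.GSX.C4
import Pool.Agent.GSX.C5
import Pool.Agent.GSX.C8
import Pool.Agent.GSX.D1
import Pool.Agent.GSX.D3
import Pool.Agent.GSG.T2
import Pool.Agent.GSH.N1

/-!
# The second family has private primes, too
-/

set_option autoImplicit false

open Finset

namespace Pool.Agent.GSX

open Pool.Agent.GSP Pool.Agent.GSG

theorem rr_min (S : Finset ℕ) : GSN.rr S 0 = 4 - min 3 S.card := by
  unfold GSN.rr
  omega

private theorem D4_five {n A l : ℕ} (hn : 1 ≤ n) (hb : bd n A < l) : 5 ≤ l := by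
  have h1 := bd_le (A := A) (a := 0) hn (Nat.zero_le _)
  have h2 : 4 ^ (0 + 3) = 64 := by norm_num
  omega

private theorem D4_pow {n A a l : ℕ} (hn : 1 ≤ n) (ha : a ≤ A) (hb : bd n A < l) :
    4 ^ (a + 3) ≤ l := (bd_le hn ha).trans hb.le

private theorem D4_td {ι : Type} [Fintype ι] (f : ι → Polynomial ℝ) (hf : ∀ x, f x ≠ 0) :
    (∏ x, f x).natTrailingDegree = ∑ x, (f x).natTrailingDegree := by
  classical
  have : ∀ s : Finset ι, (∏ x ∈ s, f x).natTrailingDegree = ∑ x ∈ s, (f x).natTrailingDegree := by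
    intro s
    induction s using Finset.induction_on with
    | empty => simp
    | insert a s ha ih =>
      rw [prod_insert ha, sum_insert ha, Polynomial.natTrailingDegree_mul (hf a)
        (prod_ne_zero_iff.2 fun x _ => hf x), ih]
  exact this univ

theorem matchX {V V' : Type} [Fintype V] [Fintype V'] [DecidableEq V] [DecidableEq V']
    {D : Dat V} {D' : Dat V'} {N n A : ℕ} (hN : 0 < N) (hn : Nice D N) (hn' : Nice D' N)
    (hD : ∀ v, LeafG (D.S v) (D.k v)) (hD' : ∀ v, LeafG (D'.S v) (D'.k v))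
    (hA : ∀ v, (D.S v).card ≤ A) (hA' : ∀ v, (D'.S v).card ≤ A)
    (hV : Fintype.card V = n) (hV' : Fintype.card V' = n)
    (hpr : ∀ v, (D.S v).Nonempty → ∃ l : ℕ, l.Prime ∧ bd n A < l ∧ 1 ≤ xp l (D.S v) ∧
      ∀ x, x ≠ v → xp l (D.S x) < xp l (D.S v))
    {a b : ℝ} (ha : a ≠ 0) (hb : b ≠ 0) (hm : ∀ s : ℤ, IsCoprime s (N : ℤ) →
      Polynomial.C a * (∏ v, YY (D.S v) (D.k v) 0 s) ^ 2 =
        Polynomial.C b * (∏ v, YY (D'.S v) (D'.k v) 0 s) ^ 2) :
    ∀ x, (D'.S x).Nonempty → ∃ l : ℕ, l.Prime ∧ bd n A < l ∧ 1 ≤ xp l (D'.S x) ∧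
      ∀ y, y ≠ x → xp l (D'.S y) < xp l (D'.S x) := by
  classical
  rcases isEmpty_or_nonempty V' with hE | hE
  · intro x
    exact hE.elim x
  have hn1 : 1 ≤ n := by
    rw [← hV']
    exact Fintype.card_pos
  have h4 := hn.four
  have hne : ∀ v s, IsCoprime s (N : ℤ) → YY (D.S v) (D.k v) 0 s ≠ 0 := fun v s hs =>
    YYG_ne (hD v) 0 (uG_of h4 (hn.dvd v) hs)
  have hne' : ∀ v s, IsCoprime s (N : ℤ) → YY (D'.S v) (D'.k v) 0 s ≠ 0 := fun v s hs =>
    YYG_ne (hD' v) 0 (uG_of h4 (hn'.dvd v) hs)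
  have h1 : IsCoprime (1 : ℤ) (N : ℤ) := isCoprime_one_left
  have hCa : Polynomial.C a ≠ 0 := Polynomial.C_ne_zero.2 ha
  have hCb : Polynomial.C b ≠ 0 := Polynomial.C_ne_zero.2 hb
  choose! L hLp hLb hL1 hLlt using hpr
  set I : V → ℕ := fun v => xp (L v) (D.S v) with hI
  set J : V → Finset V' := fun v => univ.filter fun x => xp (L v) (D'.S x) = I v with hJ
  have hfix : ∀ v, (D.S v).Nonempty → ∀ u, u ≠ v → ∀ t s : ℤ,
      YY (D.S u) (D.k u) 0 (tz N (L v) (I v) t * s) = YY (D.S u) (D.k u) 0 s := fun v hv u hu t s =>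
    YY_fix hN (hD u).pos (hn.dvd u) (hLp v hv) (D4_five hn1 (hLb v hv)) (hLlt v hv u hu) _ 0 t s
  -- no larger exponents
  have hle : ∀ v, (D.S v).Nonempty → ∀ x, xp (L v) (D'.S x) ≤ I v := by
    intro v hv x
    by_contra hx
    rw [not_le] at hx
    obtain ⟨w, -, hw⟩ := exists_max_image univ (fun x => xp (L v) (D'.S x)) ⟨x, mem_univ x⟩
    have hxw : xp (L v) (D'.S x) ≤ xp (L v) (D'.S w) := hw x (mem_univ x)
    set j := xp (L v) (D'.S w) with hj
    have hpos := hL1 v hv
    have h5 := D4_five hn1 (hLb v hv)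
    have hlt : ∀ u, xp (L v) (D.S u) < j := by
      intro u
      rcases eq_or_ne u v with rfl | hu
      · exact lt_of_lt_of_le hx hxw
      · exact (hLlt v hv u hu).trans (lt_of_lt_of_le hx hxw)
    refine no_const (K := univ.filter fun y => xp (L v) (D'.S y) = j) (S := D'.S) (k := D'.k)
      (n := n) (A := A) (l := L v) (i := j) hN h4 ⟨w, mem_filter.2 ⟨mem_univ w, rfl⟩⟩
      ((card_le_univ _).trans hV'.le) (fun x _ => hD' x) (fun x _ => hn'.dvd x)
      (fun x _ => hA' x) (hLp v hv) (hLb v hv) (by omega) (fun x hx => (mem_filter.1 hx).2) ?_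
    intro t ht
    refine set_none (f := fun v s => YY (D.S v) (D.k v) 0 s)
      (f' := fun v s => YY (D'.S v) (D'.k v) 0 s) (U := fun s => IsCoprime s (N : ℤ)) hCb h1 hne'
      hm ht _ (fun u => ?_) fun x hx => ?_
    · have := YY_fix hN (hD u).pos (hn.dvd u) (hLp v hv) h5 (hlt u) (D.k u) 0 t 1
      rwa [mul_one] at this
    · have hxj : xp (L v) (D'.S x) < j := by
        refine lt_of_le_of_ne (hw x (mem_univ x)) fun h => hx ?_
        exact mem_filter.2 ⟨mem_univ x, h⟩
      have := YY_fix hN (hD' x).pos (hn'.dvd x) (hLp v hv) h5 hxj (D'.k x) 0 t 1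
      rwa [mul_one] at this
  have hfix' : ∀ v, (D.S v).Nonempty → ∀ x, x ∉ J v → ∀ t s : ℤ,
      YY (D'.S x) (D'.k x) 0 (tz N (L v) (I v) t * s) = YY (D'.S x) (D'.k x) 0 s := by
    intro v hv x hx t s
    refine YY_fix hN (hD' x).pos (hn'.dvd x) (hLp v hv) (D4_five hn1 (hLb v hv)) ?_ _ 0 t s
    exact lt_of_le_of_ne (hle v hv x) fun h => hx (mem_filter.2 ⟨mem_univ x, h⟩)
  -- the sets are not empty
  have hJne : ∀ v, (D.S v).Nonempty → (J v).Nonempty := by
    intro v hv
    by_contra hJv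
    rw [not_nonempty_iff_eq_empty] at hJv
    refine GSH.ns_oneH hN h4 (hD v) (hn.dvd v) (hLp v hv) (D4_pow hn1 (hA v) (hLb v hv))
      (hL1 v hv) fun t ht => ?_
    have := set_one (f := fun v s => YY (D.S v) (D.k v) 0 s)
      (f' := fun v s => YY (D'.S v) (D'.k v) 0 s) (U := fun s => IsCoprime s (N : ℤ)) hCa hCb h1
      hne hne' hm ht v (J v) (fun u hu => by
        have := hfix v hv u hu t 1
        rwa [mul_one] at this) (fun x hx => by
        have := hfix' v hv x hx t 1
        rwa [mul_one] at this)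
    rw [hJv, prod_empty, prod_empty, mul_one, mul_one] at this
    exact this
  have hone : ∀ v, (D.S v).Nonempty → ∀ t : ℤ, IsCoprime (tz N (L v) (I v) t) (N : ℤ) →
      (YY (D.S v) (D.k v) 0 (tz N (L v) (I v) t) * ∏ x ∈ J v, YY (D'.S x) (D'.k x) 0 1) ^ 2 =
        (YY (D.S v) (D.k v) 0 1 * ∏ x ∈ J v, YY (D'.S x) (D'.k x) 0 (tz N (L v) (I v) t)) ^ 2 := by
    intro v hv t ht
    exact set_one (f := fun v s => YY (D.S v) (D.k v) 0 s)
      (f' := fun v s => YY (D'.S v) (D'.k v) 0 s) (U := fun s => IsCoprime s (N : ℤ)) hCa hCb h1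
      hne hne' hm ht v (J v) (fun u hu => by
        have := hfix v hv u hu t 1
        rwa [mul_one] at this) (fun x hx => by
        have := hfix' v hv x hx t 1
        rwa [mul_one] at this)
  -- the sets are disjoint
  have hdis : ∀ v w, (D.S v).Nonempty → (D.S w).Nonempty → v ≠ w → Disjoint (J v) (J w) := by
    intro v w hv hw hvw
    rw [disjoint_iff_inter_eq_empty, ← not_nonempty_iff_eq_empty]
    intro hK
    have hll : L v ≠ L w := by
      intro h
      have e1 := hLlt v hv w (Ne.symm hvw)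
      have e2 := hLlt w hw v hvw
      rw [← h] at e2
      omega
    refine no_common (K := J v ∩ J w) (S := D'.S) (k := D'.k) (n := n) (A := A) (l := L v)
      (l' := L w) (i := I v) (i' := I w) hN h4 hK ((card_le_univ _).trans hV'.le)
      (fun x _ => hD' x) (fun x _ => hn'.dvd x) (fun x _ => hA' x) hll (hLp v hv) (hLb v hv)
      (hLp w hw) (hLb w hw) (hL1 v hv) (hL1 w hw)
      (fun x hx => (mem_filter.1 (mem_inter.1 hx).1).2)
      (fun x hx => (mem_filter.1 (mem_inter.1 hx).2).2) fun t t' ht ht' => ?_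
    refine set_four (f := fun v s => YY (D.S v) (D.k v) 0 s)
      (f' := fun v s => YY (D'.S v) (D'.k v) 0 s) (U := fun s => IsCoprime s (N : ℤ)) hCb h1
      (fun s t hs ht => hs.mul_left ht) hne' hm ht ht' (J v ∩ J w) (fun u => ?_) fun x hx => ?_
    · rcases eq_or_ne u v with rfl | hu
      · have e1 := hfix w hw u hvw t' (tz N (L u) (I u) t)
        have e2 := hfix w hw u hvw t' 1
        rw [mul_one] at e2
        rw [mul_comm] at e1
        simp only [e1, e2]
      · have e1 := hfix v hv u hu t (tz N (L w) (I w) t')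
        have e2 := hfix v hv u hu t 1
        rw [mul_one] at e2
        simp only [e1, e2]
        exact mul_comm _ _
    · rw [mem_inter, not_and_or] at hx
      rcases hx with hx | hx
      · have e1 := hfix' v hv x hx t (tz N (L w) (I w) t')
        have e2 := hfix' v hv x hx t 1
        rw [mul_one] at e2
        simp only [e1, e2]
        exact mul_comm _ _
      · have e1 := hfix' w hw x hx t' (tz N (L v) (I v) t)
        have e2 := hfix' w hw x hx t' 1
        rw [mul_one] at e2
        rw [mul_comm] at e1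
        simp only [e1, e2]
  have hne_of : ∀ v, 1 ≤ (D.S v).card → (D.S v).Nonempty := fun v h => card_pos.1 h
  have hmemJ : ∀ v, (D.S v).Nonempty → ∀ x ∈ J v, xp (L v) (D'.S x) = I v := fun v _ x hx =>
    (mem_filter.1 hx).2
  have hJleaf : ∀ v, (D.S v).Nonempty → ∀ x ∈ J v, (D'.S x).Nonempty := by
    intro v hv x hx
    rw [nonempty_iff_ne_empty]
    intro h0
    have e1 := hmemJ v hv x hx
    have e2 := hL1 v hv
    rw [h0] at e1
    simp only [hI] at e1
    rw [← e1] at e2
    simp [xp] at e2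
  have hU1 : ∀ S : Finset ℕ, UG S 1 := fun S => ⟨odd_one, fun p _ => isCoprime_one_left⟩
  obtain ⟨c1, c2⟩ := comb (V := V) (V' := V') (hV.trans hV'.symm) (fun v => (D.S v).card)
    (fun x => (D'.S x).card) (fun x => (YY (D'.S x) (D'.k x) 0 1).natTrailingDegree) J
    (fun v hv => hJne v (hne_of v hv))
    (fun v w hv hw hvw => hdis v w (hne_of v hv) (hne_of w hw) hvw)
    (fun v hv x hx => by
      have hv' := hne_of v hv
      have e1 := hmemJ v hv' x hx
      refine ⟨card_pos.2 (hJleaf v hv' x hx), ?_⟩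
      rw [← rr_min]
      exact trail_rr (hD' x) (hLp v hv') (D4_pow hn1 (hA' x) (hLb v hv'))
        (by rw [e1]; exact hL1 v hv') (hU1 _))
    (fun v hv hc => by
      have hv' := hne_of v hv
      by_contra hlt
      rw [not_lt] at hlt
      exact no_split hN h4 hc ((card_le_univ _).trans hV'.le) (fun x _ => hD' x)
        (fun x _ => hn'.dvd x) (fun x _ => hA' x) (hD v) (hn.dvd v) (hA v) (hLp v hv')
        (hLb v hv') (hL1 v hv') (hmemJ v hv') rfl hlt (hone v hv'))
    (fun v hv x hx => by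
      have hv' := hne_of v hv
      have e1 := hmemJ v hv' x (by rw [hx]; exact mem_singleton_self x)
      have e2 := same_rr hN h4 (hD v) (hD' x) (hn.dvd v) (hn'.dvd x) (hLp v hv')
        (D4_pow hn1 (hA v) (hLb v hv')) (D4_pow hn1 (hA' x) (hLb v hv')) (hL1 v hv') e1
        (fun t ht => by
          have := hone v hv' t ht
          rw [hx, prod_singleton, prod_singleton] at this
          rw [this, mul_comm])
      rw [rr_min, rr_min] at e2
      omega)
    (fun x hx => trail_le (hD' x) (card_pos.1 hx) (hU1 _))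
    (fun x hx => by
      have e1 : D'.S x = ∅ := card_eq_zero.1 hx
      have e2 := (hD' x).one_le
      show (YY (D'.S x) (D'.k x) 0 1).natTrailingDegree = 4
      rw [e1]
      exact trail_empty e2 1)
    (by
      have e0 := congrArg Polynomial.natTrailingDegree (hm 1 h1)
      have p1 : ∏ v, YY (D.S v) (D.k v) 0 1 ≠ 0 := prod_ne_zero_iff.2 fun v _ => hne v 1 h1
      have p2 : ∏ v, YY (D'.S v) (D'.k v) 0 1 ≠ 0 := prod_ne_zero_iff.2 fun v _ => hne' v 1 h1
      rw [Polynomial.natTrailingDegree_mul hCa (pow_ne_zero 2 p1),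
        Polynomial.natTrailingDegree_mul hCb (pow_ne_zero 2 p2), Polynomial.natTrailingDegree_C,
        Polynomial.natTrailingDegree_C, sq, sq, Polynomial.natTrailingDegree_mul p1 p1,
        Polynomial.natTrailingDegree_mul p2 p2, D4_td _ fun v => hne v 1 h1,
        D4_td _ fun v => hne' v 1 h1] at e0
      have e3 : ∑ v, (4 - min 3 (D.S v).card) =
          ∑ v, (YY (D.S v) (D.k v) 0 1).natTrailingDegree := by
        refine sum_congr rfl fun v _ => ?_
        by_cases hv : (D.S v).Nonempty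
        · rw [← rr_min]
          exact (trail_rr (hD v) (hLp v hv) (D4_pow hn1 (hA v) (hLb v hv)) (hL1 v hv)
            (hU1 _)).symm
        · rw [not_nonempty_iff_eq_empty] at hv
          have e2 := (hD v).one_le
          rw [hv, trail_empty e2 1]
          simp
      rw [e3]
      omega)
  intro x hx
  obtain ⟨v, hv, hxv⟩ := c2 x (card_pos.2 hx)
  have hv' := hne_of v hv
  obtain ⟨y, hy⟩ := c1 v hv
  have hxy : x = y := by
    rw [hy] at hxv
    exact mem_singleton.1 hxv
  subst hxy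
  have e1 := hmemJ v hv' x hxv
  refine ⟨L v, hLp v hv', hLb v hv', by rw [e1]; exact hL1 v hv', fun z hz => ?_⟩
  rw [e1]
  refine lt_of_le_of_ne (hle v hv' z) fun h => hz ?_
  have : z ∈ J v := mem_filter.2 ⟨mem_univ z, h⟩
  rw [hy] at this
  exact mem_singleton.1 this

end Pool.Agent.GSX
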