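import Pool.Agent.GSX.D2
import Pool.Agent.GSX.D4
import Pool.Agent.GPC.Z1

/-!
# The diagrams with the same series as a generic diagram are generic
-/

set_option autoImplicit false

open Finset

namespace Pool.Agent.GSX

open Pool.Agent.OHG Pool.Agent.GPC Pool.Agent.GSP Pool.Agent.GSG Pool.Agent.GSH

/-- The families with large private primes: every node has at most `A` leaves, and every node with
leaves has a leaf divisible by a power `l ^ m` of a prime `l` which is larger than
`bd n A = ((n + 1) * 2 ^ (A + 4)) ^ (n + 1)`, where `n` is the number of all nodes, such that `l ^ m`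
divides no leaf of another node of the family. -/
structure GenX {ι : Type} [Fintype ι] (A : ℕ) (P : ι → Prime) : Prop where
  card_le : ∀ i v, ((P i).D.leaf v).card ≤ A
  priv : ∀ i v, ((P i).D.leaf v).Nonempty → ∃ l m : ℕ, l.Prime ∧
    bd (∑ i, ((P i).n + 1)) A < l ∧ 1 ≤ m ∧ (∃ p ∈ (P i).D.leaf v, l ^ m ∣ p) ∧
    ∀ j x, (⟨j, x⟩ : Σ j, Fin ((P j).n + 1)) ≠ ⟨i, v⟩ → ∀ p ∈ (P j).D.leaf x, ¬ l ^ m ∣ p

private theorem core_le {ι : Type} [Fintype ι] (P : ι → Prime) (i : ι) :
    1 ≤ ∑ i, ((P i).n + 1) :=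
  le_trans (Nat.succ_le_succ (Nat.zero_le (P i).n))
    (single_le_sum (f := fun i => (P i).n + 1) (fun _ _ => Nat.zero_le _) (mem_univ i))

theorem GenX.genH {ι : Type} [Fintype ι] {A : ℕ} {P : ι → Prime} (h : GenX A P) : GenH P where
  priv := fun i v hv => by
    obtain ⟨l, m, h1, h2, h3, h4, h5⟩ := h.priv i v hv
    exact ⟨l, m, h1, (bd_le (core_le P i) (h.card_le i v)).trans h2.le, h3, h4, h5⟩

private theorem core_card {ι : Type} [Fintype ι] (P : ι → Prime) :
    Fintype.card (Σ i, Fin ((P i).n + 1)) = ∑ i, ((P i).n + 1) := by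
  rw [Fintype.card_sigma]
  simp

/-- If `P` has large private primes and `P'` is any family with the same series, then the private
primes of `P` are private primes of `P'`. -/
theorem genH_of {ι ι' : Type} [Fintype ι] [Fintype ι'] {κ κ' : ℝ} {A : ℕ} {P : ι → Prime}
    {P' : ι' → Prime} (hP : GenX A P) (hP' : ∀ j v, ((P' j).D.leaf v).card ≤ A)
    (h : series κ (univ.val.map P) = series κ' (univ.val.map P')) : GenH P' := by
  classical
  obtain ⟨-, h2, -, h3, h4⟩ := pieces' κ κ' _ _ h
  have hB := genH_not_bad hP.genH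
  -- no part of `P'` is the Poincaré sphere
  have hB' : ∀ j, ¬ Bad (P' j) := by
    intro j hj
    have z1 : ∀ c : ℤ, (univ.val.map P).countP (fun P => Bad P ∧ P.D.sgn 0 = c) = 0 := by
      intro c
      rw [Multiset.countP_eq_zero]
      intro Q hQ hQ'
      obtain ⟨i, -, rfl⟩ := Multiset.mem_map.1 hQ
      exact hB i hQ'.1
    have hmem : P' j ∈ univ.val.map P' := Multiset.mem_map.2 ⟨j, mem_univ j, rfl⟩
    rcases (P' j).isGraph.sign 0 with hs | hs
    · rw [z1 1] at h3
      exact Multiset.countP_eq_zero.1 h3.symm _ hmem ⟨hj, hs⟩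
    · rw [z1 (-1)] at h4
      exact Multiset.countP_eq_zero.1 h4.symm _ hmem ⟨hj, hs⟩
  obtain ⟨N, hN, hn, hn', a, b, ha, hb, hm⟩ := mass hB hB' h
  have hsum : ∑ i, ((P i).n + 1) = ∑ j, ((P' j).n + 1) := by
    rw [Multiset.map_map, Multiset.map_map] at h2
    exact h2
  have key := matchX (D := famOf P) (D' := famOf P') (n := ∑ i, ((P i).n + 1)) (A := A) hN hn hn'
    (fam_leaf hB) (fam_leaf hB') (fun v => hP.card_le v.1 v.2) (fun v => hP' v.1 v.2)
    (core_card P) ((core_card P').trans hsum.symm) (fun v hv => by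
      obtain ⟨i, v⟩ := v
      obtain ⟨l, m, hl, hbl, hm1, ⟨p, hp, hlp⟩, ho⟩ := hP.priv i v hv
      have : Fact l.Prime := ⟨hl⟩
      have hp0 : p ≠ 0 := by
        have := (P i).isGraph.two_le v p hp
        omega
      have h1 : m ≤ xp l ((P i).D.leaf v) := by
        refine le_trans ?_ (Finset.le_sup (f := padicValNat l) hp)
        exact (padicValNat_dvd_iff_le hp0).1 hlp
      refine ⟨l, hl, hbl, le_trans hm1 h1, ?_⟩
      rintro ⟨j, x⟩ hx
      refine lt_of_lt_of_le ?_ h1
      show ((P j).D.leaf x).sup (padicValNat l) < m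
      rw [Finset.sup_lt_iff (by rw [Nat.bot_eq_zero]; omega)]
      intro q hq
      have hq0 : q ≠ 0 := by
        have := (P j).isGraph.two_le x q hq
        omega
      by_contra hc
      exact ho j x hx q hq ((padicValNat_dvd_iff_le hq0).2 (not_lt.1 hc))) ha hb hm
  refine ⟨fun j x hx => ?_⟩
  obtain ⟨l, hl, hbl, h5, h6⟩ := key ⟨j, x⟩ hx
  have : Fact l.Prime := ⟨hl⟩
  have hne : ((P' j).D.leaf x).Nonempty := hx
  obtain ⟨p, hp, hpx⟩ := Finset.exists_mem_eq_sup ((P' j).D.leaf x) hne (padicValNat l)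
  have hpx' : xp l ((P' j).D.leaf x) = padicValNat l p := hpx
  have hx1 : 1 ≤ ∑ i, ((P i).n + 1) := by
    rw [hsum]
    exact core_le P' j
  refine ⟨l, xp l ((P' j).D.leaf x), hl, (bd_le hx1 (hP' j x)).trans hbl.le, h5,
    ⟨p, hp, ?_⟩, fun j' x' hne' q hq hlq => ?_⟩
  · have hp0 : p ≠ 0 := by
      have := (P' j).isGraph.two_le x p hp
      omega
    rw [hpx']
    exact (padicValNat_dvd_iff_le hp0).2 le_rfl
  · have h7 := h6 ⟨j', x'⟩ hne'
    have hq0 : q ≠ 0 := by
      have := (P' j').isGraph.two_le x' q hq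
      omega
    have h8 : xp l ((P' j).D.leaf x) ≤ padicValNat l q := (padicValNat_dvd_iff_le hq0).1 hlq
    have h9 : padicValNat l q ≤ xp l ((P' j').D.leaf x') := Finset.le_sup (f := padicValNat l) hq
    have h10 : xp l ((P' j').D.leaf x') < xp l ((P' j).D.leaf x) := h7
    omega

/-- the separation of a family with large private primes from all families with few leaves -/
theorem separationX {ι ι' : Type} [Fintype ι] [Fintype ι'] {κ κ' : ℝ} {A : ℕ} {P : ι → Prime}
    {P' : ι' → Prime} (hP : GenX A P) (hP' : ∀ j v, ((P' j).D.leaf v).card ≤ A)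
    (h : series κ (univ.val.map P) = series κ' (univ.val.map P')) :
    κ = κ' ∧ ∃ e : ι ≃ ι', ∀ i, Iso (P i) (P' (e i)) :=
  separationH hP.genH (genH_of hP hP' h) h

end Pool.Agent.GSX
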