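import Pool.Agent.GSX.Rat

/-!
# Numerators and denominators

`dd r J w = ∏_(j ∈ J) (1 - w_j X) ^ r` (its constant coefficient is `1`) and
`nn r J w β = ∑_j β_j nu_r(w_j X) ∏_(i ≠ j) (1 - w_i X) ^ r`, so that `GG = nn / dd` outside the poles.
All proofs are short: `Polynomial.eval_prod`, `natDegree_prod`, `Finset.mul_prod_erase`.
-/

set_option autoImplicit false

open Finset Polynomial

namespace Pool.Agent.GSX

variable {ι : Type}

theorem dd_eval (r : ℕ) (J : Finset ι) (w : ι → ℂ) (z : ℂ) :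
    (dd r J w).eval z = ∏ j ∈ J, (1 - w j * z) ^ r := by
  simp [dd, Polynomial.eval_prod]

theorem dd_eval_zero (r : ℕ) (J : Finset ι) (w : ι → ℂ) : (dd r J w).eval 0 = 1 := by
  rw [dd_eval]
  simp

theorem dd_ne (r : ℕ) (J : Finset ι) (w : ι → ℂ) : dd r J w ≠ 0 := by
  intro h
  have h1 := dd_eval_zero r J w
  rw [h] at h1
  simp at h1

private theorem A1_lin {a : ℂ} (ha : a ≠ 0) : (1 - C a * X : ℂ[X]).natDegree = 1 := by
  have h : (1 - C a * X : ℂ[X]) = C (-a) * X + C 1 := by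
    rw [C_neg, C_1]
    ring
  rw [h]
  exact natDegree_linear (neg_ne_zero.2 ha)

theorem dd_natDegree {r : ℕ} {J : Finset ι} {w : ι → ℂ} (hw : ∀ j ∈ J, w j ≠ 0) :
    (dd r J w).natDegree = r * J.card := by
  rw [dd, natDegree_prod]
  · have h : ∀ j ∈ J, ((1 - C (w j) * X : ℂ[X]) ^ r).natDegree = r := by
      intro j hj
      rw [natDegree_pow, A1_lin (hw j hj), mul_one]
    rw [Finset.sum_congr rfl h, Finset.sum_const, smul_eq_mul, mul_comm]
  · intro j hj
    apply pow_ne_zero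
    intro h
    have h1 := A1_lin (hw j hj)
    rw [h] at h1
    simp at h1

/-- the roots of the denominator -/
theorem dd_root {r : ℕ} (hr : 1 ≤ r) {J : Finset ι} {w : ι → ℂ} {z : ℂ} :
    (dd r J w).eval z = 0 ↔ ∃ j ∈ J, w j * z = 1 := by
  rw [dd_eval, Finset.prod_eq_zero_iff]
  constructor
  · rintro ⟨j, hj, h⟩
    refine ⟨j, hj, ?_⟩
    have h1 := (pow_eq_zero_iff (by omega)).1 h
    exact (sub_eq_zero.1 h1).symm
  · rintro ⟨j, hj, h⟩
    refine ⟨j, hj, ?_⟩
    rw [h, sub_self]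
    exact zero_pow (by omega)

/-- the function is the quotient -/
theorem nn_eval [DecidableEq ι] {r : ℕ} {J : Finset ι} {w β : ι → ℂ} {z : ℂ}
    (h : ∀ j ∈ J, w j * z ≠ 1) : GG r J w β z * (dd r J w).eval z = (nn r J w β).eval z := by
  rw [GG, nn, Polynomial.eval_finsetSum, Finset.sum_mul]
  refine Finset.sum_congr rfl fun j hj => ?_
  rw [eval_mul, eval_mul, eval_C, eval_comp, eval_mul, eval_C, eval_X, dd_eval, dd_eval,
    ← Finset.mul_prod_erase J (fun j => (1 - w j * z) ^ r) hj, ps]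
  have h1 : (1 - w j * z) ^ r ≠ 0 := pow_ne_zero _ (sub_ne_zero.2 (h j hj).symm)
  field_simp

/-- the numbers of the points with `w_j z ^ n = 1` -/
theorem card_root {J : Finset ι} {w : ι → ℂ} (hw : ∀ j ∈ J, w j ≠ 0) {n : ℕ} (hn : 1 ≤ n)
    {Z : Finset ℂ} (hZ : ∀ z ∈ Z, ∃ j ∈ J, w j * z ^ n = 1) : Z.card ≤ n * J.card := by
  -- the points of `Z` are roots of `(dd 1 J w).comp (X ^ n)`, of degree `n * J.card`
  have h0 : (dd 1 J w).comp (X ^ n) ≠ 0 := by
    intro h
    have h1 := congrArg (Polynomial.eval 0) h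
    rw [eval_comp, eval_pow, eval_X, zero_pow (by omega), dd_eval_zero, eval_zero] at h1
    exact one_ne_zero h1
  have h2 : Z.val ⊆ ((dd 1 J w).comp (X ^ n)).roots := by
    intro z hz
    rw [mem_roots h0, IsRoot.def, eval_comp, eval_pow, eval_X, dd_root le_rfl]
    exact hZ z hz
  have h3 := Polynomial.card_le_degree_of_subset_roots h2
  rw [natDegree_comp, dd_natDegree hw, natDegree_X_pow, one_mul] at h3
  rw [mul_comm]
  exact h3

end Pool.Agent.GSX
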