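import Pool.Agent.GSX.A1

/-!
# The numerators vanish at `0` and at `∞` and not at the poles

Case distinction `r = 1, 2, 3` (`interval_cases`, `simp [nu]`).

* `nn_zero`: the value at `0` is `∑ β_j nu_r(0)`, and `nu_r(0) = 0` for `r ≥ 2`, `nu_1(0) = 1`.
* `nn_natDegree`: for `r ≥ 2` we have `nu_r.natDegree < r`, so that each summand has degree
  `< r + r (|J| - 1)`. For `r = 1` the coefficient of `X ^ |J|` of the summand of `j` is
  `β_j w_j ∏_(i ≠ j) (-w_i) = -β_j ∏_i (-w_i)`, and the sum of the `β_j` is `0`; the degree is at most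
  `|J|`.
* `nn_pole`: at `(w_j)⁻¹` all other summands vanish, and `nu_r(1) ≠ 0`.
-/

set_option autoImplicit false

open Finset Polynomial

namespace Pool.Agent.GSX

variable {ι : Type} [DecidableEq ι] {r : ℕ} {J : Finset ι} {w β : ι → ℂ}

omit [DecidableEq ι] in
private theorem A2_cases (h : NF r J w β) : r = 1 ∨ r = 2 ∨ r = 3 := by
  have h1 := h.one_le
  have h3 := h.le_three
  omega

theorem nn_zero (h : NF r J w β) : (nn r J w β).eval 0 = 0 := by
  have key : (nn r J w β).eval 0 = (∑ j ∈ J, β j) * (nu r).eval 0 := by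
    rw [nn, Polynomial.eval_finsetSum, Finset.sum_mul]
    refine Finset.sum_congr rfl fun j _ => ?_
    rw [eval_mul, eval_mul, eval_C, eval_comp, eval_mul, eval_C, eval_X, dd_eval_zero, mul_zero,
      mul_one]
  rw [key]
  rcases A2_cases h with hr | hr | hr
  · rw [h.sum hr, zero_mul]
  · subst hr
    simp [nu]
  · subst hr
    simp [nu]

private theorem A2_nu_natDegree (hr : r = 2 ∨ r = 3) : (nu r).natDegree + 1 ≤ r := by
  rcases hr with hr | hr
  · subst hr
    simp [nu]
  · subst hr
    have : (nu 3).natDegree ≤ 2 := by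
      have h : nu 3 = X * (1 + X) := by simp [nu]
      rw [h]
      compute_degree
    omega

private theorem A2_dd_erase {j : ι} (hw : ∀ j ∈ J, w j ≠ 0) (hj : j ∈ J) :
    (dd r (J.erase j) w).natDegree + r = r * J.card := by
  rw [dd_natDegree fun i hi => hw i (Finset.mem_of_mem_erase hi), Finset.card_erase_of_mem hj]
  have h1 : 1 ≤ J.card := Finset.card_pos.2 ⟨j, hj⟩
  obtain ⟨n, hn⟩ : ∃ n, J.card = n + 1 := ⟨J.card - 1, by omega⟩
  rw [hn, Nat.add_sub_cancel]
  ring

private theorem A2_comp_natDegree (p : ℂ[X]) (a : ℂ) :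
    (p.comp (C a * X)).natDegree ≤ p.natDegree := by
  refine natDegree_comp_le.trans ?_
  calc p.natDegree * (C a * X : ℂ[X]).natDegree ≤ p.natDegree * 1 :=
        Nat.mul_le_mul_left _ ((natDegree_C_mul_le _ _).trans natDegree_X_le)
    _ = p.natDegree := mul_one _

private theorem A2_summand {j : ι} (hw : ∀ j ∈ J, w j ≠ 0) (hj : j ∈ J) :
    (C (β j) * (nu r).comp (C (w j) * X) * dd r (J.erase j) w).natDegree + r
      ≤ (nu r).natDegree + r * J.card := by
  have h1 := A2_dd_erase (r := r) hw hj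
  have h2 : (C (β j) * (nu r).comp (C (w j) * X) * dd r (J.erase j) w).natDegree
      ≤ (nu r).natDegree + (dd r (J.erase j) w).natDegree := by
    refine natDegree_mul_le.trans (Nat.add_le_add_right ?_ _)
    exact (natDegree_C_mul_le _ _).trans (A2_comp_natDegree _ _)
  omega

omit [DecidableEq ι] in
/-- the top coefficient of the denominator for `r = 1` -/
private theorem A2_lead (hw : ∀ j ∈ J, w j ≠ 0) :
    (dd 1 J w).coeff J.card = ∏ j ∈ J, (-w j) := by
  have h1 : (dd 1 J w).natDegree = J.card := by rw [dd_natDegree hw, one_mul]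
  rw [← h1, coeff_natDegree, dd, leadingCoeff_prod]
  refine Finset.prod_congr rfl fun j hj => ?_
  rw [pow_one]
  have h : (1 - C (w j) * X : ℂ[X]) = C (-w j) * X + C 1 := by
    rw [C_neg, C_1]
    ring
  rw [h]
  exact leadingCoeff_linear (neg_ne_zero.2 (hw j hj))

private theorem A2_coeff {j : ι} (hw : ∀ j ∈ J, w j ≠ 0) (hj : j ∈ J) :
    (C (β j) * (nu 1).comp (C (w j) * X) * dd 1 (J.erase j) w).coeff J.card
      = -(β j * ∏ i ∈ J, (-w i)) := by
  have h1 : 1 ≤ J.card := Finset.card_pos.2 ⟨j, hj⟩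
  have hc : (J.erase j).card + 1 = J.card := Finset.card_erase_add_one hj
  have h2 := A2_lead (J := J.erase j) (w := w) fun i hi => hw i (Finset.mem_of_mem_erase hi)
  have h3 : (dd 1 (J.erase j) w).coeff ((J.erase j).card + 1) = 0 := by
    apply coeff_eq_zero_of_natDegree_lt
    rw [dd_natDegree fun i hi => hw i (Finset.mem_of_mem_erase hi)]
    omega
  have h4 : (nu 1).comp (C (w j) * X) = 1 + C (w j) * X := by simp [nu]
  rw [h4, ← hc, mul_assoc, coeff_C_mul, add_mul, one_mul, coeff_add, h3, zero_add, mul_assoc,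
    coeff_C_mul, coeff_X_mul, h2, ← Finset.mul_prod_erase J (fun i => -w i) hj]
  ring

theorem nn_natDegree (h : NF r J w β) : (nn r J w β).natDegree < r * J.card := by
  have hJ : 1 ≤ J.card := Finset.card_pos.2 h.ne
  have hr1 := h.one_le
  have hpos : 1 ≤ r * J.card := Nat.mul_pos hr1 hJ
  have hle : r = 2 ∨ r = 3 → (nn r J w β).natDegree ≤ r * J.card - 1 := by
    intro hr
    rw [nn]
    refine natDegree_sum_le_of_forall_le _ _ fun j hj => ?_
    have h1 := A2_summand (r := r) (β := β) h.w_ne hj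
    have h2 := A2_nu_natDegree hr
    omega
  rcases A2_cases h with hr | hr
  · subst hr
    have h1 : (nn 1 J w β).natDegree ≤ J.card := by
      rw [nn]
      refine natDegree_sum_le_of_forall_le _ _ fun j hj => ?_
      have h1 := A2_summand (r := 1) (β := β) h.w_ne hj
      have h2 : (nu 1).natDegree ≤ 1 := by
        have h : nu 1 = 1 + X := by simp [nu]
        rw [h]
        compute_degree
      omega
    have h2 : (nn 1 J w β).coeff J.card = 0 := by
      rw [nn, finsetSum_coeff, Finset.sum_congr rfl fun j hj => A2_coeff h.w_ne hj,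
        Finset.sum_neg_distrib, ← Finset.sum_mul, h.sum rfl, zero_mul, neg_zero]
    rw [one_mul]
    rcases Nat.lt_or_ge (nn 1 J w β).natDegree J.card with h3 | h3
    · exact h3
    · exfalso
      have h4 : (nn 1 J w β).natDegree = J.card := le_antisymm h1 h3
      have h5 : nn 1 J w β = 0 := by
        rw [← leadingCoeff_eq_zero, ← coeff_natDegree, h4]
        exact h2
      rw [h5, natDegree_zero] at h4
      omega
  · have h1 := hle hr
    omega

theorem nn_pole (h : NF r J w β) {z : ℂ} (hz : ∃ j ∈ J, w j * z = 1) :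
    (nn r J w β).eval z ≠ 0 := by
  obtain ⟨j, hj, hjz⟩ := hz
  have hr1 := h.one_le
  have hz0 : z ≠ 0 := by
    intro h0
    rw [h0, mul_zero] at hjz
    exact zero_ne_one hjz
  have key : (nn r J w β).eval z
      = β j * (nu r).eval 1 * ∏ i ∈ J.erase j, (1 - w i * z) ^ r := by
    rw [nn, Polynomial.eval_finsetSum, Finset.sum_eq_single_of_mem j hj]
    · rw [eval_mul, eval_mul, eval_C, eval_comp, eval_mul, eval_C, eval_X, dd_eval, hjz]
    · intro i _ hij
      rw [eval_mul, (dd_root hr1).2 ⟨j, Finset.mem_erase.2 ⟨hij.symm, hj⟩, hjz⟩, mul_zero]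
  rw [key]
  refine mul_ne_zero (mul_ne_zero (h.b_ne j hj) ?_) ?_
  · rcases A2_cases h with hr | hr | hr
    · subst hr
      norm_num [nu]
    · subst hr
      simp [nu]
    · subst hr
      norm_num [nu]
  · refine Finset.prod_ne_zero_iff.2 fun i hi => pow_ne_zero _ (sub_ne_zero.2 ?_)
    intro h1
    have h2 : w i * z = w j * z := by rw [← h1, hjz]
    have h3 : w i = w j := mul_right_cancel₀ hz0 h2
    have h4 := h.inj (Finset.mem_coe.2 (Finset.mem_of_mem_erase hi)) (Finset.mem_coe.2 hj) h3
    exact (Finset.ne_of_mem_erase hi) h4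

theorem nn_ne (h : NF r J w β) : nn r J w β ≠ 0 := by
  obtain ⟨j, hj⟩ := h.ne
  intro h0
  have h1 := nn_pole h (z := (w j)⁻¹) ⟨j, hj, mul_inv_cancel₀ (h.w_ne j hj)⟩
  rw [h0, eval_zero] at h1
  exact h1 rfl

end Pool.Agent.GSX
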