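import Pool.Agent.GSX.A1

/-!
# The lowest coefficient of the numerator

In the ring of power series, `nu_r(u) / (1 - u) ^ r = c_0 + ∑_(ν ≥ 1) kc r ν u ^ ν` (with `c_0 = 1` for
`r = 1` and `c_0 = 0` for `r = 2, 3`). Hence `nn = (∑_j β_j (c_0 + ∑_ν kc r ν w_j ^ ν X ^ ν)) * dd` as
power series, where `dd` has the constant coefficient `1`. If the power sums `∑ β_j w_j ^ μ` vanish
for `0 < μ < ν` (and `∑ β_j = 0` for `r = 1`), the lowest term is `kc r ν (∑ β_j w_j ^ ν) X ^ ν`.

Suggestion: `PowerSeries.mk (fun ν => if ν = 0 then c_0 else kc r ν * w ^ ν) * (1 - C w * X) ^ r =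
nu_r(w X)` by comparison of the coefficients (for `r = 2`, `3` multiply by `1 - w X` once at a time:
`∑ ν w ^ ν X ^ ν * (1 - w X) = ∑_(ν ≥ 1) w ^ ν X ^ ν`), or by `PowerSeries` identities for
`mk fun _ => 1`, then `rescale w`.
-/

set_option autoImplicit false

open Finset Polynomial

namespace Pool.Agent.GSX

variable {ι : Type} [DecidableEq ι] {r : ℕ} {J : Finset ι} {w β : ι → ℂ}

/-- One multiplication by `1 - w X`. -/
private theorem A3_mk_mul (f : ℕ → ℂ) (a : ℂ) :
    PowerSeries.mk f * (1 - PowerSeries.C a * PowerSeries.X) =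
      PowerSeries.mk (fun n => Nat.casesOn n (f 0) (fun m => f (m + 1) - a * f m)) := by
  ext n
  have h : PowerSeries.mk f * (1 - PowerSeries.C a * PowerSeries.X) =
      PowerSeries.mk f - PowerSeries.C a * (PowerSeries.mk f * PowerSeries.X) := by ring
  rw [h]
  rcases n with _ | n
  · simp
  · simp [PowerSeries.coeff_succ_mul_X]

/-- The constant coefficient. -/
private noncomputable def A3_c (r n : ℕ) : ℂ :=
  if n = 0 then (if r = 1 then 1 else 0) else kc r n

private theorem A3_series (a : ℂ) {r : ℕ} (h1 : 1 ≤ r) (h3 : r ≤ 3) :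
    PowerSeries.mk (fun n => A3_c r n * a ^ n) * (1 - PowerSeries.C a * PowerSeries.X) ^ r =
      (((nu r).comp (C a * X) : ℂ[X]) : PowerSeries ℂ) := by
  interval_cases r
  · have hc : (((nu 1).comp (C a * X) : ℂ[X]) : PowerSeries ℂ) =
        PowerSeries.mk (fun n => if n = 0 then 1 else if n = 1 then a else 0) := by
      ext n
      rw [Polynomial.coeff_coe, PowerSeries.coeff_mk]
      rcases n with _ | _ | n
      · simp [nu]
      · simp [nu, Polynomial.coeff_one]
      · simp [nu, Polynomial.coeff_one]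
    rw [hc, pow_one, A3_mk_mul]
    congr 1
    funext n
    rcases n with _ | _ | n
    · simp [A3_c]
    · simp [A3_c, kc]
      ring
    · simp [A3_c, kc]
      ring
  · have hc : (((nu 2).comp (C a * X) : ℂ[X]) : PowerSeries ℂ) =
        PowerSeries.mk (fun n => if n = 1 then a else 0) := by
      ext n
      rw [Polynomial.coeff_coe, PowerSeries.coeff_mk]
      rcases n with _ | _ | n
      · simp [nu]
      · simp [nu]
      · simp [nu, Polynomial.coeff_X]
    have e1 : (fun n : ℕ => (Nat.casesOn n (A3_c 2 0 * a ^ 0)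
        (fun m => A3_c 2 (m + 1) * a ^ (m + 1) - a * (A3_c 2 m * a ^ m)) : ℂ)) =
        fun n : ℕ => if n = 0 then 0 else a ^ n := by
      funext n
      rcases n with _ | _ | n
      · simp [A3_c]
      · simp [A3_c, kc]
      · simp [A3_c, kc]
        ring
    rw [hc, pow_two, ← mul_assoc, A3_mk_mul, e1, A3_mk_mul]
    congr 1
    funext n
    rcases n with _ | _ | n
    · simp
    · simp
    · simp
      ring
  · have hc : (((nu 3).comp (C a * X) : ℂ[X]) : PowerSeries ℂ) =
        PowerSeries.mk (fun n => if n = 1 then a else if n = 2 then a ^ 2 else 0) := by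
      have hc : ((nu 3).comp (C a * X) : ℂ[X]) = C a * X + C (a ^ 2) * X ^ 2 := by
        simp [nu, C_pow]
        ring
      ext n
      rw [hc, Polynomial.coeff_coe, PowerSeries.coeff_mk, Polynomial.coeff_add,
        Polynomial.coeff_C_mul, Polynomial.coeff_C_mul, Polynomial.coeff_X, Polynomial.coeff_X_pow]
      rcases n with _ | _ | _ | n
      · simp
      · simp
      · simp
      · simp
    have e1 : (fun n : ℕ => (Nat.casesOn n (A3_c 3 0 * a ^ 0)
        (fun m => A3_c 3 (m + 1) * a ^ (m + 1) - a * (A3_c 3 m * a ^ m)) : ℂ)) =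
        fun n : ℕ => if n = 0 then 0 else (2 * (n : ℂ) - 1) * a ^ n := by
      funext n
      rcases n with _ | _ | n
      · simp [A3_c]
      · simp [A3_c, kc]
        ring
      · simp [A3_c, kc]
        ring
    have e2 : (fun n : ℕ => (Nat.casesOn n (if (0 : ℕ) = 0 then 0 else (2 * ((0 : ℕ) : ℂ) - 1) * a ^ 0)
        (fun m => (if m + 1 = 0 then 0 else (2 * ((m + 1 : ℕ) : ℂ) - 1) * a ^ (m + 1)) -
          a * (if m = 0 then 0 else (2 * (m : ℂ) - 1) * a ^ m)) : ℂ)) =
        fun n : ℕ => if n = 0 then 0 else if n = 1 then a else 2 * a ^ n := by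
      funext n
      rcases n with _ | _ | n
      · simp
      · simp
        ring
      · simp
        ring
    rw [hc, pow_succ, pow_two, ← mul_assoc, ← mul_assoc, A3_mk_mul, e1, A3_mk_mul, e2, A3_mk_mul]
    congr 1
    funext n
    rcases n with _ | _ | _ | n
    · simp
    · simp
    · simp
      ring
    · simp
      ring

theorem nn_coeff (h : NF r J w β) {ν : ℕ} (hν : 1 ≤ ν)
    (h0 : ∀ μ, 1 ≤ μ → μ < ν → ∑ j ∈ J, β j * w j ^ μ = 0) :
    (∀ μ < ν, (nn r J w β).coeff μ = 0) ∧
      (nn r J w β).coeff ν = kc r ν * ∑ j ∈ J, β j * w j ^ ν := by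
  set P : PowerSeries ℂ := PowerSeries.mk (fun n => A3_c r n * ∑ j ∈ J, β j * w j ^ n) with hP
  have hPs : P = ∑ j ∈ J, PowerSeries.C (β j) * PowerSeries.mk (fun n => A3_c r n * w j ^ n) := by
    ext n
    simp only [hP, PowerSeries.coeff_mk, map_sum, PowerSeries.coeff_C_mul, Finset.mul_sum]
    exact Finset.sum_congr rfl fun j _ => by ring
  have hd : ∀ s : Finset ι, ((dd r s w : ℂ[X]) : PowerSeries ℂ) =
      ∏ j ∈ s, (1 - PowerSeries.C (w j) * PowerSeries.X) ^ r := by
    intro s
    induction s using Finset.induction_on with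
    | empty => simp [dd]
    | insert i s hi ih =>
      rw [Finset.prod_insert hi, ← ih]
      simp only [dd]
      rw [Finset.prod_insert hi]
      simp [Polynomial.coe_mul, Polynomial.coe_pow, Polynomial.coe_sub]
  have key : ((nn r J w β : ℂ[X]) : PowerSeries ℂ) = P * ((dd r J w : ℂ[X]) : PowerSeries ℂ) := by
    rw [hPs, Finset.sum_mul]
    have : ((nn r J w β : ℂ[X]) : PowerSeries ℂ) = ∑ j ∈ J,
        ((C (β j) * (nu r).comp (C (w j) * X) * dd r (J.erase j) w : ℂ[X]) : PowerSeries ℂ) := by
      unfold nn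
      exact map_sum (Polynomial.coeToPowerSeries.ringHom) _ _
    rw [this]
    refine Finset.sum_congr rfl fun j hj => ?_
    rw [Polynomial.coe_mul, Polynomial.coe_mul, Polynomial.coe_C, ← A3_series (w j) h.one_le h.le_three,
      hd, hd, ← Finset.mul_prod_erase J _ hj]
    ring
  have hPc : ∀ μ < ν, PowerSeries.coeff μ P = 0 := by
    intro μ hμ
    rw [hP, PowerSeries.coeff_mk]
    rcases Nat.eq_zero_or_pos μ with h' | h'
    · subst h'
      simp only [A3_c, if_true, pow_zero, mul_one]
      by_cases hr : r = 1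
      · rw [h.sum hr, mul_zero]
      · simp [hr]
    · rw [h0 μ h' hμ, mul_zero]
  have hco : ∀ n, (nn r J w β).coeff n = PowerSeries.coeff n (P * ((dd r J w : ℂ[X]) : PowerSeries ℂ)) := by
    intro n
    rw [← key, Polynomial.coeff_coe]
  constructor
  · intro μ hμ
    rw [hco, PowerSeries.coeff_mul]
    refine Finset.sum_eq_zero fun p hp => ?_
    have hp := Finset.HasAntidiagonal.mem_antidiagonal.1 hp
    rw [hPc p.1 (by omega), zero_mul]
  · rw [hco, PowerSeries.coeff_mul]
    rw [Finset.sum_eq_single (ν, 0)]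
    · have hd0 : PowerSeries.coeff 0 ((dd r J w : ℂ[X]) : PowerSeries ℂ) = 1 := by
        rw [hd, PowerSeries.coeff_zero_eq_constantCoeff, map_prod]
        exact Finset.prod_eq_one fun j _ => by simp
      simp only
      rw [hd0, mul_one, hP, PowerSeries.coeff_mk]
      have : ν ≠ 0 := by omega
      simp [A3_c, this]
    · intro p hp hne
      have hp := Finset.HasAntidiagonal.mem_antidiagonal.1 hp
      have : p.1 < ν := by
        rcases Nat.eq_zero_or_pos p.2 with h' | h'
        · exact absurd (Prod.ext (by simp; omega) h') hne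
        · omega
      rw [hPc p.1 this, zero_mul]
    · intro hn
      exact absurd (Finset.HasAntidiagonal.mem_antidiagonal.2 (by simp)) hn

theorem kc_ne {r ν : ℕ} (hν : 1 ≤ ν) : kc r ν ≠ 0 := by
  have : (ν : ℂ) ≠ 0 := Nat.cast_ne_zero.2 (by omega)
  unfold kc
  split_ifs
  · norm_num
  · exact this
  · exact pow_ne_zero 2 this

end Pool.Agent.GSX
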