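import Pool.Agent.GSX.Rat

/-!
# A power sum does not vanish

If `∑_j β_j w_j ^ ν = 0` for `ν = 1, …, |J|`, then `β_j w_j = 0` for all `j` by the Vandermonde matrix
(`Matrix.det_vandermonde_ne_zero_iff`, or: `∑_j β_j w_j P(w_j) = 0` for all polynomials `P` of degree
`< |J|`, and take `P = ∏_(i ≠ j) (X - w_i)`).
-/

set_option autoImplicit false

open Finset Polynomial

namespace Pool.Agent.GSX

variable {ι : Type} [DecidableEq ι] {r : ℕ} {J : Finset ι} {w β : ι → ℂ}

theorem exists_pow (h : NF r J w β) :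
    ∃ ν, 1 ≤ ν ∧ ν ≤ J.card ∧ ∑ j ∈ J, β j * w j ^ ν ≠ 0 := by
  by_contra hcon
  push Not at hcon
  obtain ⟨j₀, hj₀⟩ := h.ne
  set P : ℂ[X] := ∏ i ∈ J.erase j₀, (X - C (w i)) with hP
  have hdeg : P.natDegree < J.card := by
    rw [hP, natDegree_prod_of_monic _ _ fun i _ => monic_X_sub_C (w i)]
    simp only [natDegree_X_sub_C, sum_const, smul_eq_mul, mul_one]
    rw [card_erase_of_mem hj₀]
    have : 0 < J.card := card_pos.2 ⟨j₀, hj₀⟩
    omega
  have h1 : ∑ j ∈ J, β j * w j * P.eval (w j) = 0 := by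
    have h2 : ∀ j ∈ J, β j * w j * P.eval (w j) =
        ∑ k ∈ range J.card, P.coeff k * (β j * w j ^ (k + 1)) := by
      intro j _
      rw [eval_eq_sum_range' hdeg, mul_sum]
      exact sum_congr rfl fun k _ => by ring
    rw [sum_congr rfl h2, sum_comm]
    refine sum_eq_zero fun k hk => ?_
    rw [← mul_sum, hcon (k + 1) (by omega) (mem_range.1 hk), mul_zero]
  have h3 : ∑ j ∈ J, β j * w j * P.eval (w j) = β j₀ * w j₀ * P.eval (w j₀) := by
    refine sum_eq_single j₀ (fun j hj hne => ?_) fun h4 => absurd hj₀ h4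
    have h5 : P.eval (w j) = 0 := by
      rw [hP, eval_prod]
      refine prod_eq_zero (mem_erase.2 ⟨hne, hj⟩) ?_
      rw [eval_sub, eval_X, eval_C, sub_self]
    rw [h5, mul_zero]
  have h6 : P.eval (w j₀) ≠ 0 := by
    rw [hP, eval_prod, prod_ne_zero_iff]
    intro i hi
    rw [eval_sub, eval_X, eval_C, sub_ne_zero]
    intro h7
    exact (mem_erase.1 hi).1 (h.inj (mem_erase.1 hi).2 hj₀ h7.symm)
  rw [h3] at h1
  exact mul_ne_zero (mul_ne_zero (h.b_ne j₀ hj₀) (h.w_ne j₀ hj₀)) h6 h1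

end Pool.Agent.GSX
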