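import Pool.Agent.GSX.A2

/-!
# One or two poles

* For `J = {j}` and `r = 3` the numerator is `β w X (1 + w X)`.
* For `J = {i, j}`, `r = 2` and `β_i + β_j = 0` it is `β_i (w_i - w_j) X (1 - w_i w_j X ^ 2)`.
* For `r = 1` the last statement is trivial, as `natTrailingDegree ≤ natDegree`.
-/

set_option autoImplicit false

open Finset Polynomial

namespace Pool.Agent.GSX

variable {ι : Type} [DecidableEq ι] {r : ℕ} {J : Finset ι} {w β : ι → ℂ}

private theorem A5_deg (a b : ℂ) (ha : a ≠ 0) (hb : b ≠ 0) (k : ℕ) (hk : 1 ≤ k) :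
    (C a * (X * (1 + C b * X ^ k)) : ℂ[X]).natTrailingDegree = 1 ∧
      (C a * (X * (1 + C b * X ^ k)) : ℂ[X]).natDegree = k + 1 := by
  have hd : (1 + C b * X ^ k : ℂ[X]).natDegree = k := by
    rw [add_comm]
    have h1 : (C b * X ^ k : ℂ[X]).natDegree = k := natDegree_C_mul_X_pow k b hb
    rw [natDegree_add_eq_left_of_natDegree_lt, h1]
    rw [h1, natDegree_one]
    omega
  have h0 : (1 + C b * X ^ k : ℂ[X]).coeff 0 = 1 := by
    simp only [coeff_add, coeff_one_zero, coeff_C_mul, coeff_X_pow]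
    rw [if_neg (by omega)]
    simp
  have hne : (1 + C b * X ^ k : ℂ[X]) ≠ 0 := by
    intro h
    rw [h] at h0
    simp at h0
  have ht : (1 + C b * X ^ k : ℂ[X]).natTrailingDegree = 0 := by
    rw [natTrailingDegree_eq_zero]
    right
    rw [h0]
    exact one_ne_zero
  have hC : (C a : ℂ[X]) ≠ 0 := C_ne_zero.2 ha
  have hX : (X : ℂ[X]) ≠ 0 := X_ne_zero
  constructor
  · rw [natTrailingDegree_mul hC (mul_ne_zero hX hne), natTrailingDegree_mul hX hne,
      natTrailingDegree_C, natTrailingDegree_X, ht]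
  · rw [natDegree_mul hC (mul_ne_zero hX hne), natDegree_mul hX hne, natDegree_C, natDegree_X, hd]
    omega

theorem nn_one (h : NF r J w β) (hr : r = 3) (hJ : J.card = 1) :
    (nn r J w β).natTrailingDegree = 1 ∧ (nn r J w β).natDegree + 1 = r * J.card := by
  subst hr
  obtain ⟨j, rfl⟩ := Finset.card_eq_one.1 hJ
  have hw : w j ≠ 0 := h.w_ne j (mem_singleton_self j)
  have hb : β j ≠ 0 := h.b_ne j (mem_singleton_self j)
  have e : nn 3 {j} w β = C (β j * w j) * (X * (1 + C (w j) * X ^ 1)) := by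
    unfold nn dd
    rw [sum_singleton, Finset.erase_singleton, prod_empty]
    have hnu : nu 3 = X * (1 + X) := by
      unfold nu
      rw [if_neg (by norm_num), if_neg (by norm_num)]
    rw [hnu, mul_comp, add_comp, X_comp, one_comp, C_mul]
    ring
  rw [e]
  obtain ⟨h1, h2⟩ := A5_deg (β j * w j) (w j) (mul_ne_zero hb hw) hw 1 le_rfl
  refine ⟨h1, ?_⟩
  rw [h2, Finset.card_singleton]

theorem nn_two (h : NF r J w β) (hr : r = 2) (hJ : J.card = 2) (hs : ∑ j ∈ J, β j = 0) :
    (nn r J w β).natTrailingDegree = 1 ∧ (nn r J w β).natDegree + 1 = r * J.card := by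
  subst hr
  obtain ⟨i, j, hij, rfl⟩ := Finset.card_eq_two.1 hJ
  have hi : i ∈ ({i, j} : Finset ι) := by simp
  have hj : j ∈ ({i, j} : Finset ι) := by simp
  have hwi : w i ≠ 0 := h.w_ne i hi
  have hwj : w j ≠ 0 := h.w_ne j hj
  have hb : β i ≠ 0 := h.b_ne i hi
  have hw : w i - w j ≠ 0 := sub_ne_zero.2 fun e => hij (h.inj hi hj e)
  rw [sum_pair hij] at hs
  have hβ : β j = -β i := by linear_combination hs
  have hei : ({i, j} : Finset ι).erase i = {j} := by
    ext x
    simp only [mem_erase, mem_insert, mem_singleton]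
    constructor
    · rintro ⟨h1, h2 | h2⟩
      · exact absurd h2 h1
      · exact h2
    · rintro rfl
      exact ⟨hij.symm, Or.inr rfl⟩
  have hej : ({i, j} : Finset ι).erase j = {i} := by
    ext x
    simp only [mem_erase, mem_insert, mem_singleton]
    constructor
    · rintro ⟨h1, h2 | h2⟩
      · exact h2
      · exact absurd h2 h1
    · rintro rfl
      exact ⟨hij, Or.inl rfl⟩
  have e : nn 2 {i, j} w β = C (β i * (w i - w j)) * (X * (1 + C (-(w i * w j)) * X ^ 2)) := by
    unfold nn dd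
    rw [sum_pair hij, hei, hej, prod_singleton, prod_singleton, hβ]
    have hnu : nu 2 = X := by
      unfold nu
      rw [if_neg (by norm_num), if_pos rfl]
    rw [hnu, X_comp, X_comp]
    simp only [C_mul, C_sub, C_neg]
    ring
  rw [e]
  obtain ⟨h1, h2⟩ := A5_deg (β i * (w i - w j)) (-(w i * w j)) (mul_ne_zero hb hw)
    (neg_ne_zero.2 (mul_ne_zero hwi hwj)) 2 (by norm_num)
  refine ⟨h1, ?_⟩
  rw [h2, Finset.card_pair hij]

theorem nn_half (h : NF r J w β) (hr : r = 1) :
    (nn r J w β).natTrailingDegree + r * J.card ≤ (nn r J w β).natDegree + J.card := by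
  subst hr
  rw [one_mul]
  exact Nat.add_le_add_right (natTrailingDegree_le_natDegree _) _

end Pool.Agent.GSX
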