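import Pool.Agent.GSX.A2

/-!
# A product of the functions is not constant

Both sides of `∏ GG_x(z ^ n_x) ^ 2 = c` times `∏ dd_x(z ^ n_x) ^ 2` are polynomials in `z` of degree at
most `2 ∑ n_x r_x |J_x|` (`A2.nn_natDegree`, `A1.dd_natDegree`, `Polynomial.natDegree_comp`), so the
identity `∏ nn_x(X ^ n_x) ^ 2 = c ∏ dd_x(X ^ n_x) ^ 2` holds in `ℂ[X]` as there are more points in `Z`.
At `X = 0` the left side is `0` as `K` is not empty (`nn_zero`), the right side is `c` (`dd_eval_zero`).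
-/

set_option autoImplicit false

open Finset Polynomial

namespace Pool.Agent.GSX

variable {ι κ : Type} [DecidableEq ι] {K : Finset κ} {r : κ → ℕ} {J : κ → Finset ι}
  {w β : κ → ι → ℂ} {n : κ → ℕ}

theorem prod_one (hK : K.Nonempty) (h : ∀ x ∈ K, NF (r x) (J x) (w x) (β x))
    (hn : ∀ x ∈ K, 1 ≤ n x) {c : ℂ} (hc : c ≠ 0) {Z : Finset ℂ}
    (hcard : 2 * ∑ x ∈ K, n x * (r x * (J x).card) < Z.card)
    (hZ : ∀ z ∈ Z, (∀ x ∈ K, ∀ j ∈ J x, w x j * z ^ n x ≠ 1) ∧
      (∏ x ∈ K, GG (r x) (J x) (w x) (β x) (z ^ n x)) ^ 2 = c) : False := by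
  obtain ⟨x₀, hx₀⟩ := hK
  have hA : (∏ x ∈ K, (nn (r x) (J x) (w x) (β x)).comp (X ^ n x)).natDegree ≤
      ∑ x ∈ K, n x * (r x * (J x).card) := by
    refine (natDegree_prod_le _ _).trans (Finset.sum_le_sum fun x hx => ?_)
    refine natDegree_comp_le.trans ?_
    rw [natDegree_X_pow, mul_comm]
    exact Nat.mul_le_mul_left _ (nn_natDegree (h x hx)).le
  have hB : (∏ x ∈ K, (dd (r x) (J x) (w x)).comp (X ^ n x)).natDegree ≤
      ∑ x ∈ K, n x * (r x * (J x).card) := by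
    refine (natDegree_prod_le _ _).trans (Finset.sum_le_sum fun x hx => ?_)
    refine natDegree_comp_le.trans ?_
    rw [natDegree_X_pow, mul_comm, dd_natDegree (h x hx).w_ne]
  have hP : (∏ x ∈ K, (nn (r x) (J x) (w x) (β x)).comp (X ^ n x)) ^ 2 -
      C c * (∏ x ∈ K, (dd (r x) (J x) (w x)).comp (X ^ n x)) ^ 2 = 0 := by
    refine eq_zero_of_natDegree_lt_card_of_eval_eq_zero' _ Z (fun z hz => ?_) ?_
    · obtain ⟨h1, h2⟩ := hZ z hz
      rw [eval_sub, eval_mul, eval_C, eval_pow, eval_pow, eval_prod, eval_prod]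
      have h3 : ∏ x ∈ K, eval z ((nn (r x) (J x) (w x) (β x)).comp (X ^ n x)) =
          (∏ x ∈ K, GG (r x) (J x) (w x) (β x) (z ^ n x)) *
            ∏ x ∈ K, eval z ((dd (r x) (J x) (w x)).comp (X ^ n x)) := by
        rw [← Finset.prod_mul_distrib]
        refine Finset.prod_congr rfl fun x hx => ?_
        rw [eval_comp, eval_comp, eval_pow, eval_X, nn_eval (h1 x hx)]
      rw [h3, mul_pow, h2, sub_self]
    · refine lt_of_le_of_lt ((natDegree_sub_le _ _).trans (max_le ?_ ?_)) hcard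
      · exact natDegree_pow_le.trans (Nat.mul_le_mul_left 2 hA)
      · exact (natDegree_C_mul_le _ _).trans
          (natDegree_pow_le.trans (Nat.mul_le_mul_left 2 hB))
  have h0 := congrArg (eval 0) hP
  rw [eval_sub, eval_mul, eval_C, eval_pow, eval_pow, eval_prod, eval_prod, eval_zero] at h0
  have h4 : ∏ x ∈ K, eval 0 ((nn (r x) (J x) (w x) (β x)).comp (X ^ n x)) = 0 := by
    refine Finset.prod_eq_zero hx₀ ?_
    rw [eval_comp, eval_pow, eval_X, zero_pow (Nat.one_le_iff_ne_zero.1 (hn x₀ hx₀)),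
      nn_zero (h x₀ hx₀)]
  have h5 : ∏ x ∈ K, eval 0 ((dd (r x) (J x) (w x)).comp (X ^ n x)) = 1 := by
    refine Finset.prod_eq_one fun x hx => ?_
    rw [eval_comp, eval_pow, eval_X, zero_pow (Nat.one_le_iff_ne_zero.1 (hn x hx)),
      dd_eval_zero]
  rw [h4, h5] at h0
  apply hc
  linear_combination -h0

end Pool.Agent.GSX
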