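import Pool.Agent.GSX.A2
import Pool.Agent.GSX.A3

/-!
# The comparison of the lowest coefficients

As in `A6` we have
`c ∏ nn_x(X ^ n_x) ^ 2 ∏ dd'_x(X ^ n_x) ^ 2 = c' ∏ nn'_x(X ^ n_x) ^ 2 ∏ dd_x(X ^ n_x) ^ 2` in `ℂ[X]`
(`'` for the second family `w'`; the points of `Z` are poles of neither side). By `A3.nn_coeff`,
`nn_x(X ^ n_x) = X ^ (n_x ν_x) Q_x` with `Q_x(0) = kc (r x) (ν x) * ∑ β_j w_j ^ ν`, and the same for
`nn'`. Cancel `X ^ (2 ∑ n_x ν_x)` and take the value at `0`; the `dd` have the value `1` at `0`. Then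
cancel `∏ kc (r x) (ν x) ^ 2 ≠ 0`.
-/

set_option autoImplicit false

open Finset Polynomial

namespace Pool.Agent.GSX

variable {ι κ : Type} [DecidableEq ι] {K : Finset κ} {r : κ → ℕ} {J : κ → Finset ι}
  {w w' β : κ → ι → ℂ} {n ν : κ → ℕ}

/-- The numerator is divisible by `X ^ ν`. -/
private theorem A8_exists {r : ℕ} {J : Finset ι} {w β : ι → ℂ} (h : NF r J w β) {ν : ℕ}
    (hν : 1 ≤ ν) (h0 : ∀ μ, 1 ≤ μ → μ < ν → ∑ j ∈ J, β j * w j ^ μ = 0) :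
    ∃ Q : ℂ[X], nn r J w β = X ^ ν * Q ∧ Q.eval 0 = kc r ν * ∑ j ∈ J, β j * w j ^ ν := by
  obtain ⟨h1, h2⟩ := nn_coeff h hν h0
  obtain ⟨Q, hQ⟩ := (X_pow_dvd_iff (n := ν)).2 h1
  refine ⟨Q, hQ, ?_⟩
  rw [← h2, hQ, ← Polynomial.coeff_zero_eq_eval_zero]
  have := Polynomial.coeff_X_pow_mul Q ν 0
  rw [Nat.zero_add] at this
  exact this.symm

private theorem A8_eval_comp (P : ℂ[X]) (n : ℕ) (z : ℂ) :
    (P.comp (X ^ n)).eval z = P.eval (z ^ n) := by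
  rw [eval_comp, eval_pow, eval_X]

private theorem A8_natDegree_comp (P : ℂ[X]) (n : ℕ) :
    (P.comp (X ^ n)).natDegree = P.natDegree * n := by
  rw [natDegree_comp, natDegree_X_pow]

theorem lead (h : ∀ x ∈ K, NF (r x) (J x) (w x) (β x))
    (h' : ∀ x ∈ K, NF (r x) (J x) (w' x) (β x)) (hn : ∀ x ∈ K, 1 ≤ n x)
    (hν : ∀ x ∈ K, 1 ≤ ν x)
    (h0 : ∀ x ∈ K, ∀ μ, 1 ≤ μ → μ < ν x → ∑ j ∈ J x, β x j * w x j ^ μ = 0)
    (h0' : ∀ x ∈ K, ∀ μ, 1 ≤ μ → μ < ν x → ∑ j ∈ J x, β x j * w' x j ^ μ = 0)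
    {c c' : ℂ} {Z : Finset ℂ}
    (hcard : 4 * ∑ x ∈ K, n x * (r x * (J x).card) < Z.card)
    (hZ : ∀ z ∈ Z, (∀ x ∈ K, ∀ j ∈ J x, w x j * z ^ n x ≠ 1 ∧ w' x j * z ^ n x ≠ 1) ∧
      c * (∏ x ∈ K, GG (r x) (J x) (w x) (β x) (z ^ n x)) ^ 2 =
        c' * (∏ x ∈ K, GG (r x) (J x) (w' x) (β x) (z ^ n x)) ^ 2) :
    c * (∏ x ∈ K, ∑ j ∈ J x, β x j * w x j ^ ν x) ^ 2 =
      c' * (∏ x ∈ K, ∑ j ∈ J x, β x j * w' x j ^ ν x) ^ 2 := by
  classical
  -- the polynomials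
  let N : κ → ℂ[X] := fun x => (nn (r x) (J x) (w x) (β x)).comp (X ^ n x)
  let N' : κ → ℂ[X] := fun x => (nn (r x) (J x) (w' x) (β x)).comp (X ^ n x)
  let D : κ → ℂ[X] := fun x => (dd (r x) (J x) (w x)).comp (X ^ n x)
  let D' : κ → ℂ[X] := fun x => (dd (r x) (J x) (w' x)).comp (X ^ n x)
  have hdeg : ∀ (u v : κ → ι → ℂ), (∀ x ∈ K, NF (r x) (J x) (u x) (β x)) →
      (∀ x ∈ K, NF (r x) (J x) (v x) (β x)) → ∀ a : ℂ,
      (C a * (∏ x ∈ K, (nn (r x) (J x) (u x) (β x)).comp (X ^ n x)) ^ 2 *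
        (∏ x ∈ K, (dd (r x) (J x) (v x)).comp (X ^ n x)) ^ 2).natDegree ≤
        4 * ∑ x ∈ K, n x * (r x * (J x).card) := by
    intro u v hu hv a
    have e1 : (∏ x ∈ K, (nn (r x) (J x) (u x) (β x)).comp (X ^ n x)).natDegree ≤
        ∑ x ∈ K, n x * (r x * (J x).card) := by
      refine (natDegree_prod_le _ _).trans (Finset.sum_le_sum fun x hx => ?_)
      show ((nn (r x) (J x) (u x) (β x)).comp (X ^ n x)).natDegree ≤ _
      rw [A8_natDegree_comp, mul_comm]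
      exact Nat.mul_le_mul_left _ (nn_natDegree (hu x hx)).le
    have e2 : (∏ x ∈ K, (dd (r x) (J x) (v x)).comp (X ^ n x)).natDegree ≤
        ∑ x ∈ K, n x * (r x * (J x).card) := by
      refine (natDegree_prod_le _ _).trans (Finset.sum_le_sum fun x hx => ?_)
      show ((dd (r x) (J x) (v x)).comp (X ^ n x)).natDegree ≤ _
      rw [A8_natDegree_comp, mul_comm, dd_natDegree (hv x hx).w_ne]
    refine natDegree_mul_le.trans ?_
    have e3 : (C a * (∏ x ∈ K, (nn (r x) (J x) (u x) (β x)).comp (X ^ n x)) ^ 2).natDegree ≤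
        2 * ∑ x ∈ K, n x * (r x * (J x).card) := by
      refine (natDegree_C_mul_le _ _).trans (natDegree_pow_le.trans ?_)
      exact Nat.mul_le_mul_left _ e1
    have e4 : ((∏ x ∈ K, (dd (r x) (J x) (v x)).comp (X ^ n x)) ^ 2).natDegree ≤
        2 * ∑ x ∈ K, n x * (r x * (J x).card) :=
      natDegree_pow_le.trans (Nat.mul_le_mul_left _ e2)
    omega
  have hpoly : C c * (∏ x ∈ K, N x) ^ 2 * (∏ x ∈ K, D' x) ^ 2 =
      C c' * (∏ x ∈ K, N' x) ^ 2 * (∏ x ∈ K, D x) ^ 2 := by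
    rw [← sub_eq_zero]
    refine Polynomial.eq_zero_of_natDegree_lt_card_of_eval_eq_zero' _ Z (fun z hz => ?_) ?_
    · obtain ⟨hz1, hz2⟩ := hZ z hz
      have hN : ∀ x ∈ K, (N x).eval z =
          GG (r x) (J x) (w x) (β x) (z ^ n x) * (D x).eval z := by
        intro x hx
        show ((nn (r x) (J x) (w x) (β x)).comp (X ^ n x)).eval z =
          _ * ((dd (r x) (J x) (w x)).comp (X ^ n x)).eval z
        rw [A8_eval_comp, A8_eval_comp]
        exact (nn_eval fun j hj => (hz1 x hx j hj).1).symm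
      have hN' : ∀ x ∈ K, (N' x).eval z =
          GG (r x) (J x) (w' x) (β x) (z ^ n x) * (D' x).eval z := by
        intro x hx
        show ((nn (r x) (J x) (w' x) (β x)).comp (X ^ n x)).eval z =
          _ * ((dd (r x) (J x) (w' x)).comp (X ^ n x)).eval z
        rw [A8_eval_comp, A8_eval_comp]
        exact (nn_eval fun j hj => (hz1 x hx j hj).2).symm
      simp only [eval_sub, eval_mul, eval_pow, eval_C, eval_prod]
      rw [Finset.prod_congr rfl hN, Finset.prod_congr rfl hN', Finset.prod_mul_distrib,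
        Finset.prod_mul_distrib]
      linear_combination (∏ x ∈ K, eval z (D x)) ^ 2 * (∏ x ∈ K, eval z (D' x)) ^ 2 * hz2
    · refine lt_of_le_of_lt ((natDegree_sub_le _ _).trans (max_le ?_ ?_)) hcard
      · exact hdeg w w' h h' c
      · exact hdeg w' w h' h c'
  -- the factorisations
  have hQ : ∀ x, ∃ Q : ℂ[X], x ∈ K → nn (r x) (J x) (w x) (β x) = X ^ ν x * Q ∧
      Q.eval 0 = kc (r x) (ν x) * ∑ j ∈ J x, β x j * w x j ^ ν x := by
    intro x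
    by_cases hx : x ∈ K
    · obtain ⟨Q, hQ⟩ := A8_exists (h x hx) (hν x hx) (h0 x hx)
      exact ⟨Q, fun _ => hQ⟩
    · exact ⟨0, fun hx' => absurd hx' hx⟩
  have hQ' : ∀ x, ∃ Q : ℂ[X], x ∈ K → nn (r x) (J x) (w' x) (β x) = X ^ ν x * Q ∧
      Q.eval 0 = kc (r x) (ν x) * ∑ j ∈ J x, β x j * w' x j ^ ν x := by
    intro x
    by_cases hx : x ∈ K
    · obtain ⟨Q, hQ⟩ := A8_exists (h' x hx) (hν x hx) (h0' x hx)
      exact ⟨Q, fun _ => hQ⟩
    · exact ⟨0, fun hx' => absurd hx' hx⟩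
  choose Q hQ using hQ
  choose Q' hQ' using hQ'
  have hprod : ∏ x ∈ K, N x = X ^ (∑ x ∈ K, n x * ν x) * ∏ x ∈ K, (Q x).comp (X ^ n x) := by
    rw [← Finset.prod_pow_eq_pow_sum, ← Finset.prod_mul_distrib]
    refine Finset.prod_congr rfl fun x hx => ?_
    show (nn (r x) (J x) (w x) (β x)).comp (X ^ n x) = _
    rw [(hQ x hx).1, mul_comp, pow_comp, X_comp, ← pow_mul]
  have hprod' : ∏ x ∈ K, N' x = X ^ (∑ x ∈ K, n x * ν x) * ∏ x ∈ K, (Q' x).comp (X ^ n x) := by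
    rw [← Finset.prod_pow_eq_pow_sum, ← Finset.prod_mul_distrib]
    refine Finset.prod_congr rfl fun x hx => ?_
    show (nn (r x) (J x) (w' x) (β x)).comp (X ^ n x) = _
    rw [(hQ' x hx).1, mul_comp, pow_comp, X_comp, ← pow_mul]
  rw [hprod, hprod'] at hpoly
  have hX : (X : ℂ[X]) ^ (2 * ∑ x ∈ K, n x * ν x) ≠ 0 := pow_ne_zero _ X_ne_zero
  have hcancel : C c * (∏ x ∈ K, (Q x).comp (X ^ n x)) ^ 2 * (∏ x ∈ K, D' x) ^ 2 =
      C c' * (∏ x ∈ K, (Q' x).comp (X ^ n x)) ^ 2 * (∏ x ∈ K, D x) ^ 2 := by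
    apply mul_left_cancel₀ hX
    rw [mul_comm 2, pow_mul]
    linear_combination hpoly
  have hev := congrArg (eval 0) hcancel
  simp only [eval_mul, eval_pow, eval_C, eval_prod] at hev
  have hz : ∀ x ∈ K, (0 : ℂ) ^ n x = 0 := fun x hx => zero_pow (by have := hn x hx; omega)
  have hD : ∀ x ∈ K, (D x).eval 0 = 1 := by
    intro x hx
    show ((dd (r x) (J x) (w x)).comp (X ^ n x)).eval 0 = 1
    rw [A8_eval_comp, hz x hx, dd_eval_zero]
  have hD' : ∀ x ∈ K, (D' x).eval 0 = 1 := by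
    intro x hx
    show ((dd (r x) (J x) (w' x)).comp (X ^ n x)).eval 0 = 1
    rw [A8_eval_comp, hz x hx, dd_eval_zero]
  have hQe : ∀ x ∈ K, ((Q x).comp (X ^ n x)).eval 0 =
      kc (r x) (ν x) * ∑ j ∈ J x, β x j * w x j ^ ν x := by
    intro x hx
    rw [A8_eval_comp, hz x hx]
    exact (hQ x hx).2
  have hQe' : ∀ x ∈ K, ((Q' x).comp (X ^ n x)).eval 0 =
      kc (r x) (ν x) * ∑ j ∈ J x, β x j * w' x j ^ ν x := by
    intro x hx
    rw [A8_eval_comp, hz x hx]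
    exact (hQ' x hx).2
  rw [Finset.prod_congr rfl hD, Finset.prod_congr rfl hD', Finset.prod_congr rfl hQe,
    Finset.prod_congr rfl hQe', Finset.prod_const_one, Finset.prod_mul_distrib,
    Finset.prod_mul_distrib] at hev
  have hkc : (∏ x ∈ K, kc (r x) (ν x)) ^ 2 ≠ 0 :=
    pow_ne_zero _ (Finset.prod_ne_zero_iff.2 fun x hx => kc_ne (hν x hx))
  apply mul_left_cancel₀ hkc
  linear_combination hev

end Pool.Agent.GSX
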