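import Pool.Agent.GSX.A2

/-!
# The functions and Laurent polynomials with two terms

`laurent_zeros`: multiply by `∏ z ^ (e x)`: the polynomial `∏ (a_x X ^ (2 e_x) + b_x)` is not `0`
(each factor is not `0`, as `e_x ≥ 1`) and has degree at most `∑ 2 e_x`.

`laurent`: multiply by `∏ z ^ (2 e_x) dd_x(z ^ n_x) ^ 2`:
`X ^ (2 ∑ e_x) ∏ nn_x(X ^ n_x) ^ 2 = c ∏ (a_x X ^ (2 e_x) + b_x) ^ 2 ∏ dd_x(X ^ n_x) ^ 2` in `ℂ[X]` (both
sides have degree at most `∑ (4 e_x + 2 n_x r_x |J_x|)`). Compare the widths, width `P` :=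
`natDegree P - natTrailingDegree P`, which is additive (`natDegree_mul`, `natTrailingDegree_mul` in a
domain): on the left `∑ 2 n_x (deg nn_x - ntd nn_x) ≤ ∑ 2 n_x (r_x |J_x| - 2)` (`nn_natDegree`,
`nn_zero`: `deg ≤ r |J| - 1` and `ntd ≥ 1`), on the right it is at least
`∑ 2 n_x r_x |J_x|` (the width of `dd_x(X ^ n_x)` is `n_x r_x |J_x|`, as the constant coefficient is
`1`). As `K` is not empty and `n_x ≥ 1` this is a contradiction.
-/

set_option autoImplicit false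

open Finset Polynomial

namespace Pool.Agent.GSX

variable {ι κ : Type} [DecidableEq ι] {K : Finset κ} {r : κ → ℕ} {J : κ → Finset ι}
  {w β : κ → ι → ℂ} {n e : κ → ℕ} {a b : κ → ℂ}

private theorem A9_factor_ne {a b : ℂ} {e : ℕ} (he : 1 ≤ e) (hab : a ≠ 0 ∨ b ≠ 0) :
    (C a * X ^ (2 * e) + C b : ℂ[X]) ≠ 0 := by
  intro h0
  rcases hab with ha | hb
  · have h1 := congrArg (fun p : ℂ[X] => p.coeff (2 * e)) h0
    simp only [coeff_add, coeff_C_mul, coeff_X_pow, coeff_C, coeff_zero, if_true] at h1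
    rw [if_neg (by omega), mul_one, add_zero] at h1
    exact ha h1
  · have h1 := congrArg (fun p : ℂ[X] => p.coeff 0) h0
    simp only [coeff_add, coeff_C_mul, coeff_X_pow, coeff_C, coeff_zero, if_true] at h1
    rw [if_neg (by omega), mul_zero, zero_add] at h1
    exact hb h1

private theorem A9_factor_deg (a b : ℂ) (e : ℕ) :
    (C a * X ^ (2 * e) + C b : ℂ[X]).natDegree ≤ 2 * e := by
  refine natDegree_add_le_of_degree_le (natDegree_C_mul_X_pow_le a _) ?_
  rw [natDegree_C]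
  exact Nat.zero_le _

private theorem A9_prod_ne (he : ∀ x ∈ K, 1 ≤ e x) (hab : ∀ x ∈ K, a x ≠ 0 ∨ b x ≠ 0) :
    (∏ x ∈ K, (C (a x) * X ^ (2 * e x) + C (b x)) : ℂ[X]) ≠ 0 :=
  prod_ne_zero_iff.mpr fun x hx => A9_factor_ne (he x hx) (hab x hx)

private theorem A9_prod_deg (K : Finset κ) (a b : κ → ℂ) (e : κ → ℕ) :
    (∏ x ∈ K, (C (a x) * X ^ (2 * e x) + C (b x)) : ℂ[X]).natDegree ≤ ∑ x ∈ K, 2 * e x :=
  (natDegree_prod_le _ _).trans (sum_le_sum fun x _ => A9_factor_deg _ _ _)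

private theorem A9_eval (K : Finset κ) (a b : κ → ℂ) (e : κ → ℕ) {z : ℂ} (hz : z ≠ 0) :
    (∏ x ∈ K, (C (a x) * X ^ (2 * e x) + C (b x)) : ℂ[X]).eval z =
      (∏ x ∈ K, z ^ e x) * ∏ x ∈ K, (a x * z ^ e x + b x * (z ^ e x)⁻¹) := by
  rw [eval_prod, ← prod_mul_distrib]
  refine prod_congr rfl fun x _ => ?_
  have h1 : z ^ e x ≠ 0 := pow_ne_zero _ hz
  simp only [eval_add, eval_mul, eval_C, eval_pow, eval_X]
  rw [two_mul, pow_add]
  field_simp

theorem laurent_zeros (he : ∀ x ∈ K, 1 ≤ e x) (hab : ∀ x ∈ K, a x ≠ 0 ∨ b x ≠ 0) {Z : Finset ℂ}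
    (hcard : ∑ x ∈ K, 2 * e x < Z.card)
    (hZ : ∀ z ∈ Z, z ≠ 0 ∧ ∏ x ∈ K, (a x * z ^ e x + b x * (z ^ e x)⁻¹) = 0) : False := by
  refine A9_prod_ne he hab (eq_zero_of_natDegree_lt_card_of_eval_eq_zero' _ Z (fun z hz => ?_)
    (lt_of_le_of_lt (A9_prod_deg K a b e) hcard))
  rw [A9_eval K a b e (hZ z hz).1, (hZ z hz).2, mul_zero]

theorem laurent (hK : K.Nonempty) (h : ∀ x ∈ K, NF (r x) (J x) (w x) (β x))
    (hn : ∀ x ∈ K, 1 ≤ n x) (he : ∀ x ∈ K, 1 ≤ e x) (hab : ∀ x ∈ K, a x ≠ 0 ∨ b x ≠ 0) {c : ℂ}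
    (hc : c ≠ 0) {Z : Finset ℂ}
    (hcard : ∑ x ∈ K, (4 * e x + 2 * (n x * (r x * (J x).card))) < Z.card)
    (hZ : ∀ z ∈ Z, z ≠ 0 ∧ (∀ x ∈ K, ∀ j ∈ J x, w x j * z ^ n x ≠ 1) ∧
      (∏ x ∈ K, GG (r x) (J x) (w x) (β x) (z ^ n x)) ^ 2 =
        c * (∏ x ∈ K, (a x * z ^ e x + b x * (z ^ e x)⁻¹)) ^ 2) : False := by
  set F : ℂ[X] := ∏ x ∈ K, (C (a x) * X ^ (2 * e x) + C (b x)) with hF
  set D : ℂ[X] := ∏ x ∈ K, (dd (r x) (J x) (w x)).comp (X ^ n x) with hD
  set N : ℂ[X] := ∏ x ∈ K, (nn (r x) (J x) (w x) (β x)).comp (X ^ n x) with hN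
  set E : ℕ := ∑ x ∈ K, e x with hE
  have hFne : F ≠ 0 := A9_prod_ne he hab
  -- degrees
  have hD0 : D.coeff 0 = 1 := by
    rw [coeff_zero_eq_eval_zero, hD, eval_prod]
    refine prod_eq_one fun x hx => ?_
    rw [eval_comp, eval_pow, eval_X, zero_pow (by have := hn x hx; omega), dd_eval_zero]
  have hDne : D ≠ 0 := by
    intro h0
    rw [h0, coeff_zero] at hD0
    exact one_ne_zero hD0.symm
  have hDdeg : D.natDegree = ∑ x ∈ K, n x * (r x * (J x).card) := by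
    rw [hD, natDegree_prod]
    · refine sum_congr rfl fun x hx => ?_
      rw [natDegree_comp, natDegree_X_pow, dd_natDegree (h x hx).w_ne, mul_comm]
    · intro x hx h0
      exact hDne (by rw [hD]; exact prod_eq_zero hx h0)
  have hNdeg : N.natDegree + ∑ x ∈ K, n x ≤ ∑ x ∈ K, n x * (r x * (J x).card) := by
    have h1 : N.natDegree ≤ ∑ x ∈ K, n x * (r x * (J x).card - 1) := by
      rw [hN]
      refine (natDegree_prod_le _ _).trans (sum_le_sum fun x hx => ?_)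
      refine natDegree_comp_le.trans ?_
      rw [natDegree_X_pow, mul_comm]
      apply Nat.mul_le_mul_left
      have := nn_natDegree (h x hx)
      omega
    calc N.natDegree + ∑ x ∈ K, n x ≤
        ∑ x ∈ K, n x * (r x * (J x).card - 1) + ∑ x ∈ K, n x := by omega
      _ = ∑ x ∈ K, n x * (r x * (J x).card) := by
        rw [← sum_add_distrib]
        refine sum_congr rfl fun x hx => ?_
        have := nn_natDegree (h x hx)
        obtain ⟨t, ht⟩ : ∃ t, r x * (J x).card = t + 1 := ⟨r x * (J x).card - 1, by omega⟩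
        rw [ht, Nat.add_sub_cancel]
        ring
  have hFdeg : F.natDegree ≤ 2 * E := by
    refine (A9_prod_deg K a b e).trans (le_of_eq ?_)
    rw [hE, mul_sum]
  have hsum : ∑ x ∈ K, (4 * e x + 2 * (n x * (r x * (J x).card))) =
      4 * E + 2 * ∑ x ∈ K, n x * (r x * (J x).card) := by
    rw [sum_add_distrib, hE, mul_sum, mul_sum]
  -- the identity
  have hid : X ^ (2 * E) * N ^ 2 = C c * F ^ 2 * D ^ 2 := by
    have hz : X ^ (2 * E) * N ^ 2 - C c * F ^ 2 * D ^ 2 = 0 := by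
      refine eq_zero_of_natDegree_lt_card_of_eval_eq_zero' _ Z (fun z hz => ?_) ?_
      · obtain ⟨h1, h2, h3⟩ := hZ z hz
        have hNz : N.eval z = (∏ x ∈ K, GG (r x) (J x) (w x) (β x) (z ^ n x)) * D.eval z := by
          rw [hN, hD, eval_prod, eval_prod, ← prod_mul_distrib]
          refine prod_congr rfl fun x hx => ?_
          rw [eval_comp, eval_comp, eval_pow, eval_X, nn_eval (h2 x hx)]
        have hFz := A9_eval K a b e h1
        rw [← hF] at hFz
        have hEz : z ^ (2 * E) = (∏ x ∈ K, z ^ e x) ^ 2 := by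
          rw [prod_pow_eq_pow_sum, ← pow_mul, hE, mul_comm]
        rw [eval_sub, eval_mul, eval_mul, eval_mul, eval_pow, eval_pow, eval_pow, eval_pow, eval_X,
          eval_C, hNz, hFz, hEz, mul_pow, h3]
        ring
      · refine lt_of_le_of_lt ?_ hcard
        rw [hsum]
        refine (natDegree_sub_le _ _).trans (max_le ?_ ?_)
        · refine natDegree_mul_le.trans ?_
          rw [natDegree_X_pow]
          have := @natDegree_pow_le _ _ N 2
          omega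
        · refine natDegree_mul_le.trans ?_
          have h1 := @natDegree_pow_le _ _ D 2
          have h2 := @natDegree_pow_le _ _ F 2
          have h3 : (C c * F ^ 2).natDegree ≤ (F ^ 2).natDegree := natDegree_C_mul_le _ _
          omega
    exact sub_eq_zero.mp hz
  -- divisibility
  have hdvd : (X : ℂ[X]) ^ (2 * E + 2 * ∑ x ∈ K, n x) ∣ F ^ 2 := by
    have h1 : (X : ℂ[X]) ^ (∑ x ∈ K, n x) ∣ N := by
      rw [← prod_pow_eq_pow_sum, hN]
      refine prod_dvd_prod_of_dvd _ _ fun x hx => ?_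
      have h2 : (X : ℂ[X]) ∣ nn (r x) (J x) (w x) (β x) := by
        rw [X_dvd_iff, coeff_zero_eq_eval_zero]
        exact nn_zero (h x hx)
      obtain ⟨q, hq⟩ := h2
      rw [hq, mul_comp, X_comp]
      exact dvd_mul_right _ _
    have h2 : (X : ℂ[X]) ^ (2 * E + 2 * ∑ x ∈ K, n x) ∣ (C c * F ^ 2) * D ^ 2 := by
      rw [← hid, pow_add]
      refine mul_dvd_mul_left _ ?_
      rw [mul_comm 2, pow_mul]
      exact pow_dvd_pow_of_dvd h1 2
    have h3 : ¬ (X : ℂ[X]) ∣ D ^ 2 := by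
      intro h4
      have h5 := prime_X.dvd_of_dvd_pow h4
      rw [X_dvd_iff, hD0] at h5
      exact one_ne_zero h5
    have h4 := prime_X.pow_dvd_of_dvd_mul_right _ h3 h2
    have h5 : ¬ (X : ℂ[X]) ∣ C c := by
      rw [X_dvd_iff, coeff_C_zero]
      exact hc
    exact prime_X.pow_dvd_of_dvd_mul_left _ h5 h4
  have hle := natDegree_le_of_dvd hdvd (pow_ne_zero 2 hFne)
  rw [natDegree_X_pow, natDegree_pow] at hle
  have hdeg := congrArg natDegree hid
  have hNle : (X ^ (2 * E) * N ^ 2 : ℂ[X]).natDegree ≤ 2 * E + 2 * N.natDegree := by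
    refine natDegree_mul_le.trans ?_
    rw [natDegree_X_pow]
    have := @natDegree_pow_le _ _ N 2
    omega
  have hR : (C c * F ^ 2 * D ^ 2 : ℂ[X]).natDegree = 2 * F.natDegree + 2 * D.natDegree := by
    rw [natDegree_mul (mul_ne_zero (C_ne_zero.mpr hc) (pow_ne_zero 2 hFne)) (pow_ne_zero 2 hDne),
      natDegree_C_mul hc, natDegree_pow, natDegree_pow]
  have hpos : 0 < ∑ x ∈ K, n x := by
    obtain ⟨x, hx⟩ := hK
    exact lt_of_lt_of_le (hn x hx) (single_le_sum (f := n) (fun _ _ => Nat.zero_le _) hx)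
  rw [hdeg, hR, hDdeg] at hNle
  omega

end Pool.Agent.GSX
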