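import Pool.Agent.GSP.A3
import Mathlib.NumberTheory.LSeries.Nonvanishing
import Mathlib.NumberTheory.LSeries.HurwitzZetaEven

/-!
# The sums of `χ(j) / sin² (π j / N)` for even characters

For `0 < x < 1`: `∑_(n ∈ ℤ) 1 / (n + x) ^ 2 = π ^ 2 / sin² (π x) = π ^ 2 (1 + ct x ^ 2)` (for example
from the lemmas on `cotP 2` in `Pool/Agent/GSP` or `Pool/Agent/GSG`, `rg cotP`, or from Mathlib's
`cot` series). By `HurwitzZeta.hasSum_int_hurwitzZetaEven` the left side is `2 hurwitzZetaEven x 2`.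
By `ZMod.LFunction_def_even` and `DirichletCharacter.LFunction`,
`L(χ, 2) = N ^ (-2) ∑_j χ(j) hurwitzZetaEven (j / N) 2` (`χ 0 = 0` as `N ≥ 2`), so the sum of the
statement is `2 N ^ 2 L(χ, 2) / π ^ 2`, and `L(χ, 2) ≠ 0`
(`DirichletCharacter.LFunction_ne_zero_of_one_le_re`).
-/

set_option autoImplicit false

open Finset

namespace Pool.Agent.GSX

open Pool.Agent.GSP

private theorem B1_hurwitz {N : ℕ} [NeZero N] {j : ZMod N} (hj : j ≠ 0) :
    HurwitzZeta.hurwitzZetaEven (ZMod.toAddCircle j) 2 =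
      ((Real.pi ^ 2 / 2 : ℝ) : ℂ) * (1 + ((ct ((j.val : ℝ) / N) : ℝ) : ℂ) ^ 2) := by
  have hN0 : (0 : ℝ) < N := by exact_mod_cast Nat.pos_of_ne_zero (NeZero.ne N)
  have hv : 0 < j.val := Nat.pos_of_ne_zero fun h => hj ((ZMod.val_eq_zero j).1 h)
  have hlt : j.val < N := ZMod.val_lt j
  have hz0 : (0 : ℝ) < (j.val : ℝ) / N := div_pos (by exact_mod_cast hv) hN0
  have hz1 : (j.val : ℝ) / N < 1 := (div_lt_one hN0).2 (by exact_mod_cast hlt)
  have hz : ∀ n : ℤ, (j.val : ℝ) / N ≠ n := by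
    intro n hn
    rw [hn] at hz0 hz1
    have h1 : (0 : ℤ) < n := by exact_mod_cast hz0
    have h2 : n < (1 : ℤ) := by exact_mod_cast hz1
    omega
  have h1 := cot_tsum (r := 2) le_rfl hz
  have h2 : ((cotP 2).map (algebraMap ℚ ℝ)).eval (ct ((j.val : ℝ) / N)) = 1 + ct ((j.val : ℝ) / N) ^ 2 := by
    simp [cotP]
  rw [h2] at h1
  have h3 := (Complex.hasSum_ofReal.2 h1).mul_left (1 / 2)
  have h4 := HurwitzZeta.hasSum_int_hurwitzZetaEven ((j.val : ℝ) / N) (s := 2) (by norm_num)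
  have e : ZMod.toAddCircle j = (((j.val : ℝ) / N : ℝ) : UnitAddCircle) := by
    rw [ZMod.toAddCircle_apply]
  rw [e]
  have h5 := h4.unique (h3.congr_fun fun n => ?_)
  · rw [h5]
    push_cast
    ring
  · rw [Complex.cpow_ofNat]
    have h6 : ((|(n : ℝ) + (j.val : ℝ) / N| : ℝ) : ℂ) ^ 2 = ((((n : ℝ) + (j.val : ℝ) / N) ^ 2 : ℝ) : ℂ) := by
      rw [← Complex.ofReal_pow, sq_abs]
    rw [h6]
    push_cast
    ring

theorem char_sum {N : ℕ} [NeZero N] (hN : 2 ≤ N) (χ : DirichletCharacter ℂ N) (hχ : χ.Even) :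
    ∑ j : ZMod N, χ j * (1 + ((ct ((j.val : ℝ) / N) : ℝ) : ℂ) ^ 2) ≠ 0 := by
  have : Fact (1 < N) := ⟨by omega⟩
  have h1 : DirichletCharacter.LFunction χ 2 ≠ 0 :=
    DirichletCharacter.LFunction_ne_zero_of_one_le_re χ (Or.inr (by norm_num)) (by norm_num)
  have h2 : DirichletCharacter.LFunction χ 2 = (N : ℂ) ^ (-2 : ℂ) *
      ∑ j : ZMod N, χ j * HurwitzZeta.hurwitzZetaEven (ZMod.toAddCircle j) 2 :=
    ZMod.LFunction_def_even hχ.to_fun 2
  intro h0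
  apply h1
  rw [h2]
  have h3 : ∑ j : ZMod N, χ j * HurwitzZeta.hurwitzZetaEven (ZMod.toAddCircle j) 2 =
      ((Real.pi ^ 2 / 2 : ℝ) : ℂ) * ∑ j : ZMod N, χ j * (1 + ((ct ((j.val : ℝ) / N) : ℝ) : ℂ) ^ 2) := by
    rw [Finset.mul_sum]
    refine Finset.sum_congr rfl fun j _ => ?_
    by_cases hj : j = 0
    · subst hj
      rw [MulChar.map_zero]
      ring
    · rw [B1_hurwitz hj]
      ring
  rw [h3, h0, mul_zero, mul_zero]

end Pool.Agent.GSX
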