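import Pool.Agent.GSX.B1

/-!
# The numbers `1 / sin² (π v / N)` are independent (Okada)

Let `f(j) = 1 + ct (j.val / N) ^ 2`; it is even: `f(-j) = f(j)`.

For an even character `χ`: `0 = ∑_u χ(u) ∑_j β_j f(u v_j) = ∑_j β_j χ(v_j)⁻¹ ∑_u χ(u) f(u)`, and
`∑_u χ(u) f(u) ≠ 0` by `char_sum` (`χ` vanishes at the non-units; the sum over the units is the sum
over `ZMod N`). Hence `∑_j β_j χ⁻¹(v_j) = 0` for all even `χ`, so `∑_j β_j χ(v_j) = 0` for all even `χ`.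
Hence `∑_j β_j (χ(v_j) + χ(-v_j)) = 0` for ALL characters (for odd ones the bracket is `0`).
Multiply by `χ(v_i)⁻¹`, sum over all `χ` and use the orthogonality
(`DirichletCharacter.sum_char_inv_mul_char_eq`): only `j = i` contributes, with `β_i φ(N)` or
`2 β_i φ(N)` (if `v_i = -v_i`). So `β_i = 0`.
-/

set_option autoImplicit false

open Finset

namespace Pool.Agent.GSX

open Pool.Agent.GSP

private theorem B2_units_sum {N : ℕ} [NeZero N] (χ : DirichletCharacter ℂ N) (f : ZMod N → ℂ) :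
    ∑ u : (ZMod N)ˣ, χ (u : ZMod N) * f (u : ZMod N) = ∑ j : ZMod N, χ j * f j := by
  refine Fintype.sum_of_injective (fun u : (ZMod N)ˣ => (u : ZMod N)) Units.val_injective _ _ ?_ ?_
  · intro j hj
    have hnu : ¬ IsUnit j := by
      rintro ⟨u, rfl⟩
      exact hj ⟨u, rfl⟩
    rw [χ.map_nonunit hnu, zero_mul]
  · intro u
    rfl

private theorem B2_even {N : ℕ} [NeZero N] (hN : 2 ≤ N) {ι : Type} (J : Finset ι)
    (v : ι → (ZMod N)ˣ) (β : ι → ℂ)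
    (h : ∀ u : (ZMod N)ˣ, ∑ j ∈ J, β j *
      (1 + ((ct ((((u * v j : (ZMod N)ˣ) : ZMod N).val : ℝ) / N) : ℝ) : ℂ) ^ 2) = 0)
    (χ : DirichletCharacter ℂ N) (hχ : χ.Even) :
    ∑ j ∈ J, β j * χ (((v j)⁻¹ : (ZMod N)ˣ) : ZMod N) = 0 := by
  set f : ZMod N → ℂ := fun j => 1 + ((ct ((j.val : ℝ) / N) : ℝ) : ℂ) ^ 2 with hf
  have hS : (∑ u : (ZMod N)ˣ, χ (u : ZMod N) * f (u : ZMod N)) ≠ 0 := by
    rw [B2_units_sum χ f]
    exact char_sum hN χ hχ
  have h1 : ∑ u : (ZMod N)ˣ, χ (u : ZMod N) * ∑ j ∈ J, β j * f ((u * v j : (ZMod N)ˣ) : ZMod N)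
      = 0 := by
    refine Finset.sum_eq_zero fun u _ => ?_
    have := h u
    rw [hf]
    simp only
    rw [this, mul_zero]
  have h2 : ∑ u : (ZMod N)ˣ, χ (u : ZMod N) * ∑ j ∈ J, β j * f ((u * v j : (ZMod N)ˣ) : ZMod N)
      = (∑ j ∈ J, β j * χ (((v j)⁻¹ : (ZMod N)ˣ) : ZMod N)) *
        ∑ u : (ZMod N)ˣ, χ (u : ZMod N) * f (u : ZMod N) := by
    rw [Finset.sum_mul]
    simp only [Finset.mul_sum]
    rw [Finset.sum_comm]
    refine Finset.sum_congr rfl fun j _ => ?_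
    rw [← Fintype.sum_equiv (Equiv.mulRight (v j))
      (fun u : (ZMod N)ˣ => β j * χ (((v j)⁻¹ : (ZMod N)ˣ) : ZMod N) *
        (χ ((u * v j : (ZMod N)ˣ) : ZMod N) * f ((u * v j : (ZMod N)ˣ) : ZMod N)))
      (fun u : (ZMod N)ˣ => β j * χ (((v j)⁻¹ : (ZMod N)ˣ) : ZMod N) *
        (χ (u : ZMod N) * f (u : ZMod N)))
      (fun u => rfl)]
    refine Finset.sum_congr rfl fun u _ => ?_
    have h3 : χ (((v j)⁻¹ : (ZMod N)ˣ) : ZMod N) * χ ((u * v j : (ZMod N)ˣ) : ZMod N)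
        = χ (u : ZMod N) := by
      rw [← map_mul, ← Units.val_mul]
      congr 2
      rw [mul_comm u, inv_mul_cancel_left]
    calc χ (u : ZMod N) * (β j * f ((u * v j : (ZMod N)ˣ) : ZMod N))
        = β j * χ (u : ZMod N) * f ((u * v j : (ZMod N)ˣ) : ZMod N) := by ring
      _ = _ := by rw [← h3]; ring
  rw [h2] at h1
  exact (mul_eq_zero.1 h1).resolve_right hS

theorem indep {N : ℕ} [NeZero N] (hN : 2 ≤ N) {ι : Type} (J : Finset ι) (v : ι → (ZMod N)ˣ)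
    (hv : ∀ i ∈ J, ∀ j ∈ J, i ≠ j → v i ≠ v j ∧ v i ≠ -v j) (β : ι → ℂ)
    (h : ∀ u : (ZMod N)ˣ, ∑ j ∈ J, β j *
      (1 + ((ct ((((u * v j : (ZMod N)ˣ) : ZMod N).val : ℝ) / N) : ℝ) : ℂ) ^ 2) = 0) :
    ∀ j ∈ J, β j = 0 := by
  intro i hi
  have hall : ∀ χ : DirichletCharacter ℂ N,
      ∑ j ∈ J, β j * (χ (((v j)⁻¹ : (ZMod N)ˣ) : ZMod N)
        + χ (-(((v j)⁻¹ : (ZMod N)ˣ) : ZMod N))) = 0 := by
    intro χ
    rcases χ.even_or_odd with he | ho
    · have h0 := B2_even hN J v β h χ he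
      have h1 : ∀ x : ZMod N, χ (-x) = χ x := fun x => DirichletCharacter.Even.eval_neg χ x he
      simp only [h1, ← two_mul]
      have : ∑ j ∈ J, β j * (2 * χ (((v j)⁻¹ : (ZMod N)ˣ) : ZMod N))
          = 2 * ∑ j ∈ J, β j * χ (((v j)⁻¹ : (ZMod N)ˣ) : ZMod N) := by
        rw [Finset.mul_sum]
        exact Finset.sum_congr rfl fun j _ => by ring
      rw [this, h0, mul_zero]
    · have h1 : ∀ x : ZMod N, χ (-x) = -χ x := fun x => DirichletCharacter.Odd.eval_neg χ x ho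
      refine Finset.sum_eq_zero fun j _ => ?_
      rw [h1]
      ring
  have h1 : ∑ χ : DirichletCharacter ℂ N, χ (v i : ZMod N) *
      ∑ j ∈ J, β j * (χ (((v j)⁻¹ : (ZMod N)ˣ) : ZMod N)
        + χ (-(((v j)⁻¹ : (ZMod N)ˣ) : ZMod N))) = 0 :=
    Finset.sum_eq_zero fun χ _ => by rw [hall χ, mul_zero]
  have h2 : ∑ χ : DirichletCharacter ℂ N, χ (v i : ZMod N) *
      ∑ j ∈ J, β j * (χ (((v j)⁻¹ : (ZMod N)ˣ) : ZMod N)
        + χ (-(((v j)⁻¹ : (ZMod N)ˣ) : ZMod N)))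
      = ∑ j ∈ J, β j * ((if (v j : ZMod N) = (v i : ZMod N) then (N.totient : ℂ) else 0)
        + (if ((-(v j) : (ZMod N)ˣ) : ZMod N) = (v i : ZMod N) then (N.totient : ℂ) else 0)) := by
    simp only [Finset.mul_sum]
    rw [Finset.sum_comm]
    refine Finset.sum_congr rfl fun j _ => ?_
    rw [← DirichletCharacter.sum_char_inv_mul_char_eq ℂ (v j).isUnit (v i : ZMod N),
      ← DirichletCharacter.sum_char_inv_mul_char_eq ℂ (-(v j)).isUnit (v i : ZMod N),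
      ← Finset.sum_add_distrib, Finset.mul_sum]
    refine Finset.sum_congr rfl fun χ _ => ?_
    have e1 : ((v j : ZMod N))⁻¹ = (((v j)⁻¹ : (ZMod N)ˣ) : ZMod N) := ZMod.inv_coe_unit (v j)
    have e2 : (((-(v j) : (ZMod N)ˣ) : ZMod N))⁻¹ = -(((v j)⁻¹ : (ZMod N)ˣ) : ZMod N) := by
      rw [ZMod.inv_coe_unit (-(v j)), inv_neg, Units.val_neg]
    rw [e1, e2]
    ring
  rw [h2] at h1
  have h3 : ∑ j ∈ J, β j * ((if (v j : ZMod N) = (v i : ZMod N) then (N.totient : ℂ) else 0)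
        + (if ((-(v j) : (ZMod N)ˣ) : ZMod N) = (v i : ZMod N) then (N.totient : ℂ) else 0))
      = β i * ((if (v i : ZMod N) = (v i : ZMod N) then (N.totient : ℂ) else 0)
        + (if ((-(v i) : (ZMod N)ˣ) : ZMod N) = (v i : ZMod N) then (N.totient : ℂ) else 0)) := by
    refine Finset.sum_eq_single_of_mem i hi fun j hj hji => ?_
    have hne := hv i hi j hj (Ne.symm hji)
    have n1 : ¬ ((v j : ZMod N) = (v i : ZMod N)) := fun e => hne.1 (Units.ext e.symm)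
    have n2 : ¬ (((-(v j) : (ZMod N)ˣ) : ZMod N) = (v i : ZMod N)) :=
      fun e => hne.2 (Units.ext e.symm)
    rw [if_neg n1, if_neg n2, add_zero, mul_zero]
  rw [h3, if_pos rfl] at h1
  have hφ : 0 < N.totient := Nat.totient_pos.2 (NeZero.pos N)
  have hφ' : (N.totient : ℂ) ≠ 0 := by exact_mod_cast hφ.ne'
  rcases mul_eq_zero.1 h1 with h4 | h4
  · exact h4
  · exfalso
    split_ifs at h4
    · rw [← two_mul] at h4
      exact hφ' ((mul_eq_zero.1 h4).resolve_left two_ne_zero)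
    · rw [add_zero] at h4
      exact hφ' h4

end Pool.Agent.GSX
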