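import Pool.Agent.GSN.A0

/-!
# The denominators of `al S T - k / 2`

Let `Q = ∏ S`, `n_T = 2 Q al S T = ∑_(p ∈ S) ± Q / p` (sign `+` for `p ∈ T`) and `v'_T = n_T - k Q`, so
that `al S T - k / 2 = v'_T / (2 Q)`.

* `v'_T` is prime to each `p ∈ S` (only the summand of `p` is not divisible by `p`, and `Q / p` is
  prime to `p`, as the leaves are pairwise coprime), hence prime to `Q`.
* `Q` even: then `v'_T` is odd, `M = 2 Q`, `v = v'_T`.
* `Q` odd: all `Q / p` are odd, `n_T ≡ |S|` and `v'_T ≡ |S| + k` modulo `2`. If `|S| + k` is odd, then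
  `M = 2 Q`, `v = v'_T`. If `|S| + k` is even, then `M = Q`, `v = v'_T / 2`.
* The last statement: if `M = 2 Q` then `u' = u` (a number prime to `2 Q` is odd). If `M = Q` is odd,
  take `u' = u` or `u' = u + Q`, the odd one.
-/

set_option autoImplicit false

open Finset

namespace Pool.Agent.GSX

open Pool.Agent.GSP Pool.Agent.GSG

/-- The sign of `p`. -/
private def B4_e (T : Finset ℕ) (p : ℕ) : ℤ := if p ∈ T then 1 else -1

/-- The product of the other leaves. -/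
private def B4_c (S : Finset ℕ) (p : ℕ) : ℤ := ∏ q ∈ S.erase p, (q : ℤ)

private def B4_n (S T : Finset ℕ) : ℤ := ∑ p ∈ S, B4_e T p * B4_c S p

private theorem B4_mul {S : Finset ℕ} {p : ℕ} (hp : p ∈ S) : (p : ℤ) * B4_c S p = ∏ q ∈ S, (q : ℤ) :=
  Finset.mul_prod_erase S (fun q => (q : ℤ)) hp

private theorem B4_al {S T : Finset ℕ} (hT : T ⊆ S) (h0 : ∀ p ∈ S, 0 < p) :
    2 * ((∏ q ∈ S, (q : ℤ) : ℤ) : ℚ) * al S T = (B4_n S T : ℚ) := by
  unfold al B4_n
  have h1 : ∀ p ∈ S, ((∏ q ∈ S, (q : ℤ) : ℤ) : ℚ) * (1 / (p : ℚ)) = (B4_c S p : ℚ) := by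
    intro p hp
    rw [← B4_mul hp]
    have := h0 p hp
    push_cast
    field_simp
  have h2 : ((∏ q ∈ S, (q : ℤ) : ℤ) : ℚ) * ((∑ p ∈ T, (1 : ℚ) / p) - ∑ p ∈ S \ T, (1 : ℚ) / p) =
      ∑ p ∈ S, (B4_e T p : ℚ) * (B4_c S p : ℚ) := by
    rw [← Finset.sum_sdiff hT, mul_sub, Finset.mul_sum, Finset.mul_sum, sub_eq_neg_add, ← Finset.sum_neg_distrib]
    congr 1
    · refine Finset.sum_congr rfl fun p hp => ?_
      have hp' := Finset.mem_sdiff.1 hp
      rw [h1 p hp'.1]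
      simp [B4_e, hp'.2]
    · refine Finset.sum_congr rfl fun p hp => ?_
      rw [h1 p (hT hp)]
      simp [B4_e, hp]
  push_cast at h2 ⊢
  linarith

private theorem B4_cop {S : Finset ℕ} (hc : ∀ p ∈ S, ∀ q ∈ S, p ≠ q → Nat.Coprime p q) (T : Finset ℕ) (k : ℤ) {p : ℕ} (hp : p ∈ S) :
    IsCoprime (B4_n S T - k * ∏ q ∈ S, (q : ℤ)) (p : ℤ) := by
  have h1 : B4_n S T = B4_e T p * B4_c S p + ∑ q ∈ S.erase p, B4_e T q * B4_c S q :=
    (Finset.add_sum_erase S (fun q => B4_e T q * B4_c S q) hp).symm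
  have h2 : (p : ℤ) ∣ ∑ q ∈ S.erase p, B4_e T q * B4_c S q := by
    refine Finset.dvd_sum fun q hq => Dvd.dvd.mul_left ?_ _
    exact Finset.dvd_prod_of_mem (s := S.erase q) (fun x : ℕ => (x : ℤ)) (Finset.mem_erase.2 ⟨(Finset.ne_of_mem_erase hq).symm, hp⟩)
  obtain ⟨w, hw⟩ := h2
  have h3 : B4_n S T - k * ∏ q ∈ S, (q : ℤ) = B4_e T p * B4_c S p + (p : ℤ) * (w - k * B4_c S p) := by
    rw [h1, hw, ← B4_mul hp]
    ring
  rw [h3]
  refine IsCoprime.add_mul_left_left ?_ _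
  refine IsCoprime.mul_left ?_ ?_
  · unfold B4_e
    split_ifs
    · exact isCoprime_one_left
    · exact isCoprime_one_left.neg_left
  · refine IsCoprime.prod_left fun q hq => ?_
    exact Nat.isCoprime_iff_coprime.2 (hc q (Finset.mem_of_mem_erase hq) p hp (Finset.ne_of_mem_erase hq))

private theorem B4_par {S : Finset ℕ} (hQ : Odd (∏ q ∈ S, (q : ℤ))) (T : Finset ℕ) : Even (B4_n S T - S.card) := by
  have h1 : B4_n S T - S.card = ∑ p ∈ S, (B4_e T p * B4_c S p - 1) := by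
    rw [Finset.sum_sub_distrib]
    simp [B4_n]
  rw [h1]
  refine Finset.even_sum _ fun p hp => ?_
  have h2 : Odd (B4_c S p) := by
    rw [← B4_mul hp] at hQ
    exact (Int.odd_mul.1 hQ).2
  have h3 : Odd (B4_e T p) := by
    unfold B4_e
    split_ifs
    · exact odd_one
    · exact odd_neg_one
  exact (h3.mul h2).sub_odd odd_one

theorem frac {S : Finset ℕ} {k : ℕ} (hS : LeafG S k) (hne : S.Nonempty) :
    ∃ M : ℕ, 2 ≤ M ∧ (∀ T ⊆ S, ∃ v : ℤ, (al S T - k / 2 : ℚ) = v / M ∧ IsCoprime v (M : ℤ)) ∧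
      ∀ u : ℤ, IsCoprime u (M : ℤ) → ∃ u' : ℤ, UG S u' ∧ (M : ℤ) ∣ u' - u := by
  classical
  set Q : ℤ := ∏ q ∈ S, (q : ℤ) with hQdef
  have h2 := hS.two_le
  have hQn : Q = ((∏ q ∈ S, q : ℕ) : ℤ) := by
    rw [hQdef]
    push_cast
    rfl
  have hQ2 : 2 ≤ ∏ q ∈ S, q := by
    obtain ⟨p, hp⟩ := hne
    have h3 : 0 < ∏ q ∈ S, q := Finset.prod_pos fun q hq => hS.pos q hq
    exact (h2 p hp).trans (Nat.le_of_dvd h3 (Finset.dvd_prod_of_mem _ hp))
  have hQ0 : (Q : ℚ) ≠ 0 := by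
    rw [hQn]
    have : (0 : ℚ) < ((∏ q ∈ S, q : ℕ) : ℚ) := by exact_mod_cast (by omega : 0 < ∏ q ∈ S, q)
    exact_mod_cast this.ne'
  have hal : ∀ T ⊆ S, (al S T - k / 2 : ℚ) = ((B4_n S T - k * Q : ℤ) : ℚ) / (2 * Q) := by
    intro T hT
    have h3 := B4_al hT hS.pos
    rw [eq_div_iff (by simpa using hQ0)]
    push_cast
    push_cast at h3
    rw [← h3, hQdef]
    push_cast
    ring
  have hcQ : ∀ T, IsCoprime (B4_n S T - k * Q) Q := fun T => by
    rw [hQdef]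
    exact IsCoprime.prod_right fun p hp => B4_cop hS.coprime T k hp
  have hpQ : ∀ u : ℤ, IsCoprime u Q → ∀ p ∈ S, IsCoprime u (p : ℤ) := fun u hu p hp =>
    IsCoprime.of_isCoprime_of_dvd_right hu (by
      rw [hQdef]
      exact Finset.dvd_prod_of_mem (s := S) (fun x : ℕ => (x : ℤ)) hp)
  have hodd : ∀ v : ℤ, IsCoprime v 2 → Odd v := fun v hv => by
    rw [← Int.not_even_iff_odd]
    intro h
    have h4 := hv.isUnit_of_dvd' h.two_dvd dvd_rfl
    exact absurd (Int.isUnit_iff.1 h4) (by norm_num)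
  have hodd' : ∀ v : ℤ, Odd v → IsCoprime v 2 := fun v hv => by
    obtain ⟨w, rfl⟩ := hv
    exact ⟨1, -w, by ring⟩
  by_cases hc : Even Q ∨ Odd ((S.card : ℤ) + k)
  · have hvo : ∀ T, Odd (B4_n S T - k * Q) := by
      intro T
      rcases Int.even_or_odd Q with hQ | hQ
      · exact hodd _ (IsCoprime.of_isCoprime_of_dvd_right (hcQ T) hQ.two_dvd)
      · have hc' : Odd ((S.card : ℤ) + k) := by
          rcases hc with h | h
          · exact absurd hQ (Int.not_odd_iff_even.2 h)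
          · exact h
        have h3 := B4_par hQ T
        have h4 : B4_n S T - k * Q = (B4_n S T - S.card) + ((S.card : ℤ) + k) - k * (Q + 1) := by ring
        rw [h4]
        have h5 : Even (k * (Q + 1) : ℤ) := (hQ.add_odd odd_one).mul_left _
        exact (h3.add_odd hc').sub_even h5
    refine ⟨2 * ∏ q ∈ S, q, by omega, fun T hT => ⟨B4_n S T - k * Q, ?_, ?_⟩, fun u hu => ⟨u, ⟨?_, ?_⟩, by simp⟩⟩
    · rw [hal T hT, hQn]
      push_cast
      rfl
    · have : ((2 * ∏ q ∈ S, q : ℕ) : ℤ) = 2 * Q := by rw [hQn]; push_cast; rfl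
      rw [this]
      exact (hodd' _ (hvo T)).mul_right (hcQ T)
    · refine hodd u (IsCoprime.of_isCoprime_of_dvd_right hu ?_)
      push_cast
      exact dvd_mul_right _ _
    · refine hpQ u (IsCoprime.of_isCoprime_of_dvd_right hu ?_)
      rw [hQn]
      push_cast
      exact dvd_mul_left _ _
  · rw [not_or, Int.not_even_iff_odd, Int.not_odd_iff_even] at hc
    obtain ⟨hQ, hc⟩ := hc
    have hve : ∀ T, Even (B4_n S T - k * Q) := by
      intro T
      have h3 := B4_par hQ T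
      have h4 : B4_n S T - k * Q = (B4_n S T - S.card) + ((S.card : ℤ) + k) - k * (Q + 1) := by ring
      rw [h4]
      have h5 : Even (k * (Q + 1) : ℤ) := (hQ.add_odd odd_one).mul_left _
      exact (h3.add hc).sub h5
    refine ⟨∏ q ∈ S, q, hQ2, fun T hT => ?_, fun u hu => ?_⟩
    · obtain ⟨w, hw⟩ := hve T
      refine ⟨w, ?_, ?_⟩
      · have hQq : ((∏ q ∈ S, q : ℕ) : ℚ) = (Q : ℚ) := by
          rw [hQn]
          push_cast
          rfl
        rw [hal T hT, hw, hQq]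
        push_cast
        field_simp
        ring
      · rw [← hQn]
        have h3 := hcQ T
        rw [hw] at h3
        exact IsCoprime.of_isCoprime_of_dvd_left h3 ⟨2, by ring⟩
    · rw [← hQn] at hu ⊢
      rcases Int.even_or_odd u with h | h
      · refine ⟨u + Q, ⟨h.add_odd hQ, fun p hp => ?_⟩, by simp⟩
        have h3 : IsCoprime (u + Q) Q := by
          have := hu.add_mul_left_left 1
          rwa [mul_one] at this
        exact hpQ _ h3 p hp
      · exact ⟨u, ⟨h, hpQ u hu⟩, by simp⟩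

end Pool.Agent.GSX
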