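import Pool.Agent.GSX.B2
import Pool.Agent.GSX.B3
import Pool.Agent.GSX.B4

/-!
# The coefficient of `X ^ 2` does not vanish

Let `a = |S| ≥ 2`, `ex S k 0 = k + 2 - a ≥ 1`, `i = ex S k 0 + 1 - 2 = k + 1 - a`, `q ∈ S`. Suppose that
the coefficient vanishes at `s`. By `coeff_all` it vanishes at all `u` with `UG S u`; by
`Pool.H42.PF.coeff_YY` (`gg`, `cs`, `ct_eq`; `cotP 2 = 1 + X ^ 2`)
`∑_(T ∋ q) β_T (1 + ct (u al S T - k / 2) ^ 2) = 0`, `β_T = (-1) ^ |S \ T| tc k i (al S T)`.
Take `M` and `al S T - k / 2 = v_T / M` from `frac`. For odd `u` the numbers `u al S T - k / 2` and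
`u v_T / M` differ by the integer `(u - 1) k / 2`, and `ct` has the period `1`
(as in `Pool/Agent/GSN/A1.lean`, `ct_int`). So for each unit `ū` of `ZMod M`, lifted to some `u'` with
`UG S u'` by `frac`, `∑_(T ∋ q) β_T (1 + ct ((ū v_T).val / M) ^ 2) = 0`. The `v_T`, `T ∋ q`, are
different up to the sign modulo `M`: `v_T ≡ v_T'` gives `al S T - al S T' ∈ ℤ`, so `T = T'`
(`Pool.H42.PF.dvd_of_int` or `ww_inj` with `s = 1`), and `v_T ≡ -v_T'` gives
`al S T - al S (S \ T') ∈ ℤ`, so `T = S \ T'`, impossible as `q ∈ T` and `q ∈ T'`. By `indep` all `β_T`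
vanish, i.e. `tc k i (al S T) = 0` for all `T ∋ q`. But at most `k - 1 - i = a - 2` of the subsets
have this property (`GSN.card_bad`), and `2 ^ (a - 1) > a - 2` of them contain `q`
(`GSN.card_filter`).
-/

set_option autoImplicit false

open Finset

namespace Pool.Agent.GSX

open Pool.Agent.GSP Pool.Agent.GSG

private theorem B5_ct_int (x : ℝ) (n : ℤ) : ct (x + n) = ct x := by
  have h1 : Real.pi * (x + n) = Real.pi * x + n * Real.pi := by ring
  unfold ct
  rw [h1, Real.cos_add_int_mul_pi, Real.sin_add_int_mul_pi]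
  have h2 : ((-1 : ℝ) ^ n) ≠ 0 := zpow_ne_zero _ (by norm_num)
  rw [mul_div_mul_left _ _ h2]

private theorem B5_al_compl {S T : Finset ℕ} (hT : T ⊆ S) : al S (S \ T) = -al S T := by
  unfold al
  rw [Finset.sdiff_sdiff_eq_self hT]
  ring

private theorem B5_cotP (x : ℂ) : ((cotP 2).map (algebraMap ℚ ℂ)).eval x = 1 + x ^ 2 := by
  have h : cotP 2 = 1 + Polynomial.X ^ 2 := by
    simp [cotP]
  rw [h]
  simp

private theorem B5_gg (S : Finset ℕ) (k i q : ℕ) (u : ℤ) :
    Pool.H42.PF.gg S k i 2 q u 1 = ∑ T ∈ S.powerset.filter (fun T => q ∈ T),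
      ((-1) ^ (S \ T).card * (Pool.H42.PF.tc k i (al S T) : ℂ)) *
        (1 + ((ct (u * (al S T : ℝ) - k / 2) : ℝ) : ℂ) ^ 2) := by
  unfold Pool.H42.PF.gg Pool.H42.PF.cs
  refine Finset.sum_congr rfl fun T _ => ?_
  have h8 : Complex.I * (Complex.exp (2 * Real.pi * Complex.I * (u * (al S T : ℂ) - k / 2)) * 1 + 1) /
      (Complex.exp (2 * Real.pi * Complex.I * (u * (al S T : ℂ) - k / 2)) * 1 - 1) =
      ((ct (u * (al S T : ℝ) - k / 2) : ℝ) : ℂ) := by
    rw [Pool.H42.PF.ct_eq, mul_one]
    push_cast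
    rfl
  rw [h8, B5_cotP]

theorem coeff_two {S : Finset ℕ} {k : ℕ} (hS : LeafG S k) (h2 : 2 ≤ S.card)
    (he : S.card ≤ k + 1) {s : ℤ} (hs : UG S s) : (YY S k 0 s).coeff 2 ≠ 0 := by
  intro h0
  have hne : S.Nonempty := Finset.card_pos.1 (by omega)
  obtain ⟨q, hq⟩ := hne
  have hex : ex S k 0 + S.card = k + 2 := by
    unfold ex
    omega
  have hk := hS.one_le
  have hrr : Pool.Agent.GSN.rr S 0 ≤ 2 := by
    unfold Pool.Agent.GSN.rr
    omega
  have hall : ∀ u : ℤ, UG S u → (YY S k 0 u).coeff 2 = 0 := fun u hu =>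
    coeff_all hS ⟨q, hq⟩ 0 hrr (by omega) hs h0 hu
  set i := ex S k 0 + 1 - 2 with hi
  have hik : i < k := by omega
  have hgg : ∀ u : ℤ, UG S u → Pool.H42.PF.gg S k i 2 q u 1 = 0 := by
    intro u hu
    have h3 := Pool.H42.PF.coeff_YY (S := S) (k := k) (j := 0) hq (by omega) (r := 2) (by norm_num)
      (by omega) (by omega) u
    rw [hall u hu, Complex.ofReal_zero] at h3
    have h4 : ((∏ p ∈ S, (p : ℂ)) * (ex S k 0).factorial * (-1) ^ 2) ≠ 0 := by
      refine mul_ne_zero (mul_ne_zero ?_ ?_) (by norm_num)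
      · rw [Finset.prod_ne_zero_iff]
        intro p hp
        have := hS.pos p hp
        exact_mod_cast this.ne'
      · exact_mod_cast (Nat.factorial_pos _).ne'
    exact (mul_eq_zero.1 h3.symm).resolve_left h4
  obtain ⟨M, hM, hfr, hlift⟩ := frac hS ⟨q, hq⟩
  choose! v hv1 hv2 using hfr
  have : NeZero M := ⟨by omega⟩
  have hMR : (M : ℝ) ≠ 0 := by exact_mod_cast (by omega : M ≠ 0)
  have hMQ : (M : ℚ) ≠ 0 := by exact_mod_cast (by omega : M ≠ 0)
  have hunit : ∀ T, T ⊆ S → IsUnit ((v T : ℤ) : ZMod M) := fun T hT =>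
    (ZMod.coe_int_isUnit_iff_isCoprime _ _).2 (hv2 T hT).symm
  classical
  set V : Finset ℕ → (ZMod M)ˣ := fun T =>
    if h : IsUnit ((v T : ℤ) : ZMod M) then h.unit else 1 with hV
  have hVv : ∀ T, T ⊆ S → ((V T : (ZMod M)ˣ) : ZMod M) = ((v T : ℤ) : ZMod M) := by
    intro T hT
    rw [hV]
    simp only [dif_pos (hunit T hT), IsUnit.unit_spec]
  set β : Finset ℕ → ℂ := fun T =>
    (-1) ^ (S \ T).card * (Pool.H42.PF.tc k i (al S T) : ℂ) with hβ
  have hzero : ∀ T ∈ S.powerset.filter (fun T => q ∈ T), β T = 0 := by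
    refine indep hM (S.powerset.filter (fun T => q ∈ T)) V ?_ β ?_
    · intro T hT T' hT' hne
      rw [Finset.mem_filter, Finset.mem_powerset] at hT hT'
      refine ⟨fun h => hne ?_, fun h => ?_⟩
      · have h5 : ((v T : ℤ) : ZMod M) = ((v T' : ℤ) : ZMod M) := by
          rw [← hVv T hT.1, ← hVv T' hT'.1, h]
        have h6 : (M : ℤ) ∣ v T - v T' := by
          have := (ZMod.intCast_eq_intCast_iff_dvd_sub _ _ _).1 h5.symm
          exact this
        obtain ⟨n, hn⟩ := h6
        refine Pool.H42.PF.ww_inj (k := k) (s := 1) hS.two_le hS.coprime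
          (fun p _ => isCoprime_one_left) hT.1 hT'.1 (Pool.H42.PF.ww_eq_iff.2 ⟨n, ?_⟩)
        have h7 := hv1 T hT.1
        have h8 := hv1 T' hT'.1
        have h9 : ((v T : ℤ) : ℚ) - v T' = M * n := by exact_mod_cast hn
        have h10 : (al S T : ℚ) - al S T' = ((v T : ℤ) : ℚ) / M - v T' / M := by
          linarith
        push_cast
        rw [one_mul, one_mul, h10, ← sub_div, h9]
        field_simp
      · have h5 : ((v T : ℤ) : ZMod M) = ((-v T' : ℤ) : ZMod M) := by
          push_cast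
          rw [← hVv T hT.1, ← hVv T' hT'.1, h, Units.val_neg]
        have h6 : (M : ℤ) ∣ v T - (-v T') := (ZMod.intCast_eq_intCast_iff_dvd_sub _ _ _).1 h5.symm
        obtain ⟨n, hn⟩ := h6
        have hTT : T = S \ T' := by
          refine Pool.H42.PF.ww_inj (k := k) (s := 1) hS.two_le hS.coprime
            (fun p _ => isCoprime_one_left) hT.1 Finset.sdiff_subset
            (Pool.H42.PF.ww_eq_iff.2 ⟨n + k, ?_⟩)
          rw [B5_al_compl hT'.1]
          have h7 := hv1 T hT.1
          have h8 := hv1 T' hT'.1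
          have h9 : ((v T : ℤ) : ℚ) + v T' = M * n := by
            have : v T + v T' = M * n := by rw [← hn]; ring
            exact_mod_cast this
          have h10 : (al S T : ℚ) + al S T' = ((v T : ℤ) : ℚ) / M + v T' / M + k := by
            linarith
          have h11 : ((v T : ℤ) : ℚ) / M + v T' / M = n := by
            rw [← add_div, h9]
            field_simp
          push_cast
          rw [h11] at h10
          linarith
        have h12 := hT.2
        rw [hTT] at h12
        exact (Finset.mem_sdiff.1 h12).2 hT'.2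
    · intro u
      have hu0 : IsCoprime (((u : ZMod M).val : ℕ) : ℤ) (M : ℤ) := by
        rw [Nat.isCoprime_iff_coprime]
        exact ZMod.val_coe_unit_coprime u
      obtain ⟨u', hu', hdvd⟩ := hlift _ hu0
      have h5 := hgg u' hu'
      rw [B5_gg] at h5
      rw [← h5]
      refine Finset.sum_congr rfl fun T hT => ?_
      rw [Finset.mem_filter, Finset.mem_powerset] at hT
      have h6 : ct (((((u * V T : (ZMod M)ˣ) : ZMod M)).val : ℝ) / M) =
          ct (u' * (al S T : ℝ) - k / 2) := by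
        have h7 : ((((u * V T : (ZMod M)ˣ) : ZMod M).val : ℤ) : ZMod M) =
            ((u' * v T : ℤ) : ZMod M) := by
          have h8 : ((u' : ℤ) : ZMod M) = (u : ZMod M) := by
            have h9 := (ZMod.intCast_eq_intCast_iff_dvd_sub _ _ _).2 hdvd
            rw [← h9]
            push_cast
            exact ZMod.natCast_zmod_val _
          push_cast
          rw [ZMod.natCast_zmod_val, h8, hVv T hT.1]
        have h10 : (M : ℤ) ∣ (((u * V T : (ZMod M)ˣ) : ZMod M).val : ℤ) - u' * v T :=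
          (ZMod.intCast_eq_intCast_iff_dvd_sub _ _ _).1 h7.symm
        obtain ⟨n, hn⟩ := h10
        obtain ⟨m, hm⟩ := hu'.1
        have h11 : (((((u * V T : (ZMod M)ˣ) : ZMod M)).val : ℝ)) = u' * v T + M * n := by
          have : (((u * V T : (ZMod M)ˣ) : ZMod M).val : ℤ) = u' * v T + M * n := by
            rw [← hn]; ring
          exact_mod_cast this
        have h12 : (al S T : ℝ) - k / 2 = v T / M := by
          have h14 := congrArg (fun x : ℚ => (x : ℝ)) (hv1 T hT.1)
          push_cast at h14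
          exact h14
        have h13 : (((((u * V T : (ZMod M)ˣ) : ZMod M)).val : ℝ)) / M =
            (u' * (al S T : ℝ) - k / 2) + ((n - m * k : ℤ) : ℝ) := by
          rw [h11, add_div, mul_div_assoc, ← h12, mul_comm (M : ℝ) n, mul_div_assoc, div_self hMR, hm]
          push_cast
          ring
        rw [h13, B5_ct_int]
      rw [h6]
  have hsub : (S.powerset.filter fun T => q ∈ T) ⊆
      S.powerset.filter fun T => Pool.H42.PF.tc k i (al S T) = 0 := by
    intro T hT
    have h5 := hzero T hT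
    rw [Finset.mem_filter] at hT ⊢
    refine ⟨hT.1, ?_⟩
    rcases mul_eq_zero.1 h5 with h6 | h6
    · exact absurd h6 (pow_ne_zero _ (by norm_num))
    · exact_mod_cast h6
  have h5 := Finset.card_le_card hsub
  have h6 := Pool.Agent.GSN.card_bad hS hik
  rw [Pool.Agent.GSN.card_filter hq] at h5
  have h7 : S.card - 1 < 2 ^ (S.card - 1) := Nat.lt_two_pow_self
  omega

end Pool.Agent.GSX
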