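import Pool.Agent.GSX.B5
import Pool.Agent.GSG.M4

/-!
# The trailing degrees of the moments

* `trail_le`. For `|S| ≥ 2` and `|S| ≤ k + 1`: `coeff_two` and `natTrailingDegree_le_of_ne_zero`. For
  `|S| = k + 2` (so `|S| ≥ 3` by `k ≥ 1`): `ex S k 0 = 0`, so all coefficients of `X ^ n` with `n > 1`
  vanish (`GSN.coeff_gt`), and `YY ≠ 0` (`YYG_ne`), so `natTrailingDegree ≤ natDegree ≤ 1`. For
  `S = {q}`: the coefficient of `X ^ 3` (`rr S 0 = 3`, `GSN.coeff_eq`) is a non-zero constant times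
  `tc k (k - 1) (al S S) * cotP_3(ct y)`, `cotP_3(x) = x (1 + x ^ 2)`, where the Taylor coefficient is the
  leading coefficient `1 / (k - 1)!` and `y = s / (2 q) - k / 2`; `ct y = 0` would mean that
  `y + 1 / 2` is an integer, so `s / q` would be an integer, impossible for the unit `s` as `q ≥ 2`.
* `trail_empty`. By the definition `YY ∅ k 0 s` is a non-zero constant times
  `∑_(i < k) (binP k).coeff i * sg k (k + 3 - i) X ^ (k + 3 - i)`: the exponents are `≥ 4`, and the
  exponent `4` belongs to `i = k - 1`, with the coefficient `1 / (k - 1)! * sg k 4 ≠ 0`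
  (`(cotP 4).eval 0 = 1 / 3`, `bernoulli 4 = -1 / 30`).
* `trail_rr`: `GSN.trail`/`GSN.lemN` and `GSN.coeff_lt`.
-/

set_option autoImplicit false

open Finset

namespace Pool.Agent.GSX

open Pool.Agent.GSP Pool.Agent.GSG Pool.Agent.GSN Pool.H42.PF

private theorem B6_cotP2 : cotP 2 = 1 + Polynomial.X ^ 2 := by
  have h : cotP 2 = Polynomial.C (1 / ((0 : ℕ) + 1 : ℚ)) * (1 + Polynomial.X ^ 2) *
      Polynomial.derivative Polynomial.X := rfl
  rw [h]
  simp

private theorem B6_cotP3 : cotP 3 = Polynomial.X * (1 + Polynomial.X ^ 2) := by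
  have h : cotP 3 = Polynomial.C (1 / ((1 : ℕ) + 1 : ℚ)) * (1 + Polynomial.X ^ 2) *
      Polynomial.derivative (cotP 2) := rfl
  have h2 : Polynomial.derivative (1 + Polynomial.X ^ 2 : Polynomial ℚ) =
      Polynomial.C 2 * Polynomial.X := by
    simp only [Polynomial.derivative_add, Polynomial.derivative_one, Polynomial.derivative_X_pow,
      zero_add, Nat.cast_ofNat]
    norm_num
  have h3 : Polynomial.C (1 / ((1 : ℕ) + 1 : ℚ)) * Polynomial.C (2 : ℚ) = 1 := by
    rw [← Polynomial.C_mul]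
    norm_num
  rw [h, B6_cotP2, h2]
  linear_combination (1 + Polynomial.X ^ 2) * Polynomial.X * h3

private theorem B6_cotP4 : (cotP 4).eval 0 = 1 / 3 := by
  have h : cotP 4 = Polynomial.C (1 / ((2 : ℕ) + 1 : ℚ)) * (1 + Polynomial.X ^ 2) *
      Polynomial.derivative (cotP 3) := rfl
  rw [h, B6_cotP3]
  simp [Polynomial.eval_add, Polynomial.eval_mul]
  norm_num

private theorem B6_sg (k : ℕ) : sg k 4 ≠ 0 := by
  unfold sg
  split_ifs with h
  · rw [B6_cotP4]
    norm_num
  · rw [bernoulli_eq_bernoulli'_of_ne_one (by norm_num), bernoulli'_four]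
    norm_num [Nat.factorial]

private theorem B6_binP (k : ℕ) : (binP k).coeff (k - 1) = 1 / ((k - 1).factorial : ℚ) := by
  have hm : (∏ i ∈ range (k - 1), (Polynomial.X + Polynomial.C ((k : ℚ) / 2 - (i + 1)))).Monic :=
    Polynomial.monic_prod_of_monic _ _ fun i _ => Polynomial.monic_X_add_C _
  have hd : (∏ i ∈ range (k - 1), (Polynomial.X + Polynomial.C ((k : ℚ) / 2 - (i + 1)))).natDegree =
      k - 1 := by
    rw [Polynomial.natDegree_prod_of_monic _ _ fun i _ => Polynomial.monic_X_add_C _]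
    simp only [Polynomial.natDegree_X_add_C, Finset.sum_const, Finset.card_range, smul_eq_mul,
      mul_one]
  unfold binP
  rw [Polynomial.coeff_C_mul]
  have h1 := hm.coeff_natDegree
  rw [hd] at h1
  rw [h1, mul_one]

private theorem B6_tc {k : ℕ} (hk : 1 ≤ k) (x : ℚ) : tc k (k - 1) x ≠ 0 := by
  obtain ⟨F, hF, hd, hl⟩ := exists_tp (k := k) (i := k - 1) (by omega)
  rw [Nat.sub_self] at hd
  rw [← hF x, Polynomial.eq_C_of_natDegree_eq_zero hd, Polynomial.eval_C]
  have h1 : F.leadingCoeff = F.coeff 0 := by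
    rw [Polynomial.leadingCoeff, hd]
  rw [← h1, hl, Nat.choose_self]
  positivity

private theorem B6_ct {q k : ℕ} (hq : 2 ≤ q) {s : ℤ} (hs : IsCoprime s (q : ℤ)) {y : ℝ}
    (hy : 2 * q * y = s - q * k) : ct y ≠ 0 := by
  have hq0 : (q : ℝ) ≠ 0 := by
    have : q ≠ 0 := by omega
    exact_mod_cast this
  have key : ∀ n : ℤ, 2 * y ≠ n := by
    intro n hn
    have h1 : (s : ℝ) = q * (n + k) := by
      have : (q : ℝ) * (2 * y) = s - q * k := by linarith
      rw [hn] at this
      linarith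
    have h2 : s = q * (n + k) := by exact_mod_cast h1
    have h3 : (q : ℤ) ∣ s := ⟨_, h2⟩
    have h4 : IsUnit (q : ℤ) := hs.isUnit_of_dvd' h3 dvd_rfl
    rw [Int.isUnit_iff] at h4
    omega
  unfold ct
  refine div_ne_zero ?_ ?_
  · intro h
    rw [Real.cos_eq_zero_iff] at h
    obtain ⟨n, hn⟩ := h
    apply key (2 * n + 1)
    have h1 : Real.pi * (2 * y) = Real.pi * (2 * n + 1) := by linarith
    have h2 := mul_left_cancel₀ Real.pi_ne_zero h1
    rw [h2]
    push_cast
    ring
  · intro h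
    rw [Real.sin_eq_zero_iff] at h
    obtain ⟨n, hn⟩ := h
    apply key (2 * n)
    have h1 : Real.pi * (2 * y) = Real.pi * (2 * n) := by linarith
    have h2 := mul_left_cancel₀ Real.pi_ne_zero h1
    rw [h2]
    push_cast
    ring

private theorem B6_one {q k : ℕ} (hS : LeafG {q} k) {s : ℤ} (hs : UG {q} s) :
    (YY {q} k 0 s).coeff 3 ≠ 0 := by
  have hk := hS.one_le
  have hq : q ∈ ({q} : Finset ℕ) := Finset.mem_singleton_self q
  have hr : rr {q} 0 = 3 := by
    simp [rr]
  have he : ex {q} k 0 = k + 1 := by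
    simp [ex]
  have hc := coeff_eq hS hq 0 (r := 3) hr.le (by omega) s
  have hf : (({q} : Finset ℕ).powerset.filter fun T => q ∈ T) = {{q}} := by
    ext T
    rw [Finset.mem_filter, Finset.mem_powerset, Finset.mem_singleton]
    constructor
    · rintro ⟨h1, h2⟩
      exact Finset.Subset.antisymm h1 (Finset.singleton_subset_iff.2 h2)
    · rintro rfl
      exact ⟨Finset.Subset.refl _, hq⟩
  intro h0
  rw [h0, Complex.ofReal_zero] at hc
  have h1 := (mul_eq_zero.1 hc.symm).resolve_left (kap_ne hS 0 3)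
  unfold gg cs at h1
  rw [hf, Finset.sum_singleton] at h1
  have hi : ex {q} k 0 + 1 - 3 = k - 1 := by omega
  beta_reduce at h1
  rw [hi, mul_one, Finset.sdiff_self, Finset.card_empty, pow_zero, one_mul] at h1
  have hal : al {q} {q} = 1 / (2 * q) := by
    unfold al
    rw [Finset.sum_singleton, Finset.sdiff_self, Finset.sum_empty, sub_zero, div_div, mul_comm]
  set y : ℝ := s * (al {q} {q} : ℝ) - k / 2 with hy
  have hw : Complex.exp (2 * Real.pi * Complex.I * (s * (al {q} {q} : ℂ) - k / 2)) =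
      Complex.exp (2 * Real.pi * Complex.I * (y : ℂ)) := by
    congr 2
    rw [hy]
    push_cast
    ring
  rw [hw, ← ct_eq y, B6_cotP3] at h1
  have h2 := (mul_eq_zero.1 h1).resolve_left (by exact_mod_cast B6_tc hk _)
  have h3 : ct y * (1 + ct y ^ 2) = 0 := by
    have : ((ct y * (1 + ct y ^ 2) : ℝ) : ℂ) = 0 := by
      rw [← h2]
      simp
    exact_mod_cast this
  have hq2 := hS.two_le q hq
  have hq0 : (q : ℝ) ≠ 0 := by
    have : q ≠ 0 := by omega
    exact_mod_cast this
  have h4 : ct y ≠ 0 := by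
    refine B6_ct (k := k) hq2 (hs.2 q hq) ?_
    rw [hy, hal]
    push_cast
    field_simp
  have h5 : (1 + ct y ^ 2) ≠ 0 := by positivity
  exact (mul_ne_zero h4 h5) h3

theorem trail_le {S : Finset ℕ} {k : ℕ} (hS : LeafG S k) (hne : S.Nonempty) {s : ℤ}
    (hs : UG S s) : (YY S k 0 s).natTrailingDegree ≤ 3 := by
  have hc := hS.card_le
  have hk := hS.one_le
  have h0 : 0 < S.card := Finset.card_pos.2 hne
  rcases Nat.lt_or_ge S.card 2 with h | h
  · obtain ⟨q, rfl⟩ := Finset.card_eq_one.1 (show S.card = 1 by omega)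
    exact Polynomial.natTrailingDegree_le_of_ne_zero (B6_one hS hs)
  rcases Nat.lt_or_ge (k + 1) S.card with h1 | h1
  · have he : ex S k 0 = 0 := by
      unfold ex
      omega
    have h2 : (YY S k 0 s).natDegree ≤ 1 := by
      rw [Polynomial.natDegree_le_iff_coeff_eq_zero]
      intro n hn
      exact coeff_gt hne k 0 s (by omega)
    exact (Polynomial.natTrailingDegree_le_natDegree _).trans (h2.trans (by norm_num))
  · exact (Polynomial.natTrailingDegree_le_of_ne_zero (coeff_two hS h h1 hs)).trans (by norm_num)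

theorem trail_empty {k : ℕ} (hk : 1 ≤ k) (s : ℤ) : (YY ∅ k 0 s).natTrailingDegree = 4 := by
  have hco : ∀ n, (YY ∅ k 0 s).coeff n = (((k + 2 + 2 * 0).factorial : ℝ) / 2) *
      ∑ i ∈ range k, (((binP k).coeff i * sg k (k + 3 + 2 * 0 - i) : ℚ) : ℝ) *
        (if n = k + 3 + 2 * 0 - i then 1 else 0) := by
    intro n
    unfold YY
    rw [if_pos rfl, Polynomial.coeff_C_mul, Polynomial.finsetSum_coeff]
    congr 1
    refine Finset.sum_congr rfl fun i _ => ?_
    rw [Polynomial.coeff_C_mul, Polynomial.coeff_X_pow]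
  have h4 : (YY ∅ k 0 s).coeff 4 ≠ 0 := by
    rw [hco, Finset.sum_eq_single_of_mem (k - 1) (Finset.mem_range.2 (by omega))]
    · have e : k + 3 + 2 * 0 - (k - 1) = 4 := by omega
      rw [e, if_pos rfl, mul_one, B6_binP]
      have h1 := B6_sg k
      have h2 : ((1 / ((k - 1).factorial : ℚ) * sg k 4 : ℚ) : ℝ) ≠ 0 := by
        have : (1 / ((k - 1).factorial : ℚ) * sg k 4 : ℚ) ≠ 0 :=
          mul_ne_zero (by positivity) h1
        exact_mod_cast this
      exact mul_ne_zero (by positivity) h2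
    · intro i hi hik
      rw [Finset.mem_range] at hi
      rw [if_neg (by omega), mul_zero]
  have hne : YY ∅ k 0 s ≠ 0 := by
    intro h
    rw [h, Polynomial.coeff_zero] at h4
    exact h4 rfl
  refine le_antisymm (Polynomial.natTrailingDegree_le_of_ne_zero h4) ?_
  refine Polynomial.le_natTrailingDegree hne fun m hm => ?_
  rw [hco, Finset.sum_eq_zero, mul_zero]
  intro i hi
  rw [Finset.mem_range] at hi
  rw [if_neg (by omega), mul_zero]

theorem trail_rr {S : Finset ℕ} {k : ℕ} (hS : LeafG S k) {l : ℕ} (hl : l.Prime)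
    (hb : 4 ^ (S.card + 3) ≤ l) (hi : 1 ≤ xp l S) {s : ℤ} (hs : UG S s) :
    (YY S k 0 s).natTrailingDegree = rr S 0 := by
  have h1 := lemN hS hl hb hi (Nat.zero_le 1) hs
  have hSne : S.Nonempty := by
    rw [Finset.nonempty_iff_ne_empty]
    rintro rfl
    simp [xp] at hi
  have hne : YY S k 0 s ≠ 0 := by
    intro h
    rw [h, Polynomial.coeff_zero] at h1
    exact h1 rfl
  refine le_antisymm (Polynomial.natTrailingDegree_le_of_ne_zero h1) ?_
  exact Polynomial.le_natTrailingDegree hne fun m hm => coeff_lt hS hSne 0 s hm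

end Pool.Agent.GSX
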