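import Mathlib

/-!
# Simultaneous approximation modulo a prime

Let `r = |K|`. The `M ^ r + 1 ≤ l` integers `a = 0, …, M ^ r` are mapped to the vectors
`(⌊M ((a c_x) mod l) / l⌋)_x` in `{0, …, M - 1} ^ K`; two of them, `a < a'`, have the same image
(`Finset.exists_ne_map_eq_of_card_lt_of_maps_to`). Let `d = a' - a`, `0 < d < l`, and
`m_x = ((a' c_x) mod l) - ((a c_x) mod l)`, so that `|m_x| M < l`, `m_x ≡ d c_x` modulo `l`, and
`m_x ≠ 0` as `l` divides neither `d` nor `c_x`. Take for `u` an inverse of `d` modulo `l`.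
-/

set_option autoImplicit false

open Finset

namespace Pool.Agent.GSX

private theorem C1_abs {l M s s' : ℤ} (hl : 0 < l) (h : M * s / l = M * s' / l) :
    |M * s' - M * s| < l := by
  have h1 := Int.mul_ediv_add_emod (M * s) l
  have h2 := Int.mul_ediv_add_emod (M * s') l
  have h3 := Int.emod_nonneg (M * s) hl.ne'
  have h4 := Int.emod_nonneg (M * s') hl.ne'
  have h5 := Int.emod_lt_of_pos (M * s) hl
  have h6 := Int.emod_lt_of_pos (M * s') hl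
  rw [h] at h1
  rw [abs_lt]
  constructor <;> linarith

theorem dirichlet {κ : Type} (K : Finset κ) {l M : ℕ} (hl : l.Prime) (hM : 1 ≤ M)
    (hMl : M ^ K.card < l) (c : κ → ℤ) (hc : ∀ x ∈ K, IsCoprime (c x) (l : ℤ)) :
    ∃ u : ℤ, IsCoprime u (l : ℤ) ∧ ∃ m : κ → ℤ, ∀ x ∈ K, (l : ℤ) ∣ c x - u * m x ∧ m x ≠ 0 ∧
      (m x).natAbs * M ≤ l := by
  classical
  have hl0 : (0 : ℤ) < l := by exact_mod_cast hl.pos
  have hM0 : (0 : ℤ) < M := by exact_mod_cast hM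
  have hpr : Prime (l : ℤ) := Nat.prime_iff_prime_int.1 hl
  have hs0 : ∀ (a : ℕ) (x : κ), 0 ≤ ((a : ℤ) * c x) % l := fun a x => Int.emod_nonneg _ hl0.ne'
  have hsl : ∀ (a : ℕ) (x : κ), ((a : ℤ) * c x) % l < l := fun a x => Int.emod_lt_of_pos _ hl0
  have hq0 : ∀ (a : ℕ) (x : κ), 0 ≤ (M : ℤ) * (((a : ℤ) * c x) % l) / l := fun a x =>
    Int.ediv_nonneg (mul_nonneg hM0.le (hs0 a x)) hl0.le
  have hqM : ∀ (a : ℕ) (x : κ), (M : ℤ) * (((a : ℤ) * c x) % l) / l < M := fun a x =>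
    Int.ediv_lt_of_lt_mul hl0 (mul_lt_mul_of_pos_left (hsl a x) hM0)
  let f : ℕ → (K → Fin M) := fun a x =>
    ⟨((M : ℤ) * (((a : ℤ) * c x) % l) / l).toNat, by
      have h1 := hq0 a x
      have h2 := hqM a x
      omega⟩
  have hcard : (univ : Finset (K → Fin M)).card < (range (M ^ K.card + 1)).card := by
    rw [card_univ, Fintype.card_fun, Fintype.card_fin, Fintype.card_coe, card_range]
    exact Nat.lt_succ_self _
  obtain ⟨a, ha, a', ha', hne, hf⟩ := exists_ne_map_eq_of_card_lt_of_maps_to hcard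
    (f := f) fun _ _ => mem_coe.2 (mem_univ _)
  rw [mem_range] at ha ha'
  have hd0 : ((a' : ℤ) - a) ≠ 0 := by
    intro h
    apply hne
    omega
  have hdl : ¬ (l : ℤ) ∣ ((a' : ℤ) - a) := by
    intro h
    apply hd0
    refine Int.eq_zero_of_abs_lt_dvd h ?_
    rw [abs_lt]
    constructor <;> omega
  obtain ⟨v, u, huv⟩ := (hpr.coprime_iff_not_dvd).2 hdl
  have hm : ∀ x : κ, ((a' : ℤ) * c x) % l - ((a : ℤ) * c x) % l =
      ((a' : ℤ) - a) * c x - l * (((a' : ℤ) * c x) / l - ((a : ℤ) * c x) / l) := by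
    intro x
    have h1 := Int.mul_ediv_add_emod ((a' : ℤ) * c x) l
    have h2 := Int.mul_ediv_add_emod ((a : ℤ) * c x) l
    linear_combination h1 - h2
  refine ⟨u, ⟨(a' : ℤ) - a, v, by linarith⟩,
    fun x => ((a' : ℤ) * c x) % l - ((a : ℤ) * c x) % l, fun x hx => ⟨?_, ?_, ?_⟩⟩
  · show (l : ℤ) ∣ c x - u * (((a' : ℤ) * c x) % l - ((a : ℤ) * c x) % l)
    refine ⟨c x * v + u * (((a' : ℤ) * c x) / l - ((a : ℤ) * c x) / l), ?_⟩
    rw [hm x]
    linear_combination (-(c x)) * huv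
  · show ((a' : ℤ) * c x) % l - ((a : ℤ) * c x) % l ≠ 0
    intro h
    rw [hm x, sub_eq_zero] at h
    exact hdl ((hc x hx).symm.dvd_of_dvd_mul_right ⟨_, h⟩)
  · show (((a' : ℤ) * c x) % l - ((a : ℤ) * c x) % l).natAbs * M ≤ l
    have h1 := congrArg Fin.val (congrFun hf ⟨x, hx⟩)
    have h2 : ((M : ℤ) * (((a : ℤ) * c x) % l) / l).toNat =
      ((M : ℤ) * (((a' : ℤ) * c x) % l) / l).toNat := h1
    have h3 : (M : ℤ) * (((a : ℤ) * c x) % l) / l = (M : ℤ) * (((a' : ℤ) * c x) % l) / l := by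
      have h4 := hq0 a x
      have h5 := hq0 a' x
      omega
    have h4 := C1_abs hl0 h3
    rw [← mul_sub, abs_mul, abs_of_pos hM0, Int.abs_eq_natAbs] at h4
    have h5 : (M * (((a' : ℤ) * c x) % l - ((a : ℤ) * c x) % l).natAbs : ℕ) < l := by
      exact_mod_cast h4
    rw [mul_comm]
    exact h5.le

/-- The bound for the private primes. -/
def bd (n A : ℕ) : ℕ := ((n + 1) * 2 ^ (A + 4)) ^ (n + 1)

/-- the bound is large enough -/
theorem bd_le {n A a : ℕ} (hn : 1 ≤ n) (ha : a ≤ A) : 4 ^ (a + 3) ≤ bd n A := by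
  have h1 : 2 ^ (a + 3) ≤ (n + 1) * 2 ^ (A + 4) := by
    have h2 : 2 ^ (a + 3) ≤ 2 ^ (A + 4) := Nat.pow_le_pow_right (by norm_num) (by omega)
    have h3 : 1 * 2 ^ (A + 4) ≤ (n + 1) * 2 ^ (A + 4) := Nat.mul_le_mul_right _ (by omega)
    omega
  have h2 : 1 ≤ (n + 1) * 2 ^ (A + 4) := Nat.one_le_iff_ne_zero.2 (by positivity)
  calc 4 ^ (a + 3) = (2 ^ (a + 3)) ^ 2 := by
        rw [← pow_mul, mul_comm, pow_mul]
        norm_num
    _ ≤ ((n + 1) * 2 ^ (A + 4)) ^ 2 := Nat.pow_le_pow_left h1 2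
    _ ≤ ((n + 1) * 2 ^ (A + 4)) ^ (n + 1) := Nat.pow_le_pow_right h2 (by omega)

/-- the sum of the multipliers is small -/
theorem sum_small {κ : Type} {K : Finset κ} {n A l : ℕ} (hK : K.card ≤ n + 1) {m : κ → ℕ}
    (hm : ∀ x ∈ K, m x * ((n + 1) * 2 ^ (A + 4)) ≤ l) :
    (∑ x ∈ K, m x) * 2 ^ (A + 4) ≤ l := by
  have h1 : (∑ x ∈ K, m x) * ((n + 1) * 2 ^ (A + 4)) ≤ (n + 1) * l := by
    rw [sum_mul]
    calc ∑ x ∈ K, m x * ((n + 1) * 2 ^ (A + 4)) ≤ ∑ _x ∈ K, l := sum_le_sum hm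
      _ = K.card * l := by rw [sum_const, smul_eq_mul]
      _ ≤ (n + 1) * l := Nat.mul_le_mul_right _ hK
  have h2 : (n + 1) * ((∑ x ∈ K, m x) * 2 ^ (A + 4)) ≤ (n + 1) * l := by
    calc (n + 1) * ((∑ x ∈ K, m x) * 2 ^ (A + 4)) = (∑ x ∈ K, m x) * ((n + 1) * 2 ^ (A + 4)) := by
          ring
      _ ≤ (n + 1) * l := h1
  exact Nat.le_of_mul_le_mul_left h2 (Nat.succ_pos n)

end Pool.Agent.GSX
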