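import Pool.Agent.GSH.Main

/-!
# The conjugates of the masses
-/

set_option autoImplicit false

open Finset

namespace Pool.Agent.GSX

open Pool.Agent.OHG Pool.Agent.GPC Pool.Agent.GSP Pool.Agent.GSG

theorem fam_leaf {ι : Type} [DecidableEq ι] {P : ι → Prime} (hP : ∀ i, ¬ Bad (P i))
    (v : Σ i, Fin ((P i).n + 1)) : LeafG ((famOf P).S v) ((famOf P).k v) := by
  obtain ⟨i, v⟩ := v
  rw [k_fam]
  exact leafG_prime (hP i) v

private theorem D2_conj {V V' : Type} [Fintype V] [DecidableEq V] [Fintype V'] [DecidableEq V']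
    {D : Dat V} {D' : Dat V'} (hD : ∀ v, LeafG (D.S v) (D.k v))
    (hD' : ∀ v, LeafG (D'.S v) (D'.k v)) {N : ℕ} (hN : 0 < N) (hn : Nice D N) (hn' : Nice D' N)
    {a b : ℚ} (hm : (a : ℝ) * (∏ v, mu (D.S v) (D.k v) 0) ^ 2 =
      b * (∏ v, mu (D'.S v) (D'.k v) 0) ^ 2) {s : ℤ} (hs : IsCoprime s (N : ℤ)) :
    Polynomial.C (a : ℝ) * (∏ v, YY (D.S v) (D.k v) 0 s) ^ 2 =
      Polynomial.C (b : ℝ) * (∏ v, YY (D'.S v) (D'.k v) 0 s) ^ 2 := by
  have h0 : (a : RatFunc ℂ) * (∏ v, toC (YY (D.S v) (D.k v) 0 s)) ^ 2 =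
      (b : RatFunc ℂ) * (∏ v, toC (YY (D'.S v) (D'.k v) 0 s)) ^ 2 := by
    have h1 := Gal.mul hN hs (Gal.rat hN hs a) (Gal.pow hN hs (Gal.prod hN hs univ
      fun v _ => gal_muG hN hn.four hs (hD v) (hn.dvd v) 0) 2)
    have h2 := Gal.mul hN hs (Gal.rat hN hs b) (Gal.pow hN hs (Gal.prod hN hs univ
      fun v _ => gal_muG hN hn'.four hs (hD' v) (hn'.dvd v) 0) 2)
    have h3 := congrArg (fun x : ℝ => (x : ℂ)) hm
    simp only [Complex.ofReal_mul, Complex.ofReal_pow, Complex.ofReal_prod,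
      Complex.ofReal_ratCast] at h3
    rw [h3] at h1
    exact Gal.unique hN hs h1 h2
  have e : ∀ x : ℚ, (x : RatFunc ℂ) = toC (Polynomial.C (x : ℝ)) := by
    intro x
    unfold toC
    rw [RingHom.comp_apply, Polynomial.coe_mapRingHom, Polynomial.map_C, RatFunc.algebraMap_C]
    simp
  apply toC_inj
  rw [map_mul, map_mul, map_pow, map_pow, map_prod, map_prod, ← e, ← e]
  exact h0

/-- the conjugates of the masses of two families with the same series are proportional -/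
theorem mass {ι ι' : Type} [Fintype ι] [Fintype ι'] [DecidableEq ι] [DecidableEq ι'] {κ κ' : ℝ}
    {P : ι → Prime} {P' : ι' → Prime} (hP : ∀ i, ¬ Bad (P i)) (hP' : ∀ i, ¬ Bad (P' i))
    (h : series κ (univ.val.map P) = series κ' (univ.val.map P')) :
    ∃ N : ℕ, 0 < N ∧ Nice (famOf P) N ∧ Nice (famOf P') N ∧ ∃ a b : ℝ, a ≠ 0 ∧ b ≠ 0 ∧
      ∀ s : ℤ, IsCoprime s (N : ℤ) →
        Polynomial.C a * (∏ v, YY ((famOf P).S v) ((famOf P).k v) 0 s) ^ 2 =
          Polynomial.C b * (∏ v, YY ((famOf P').S v) ((famOf P').k v) 0 s) ^ 2 := by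
  obtain ⟨-, h2⟩ := real_dataG hP hP' h
  have e2 : ∀ (ι : Type) [Fintype ι] [DecidableEq ι] (P : ι → Prime),
      ∏ v, GSP.mu ((famOf P).S v) ((famOf P).k v) 0 =
        ∏ i, ∏ v, GSP.mu ((P i).D.leaf v) ((datOf (P i)).k v) 0 := by
    intro ι _ _ P
    rw [Fintype.prod_sigma]
    refine prod_congr rfl fun i _ => prod_congr rfl fun v _ => ?_
    rw [k_fam]
    rfl
  have e3 : ∀ (ι : Type) [Fintype ι] (P : ι → Prime),
      ∃ a : ℚ, 0 < a ∧ (a : ℝ) = (∏ i, |(lkm (P i).D).det|) ^ 3 := by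
    intro ι _ P
    refine ⟨(∏ i, |(lkq (P i).D).det|) ^ 3, ?_, ?_⟩
    · refine pow_pos (prod_pos fun i _ => abs_pos.2 (lkq_det (P i).isGraph)) 3
    · rw [Rat.cast_pow, Rat.cast_prod]
      congr 1
      refine prod_congr rfl fun i _ => ?_
      rw [Rat.cast_abs]
      congr 1
      have : lkm (P i).D = (lkq (P i).D).map (Rat.castHom ℝ) := by
        ext v w
        simp [lkm, lkq]
      rw [this, ← RingHom.mapMatrix_apply, ← RingHom.map_det]
      rfl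
  obtain ⟨a, ha, ea⟩ := e3 ι' P'
  obtain ⟨b, hb, eb⟩ := e3 ι P
  have hL := fam_leaf hP
  have hL' := fam_leaf hP'
  have hpos : ∀ v, ∀ p ∈ (famOf P).S v, 0 < p := fun v p hp => (hL v).pos p hp
  have hpos' : ∀ v, ∀ p ∈ (famOf P').S v, 0 < p := fun v p hp => (hL' v).pos p hp
  refine ⟨4 * ((∏ v, ∏ p ∈ (famOf P).S v, p) * ∏ v, ∏ p ∈ (famOf P').S v, p),
    Nat.mul_pos (by norm_num) (Nat.mul_pos
      (prod_pos fun v _ => prod_pos (hpos v)) (prod_pos fun v _ => prod_pos (hpos' v))), ?_⟩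
  have hn : Nice (famOf P) (4 * ((∏ v, ∏ p ∈ (famOf P).S v, p) * ∏ v, ∏ p ∈ (famOf P').S v, p)) :=
    ⟨Dvd.intro _ rfl, fun v p hp => Nat.mul_dvd_mul (by norm_num)
    (((dvd_prod_of_mem _ hp).trans (dvd_prod_of_mem (fun v => ∏ p ∈ (famOf P).S v, p)
      (mem_univ v))).mul_right _)⟩
  have hn' : Nice (famOf P') (4 * ((∏ v, ∏ p ∈ (famOf P).S v, p) *
      ∏ v, ∏ p ∈ (famOf P').S v, p)) :=
    ⟨Dvd.intro _ rfl, fun v p hp => Nat.mul_dvd_mul (by norm_num)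
    (((dvd_prod_of_mem _ hp).trans (dvd_prod_of_mem (fun v => ∏ p ∈ (famOf P').S v, p)
      (mem_univ v))).mul_left _)⟩
  refine ⟨hn, hn', a, b, by exact_mod_cast ha.ne', by exact_mod_cast hb.ne', fun s hs => ?_⟩
  refine D2_conj hL hL' (Nat.mul_pos (by norm_num) (Nat.mul_pos
      (prod_pos fun v _ => prod_pos (hpos v)) (prod_pos fun v _ => prod_pos (hpos' v))))
    hn hn' ?_ hs
  rw [e2, e2, ea, eb]
  exact h2

end Pool.Agent.GSX
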