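import Mathlib

/-!
# Rational functions which vanish at `0` and at `∞`

The functions `(1 + u) / (1 - u)`, `u / (1 - u) ^ 2`, `u (1 + u) / (1 - u) ^ 3` and the sums
`∑ β_j ps(w_j z)`.
-/

set_option autoImplicit false

open Finset Polynomial

namespace Pool.Agent.GSX

/-- The numerators. -/
noncomputable def nu (r : ℕ) : ℂ[X] := if r = 1 then 1 + X else if r = 2 then X else X * (1 + X)

/-- The functions `(1 + u) / (1 - u)`, `u / (1 - u) ^ 2`, `u (1 + u) / (1 - u) ^ 3` for `r = 1, 2, 3`. -/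
noncomputable def ps (r : ℕ) (u : ℂ) : ℂ := (nu r).eval u / (1 - u) ^ r

/-- The coefficients of the power series of `ps r`, except for the constant coefficient. -/
noncomputable def kc (r ν : ℕ) : ℂ := if r = 1 then 2 else if r = 2 then ν else ν ^ 2

variable {ι : Type} [DecidableEq ι]

omit [DecidableEq ι] in
/-- The sum `∑ β_j ps(w_j z)`. -/
noncomputable def GG (r : ℕ) (J : Finset ι) (w β : ι → ℂ) (z : ℂ) : ℂ :=
  ∑ j ∈ J, β j * ps r (w j * z)

omit [DecidableEq ι] in
/-- The denominator. -/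
noncomputable def dd (r : ℕ) (J : Finset ι) (w : ι → ℂ) : ℂ[X] := ∏ j ∈ J, (1 - C (w j) * X) ^ r

/-- The numerator. -/
noncomputable def nn (r : ℕ) (J : Finset ι) (w β : ι → ℂ) : ℂ[X] :=
  ∑ j ∈ J, C (β j) * (nu r).comp (C (w j) * X) * dd r (J.erase j) w

omit [DecidableEq ι] in
/-- The data of the functions which we consider. -/
structure NF (r : ℕ) (J : Finset ι) (w β : ι → ℂ) : Prop where
  one_le : 1 ≤ r
  le_three : r ≤ 3
  ne : J.Nonempty
  w_ne : ∀ j ∈ J, w j ≠ 0
  inj : Set.InjOn w J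
  b_ne : ∀ j ∈ J, β j ≠ 0
  sum : r = 1 → ∑ j ∈ J, β j = 0

end Pool.Agent.GSX
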