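import Pool.Agent.GSX.TrA
import Pool.Agent.GSN.A1
import Pool.Agent.GSG.M4
import Pool.Agent.GSP.A8

/-!
# The lowest exponent of the mass of a node with leaves is at most `3`
-/

set_option autoImplicit false

open Finset

namespace Pool.Agent.GSX.Tr

open Pool.Agent.GSP Pool.Agent.GSG Pool.Agent.GSN Pool.H42.PF

/-- the sign of a leaf -/
private def sgt (T : Finset ℕ) (p : ℕ) : ℤ := if p ∈ T then 1 else -1

private theorem sgt_odd (T : Finset ℕ) (p : ℕ) : Odd (sgt T p) := by
  unfold sgt
  split_ifs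
  · exact odd_one
  · exact ⟨-1, by norm_num⟩

/-- the numerator of `al` -/
private def nt (S T : Finset ℕ) : ℤ := ∑ p ∈ S, sgt T p * ((∏ x ∈ S.erase p, x : ℕ) : ℤ)

private theorem al_nt {S T : Finset ℕ} (hT : T ⊆ S) (h0 : ∀ p ∈ S, 0 < p) :
    2 * ((∏ p ∈ S, p : ℕ) : ℚ) * al S T = nt S T := by
  have h1 : al S T = (∑ p ∈ S, (sgt T p : ℚ) / p) / 2 := by
    unfold al
    rw [← Finset.sum_sdiff hT (f := fun p => (sgt T p : ℚ) / p)]
    have e1 : ∑ p ∈ S \ T, (sgt T p : ℚ) / p = -∑ p ∈ S \ T, (1 : ℚ) / p := by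
      rw [← Finset.sum_neg_distrib]
      refine Finset.sum_congr rfl fun p hp => ?_
      unfold sgt
      rw [if_neg (Finset.mem_sdiff.1 hp).2]
      push_cast
      ring
    have e2 : ∑ p ∈ T, (sgt T p : ℚ) / p = ∑ p ∈ T, (1 : ℚ) / p := by
      refine Finset.sum_congr rfl fun p hp => ?_
      unfold sgt
      rw [if_pos hp]
      push_cast
      rfl
    rw [e1, e2]
    ring
  unfold nt
  rw [h1, Int.cast_sum, show ∀ x : ℚ, 2 * ((∏ p ∈ S, p : ℕ) : ℚ) * (x / 2) =
    ((∏ p ∈ S, p : ℕ) : ℚ) * x from fun x => by ring, Finset.mul_sum]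
  refine Finset.sum_congr rfl fun p hp => ?_
  have hp0 : (p : ℚ) ≠ 0 := by
    have := h0 p hp
    exact_mod_cast this.ne'
  rw [← Finset.mul_prod_erase S _ hp]
  push_cast
  field_simp

private theorem nt_coprime {S T : Finset ℕ} (hc : ∀ p ∈ S, ∀ q ∈ S, p ≠ q → Nat.Coprime p q)
    {p : ℕ} (hp : p ∈ S) : IsCoprime (nt S T) (p : ℤ) := by
  unfold nt
  rw [← Finset.add_sum_erase S _ hp]
  have h1 : (p : ℤ) ∣ ∑ x ∈ S.erase p, sgt T x * ((∏ y ∈ S.erase x, y : ℕ) : ℤ) := by
    refine Finset.dvd_sum fun x hx => Dvd.dvd.mul_left ?_ _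
    have h2 : p ∣ ∏ y ∈ S.erase x, y :=
      Finset.dvd_prod_of_mem _ (Finset.mem_erase.2 ⟨(Finset.ne_of_mem_erase hx).symm, hp⟩)
    exact_mod_cast h2
  obtain ⟨c, hc'⟩ := h1
  rw [hc', mul_comm (p : ℤ) c]
  refine IsCoprime.add_mul_right_left ?_ c
  refine IsCoprime.mul_left ?_ ?_
  · unfold sgt
    split_ifs
    · exact isCoprime_one_left
    · exact isCoprime_one_left.neg_left
  · rw [Nat.isCoprime_iff_coprime]
    exact Nat.Coprime.prod_left fun x hx =>
      hc x (Finset.mem_of_mem_erase hx) p hp (Finset.ne_of_mem_erase hx)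

/-- The arguments have a common denominator, with numerators prime to it. -/
private theorem exists_den {S : Finset ℕ} {k : ℕ} (hS : LeafG S k) (hne : S.Nonempty) {s : ℤ}
    (hs : UG S s) : ∃ (M : ℕ) (u : Finset ℕ → ℤ), 2 ≤ M ∧ ∀ T ⊆ S, IsCoprime (u T) (M : ℤ) ∧
      (s * al S T - k / 2 : ℚ) = u T / M := by
  set R : ℕ := ∏ p ∈ S, p with hR
  have hR0 : 0 < R := Finset.prod_pos hS.pos
  have hRq : (R : ℚ) ≠ 0 := by exact_mod_cast hR0.ne'
  have hR2 : 2 ≤ R := by
    obtain ⟨p, hp⟩ := hne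
    exact (hS.two_le p hp).trans (Nat.le_of_dvd hR0 (Finset.dvd_prod_of_mem _ hp))
  set U : Finset ℕ → ℤ := fun T => s * nt S T - k * R with hU
  have hUx : ∀ T ⊆ S, (s * al S T - k / 2 : ℚ) = U T / (2 * R) := by
    intro T hT
    have h1 := al_nt hT hS.pos
    rw [← hR] at h1
    have h2 : al S T = nt S T / (2 * R) := by
      rw [eq_div_iff (by positivity), ← h1]
      ring
    rw [h2]
    simp only [hU]
    push_cast
    field_simp
  have hUR : ∀ T ⊆ S, IsCoprime (U T) (R : ℤ) := by
    intro T _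
    rw [hR, Nat.cast_prod]
    refine IsCoprime.prod_right fun p hp => ?_
    have h1 : (p : ℤ) ∣ k * R := by
      have h2 : p ∣ R := Finset.dvd_prod_of_mem _ hp
      exact Dvd.dvd.mul_left (by exact_mod_cast h2) _
    obtain ⟨c, hc⟩ := h1
    have h3 : U T = s * nt S T + (-c) * p := by
      show s * nt S T - k * R = _
      rw [hc]
      ring
    rw [h3]
    exact IsCoprime.add_mul_right_left
      ((hs.2 p hp).mul_left (nt_coprime hS.coprime hp)) _
  by_cases hpar : ∀ T ⊆ S, Odd (U T)
  · refine ⟨2 * R, U, by omega, fun T hT => ⟨?_, ?_⟩⟩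
    · push_cast
      refine IsCoprime.mul_right ?_ (hUR T hT)
      obtain ⟨c, hc⟩ := hpar T hT
      exact ⟨1, -c, by rw [hc]; ring⟩
    · rw [hUx T hT]
      push_cast
      rfl
  · push Not at hpar
    obtain ⟨T₀, hT₀, hT₀'⟩ := hpar
    rw [Int.not_odd_iff_even] at hT₀'
    -- all leaves are odd
    have hRo : Odd (R : ℤ) := by
      by_contra hcon
      rw [Int.not_odd_iff_even] at hcon
      obtain ⟨a, b, hab⟩ := hUR T₀ hT₀
      obtain ⟨c, hc⟩ := hT₀'
      obtain ⟨d, hd⟩ := hcon
      have h1 : (2 : ℤ) ∣ 1 := ⟨a * c + b * d, by rw [← hab, hc, hd]; ring⟩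
      omega
    have hodd : ∀ p ∈ S, Odd ((∏ x ∈ S.erase p, x : ℕ) : ℤ) := by
      intro p hp
      by_contra hcon
      rw [Int.not_odd_iff_even] at hcon
      have h1 : (R : ℤ) = p * ((∏ x ∈ S.erase p, x : ℕ) : ℤ) := by
        rw [hR, ← Finset.mul_prod_erase S _ hp]
        push_cast
        rfl
      rw [h1] at hRo
      exact (Int.not_even_iff_odd.2 hRo) (hcon.mul_left _)
    have hnt : ∀ T, ∃ c : ℤ, nt S T = S.card + 2 * c := by
      intro T
      have h1 : ∀ p ∈ S, ∃ c : ℤ, sgt T p * ((∏ x ∈ S.erase p, x : ℕ) : ℤ) = 1 + 2 * c := by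
        intro p hp
        obtain ⟨c, hc⟩ := (sgt_odd T p).mul (hodd p hp)
        exact ⟨c, by rw [hc]; ring⟩
      choose! c hc using h1
      refine ⟨∑ p ∈ S, c p, ?_⟩
      unfold nt
      rw [Finset.sum_congr rfl hc, Finset.sum_add_distrib, Finset.mul_sum]
      simp
    have heven : ∀ T ⊆ S, Even (U T) := by
      intro T hT
      obtain ⟨c, hc⟩ := hnt T
      obtain ⟨c₀, hc₀⟩ := hnt T₀
      have h1 : U T = U T₀ + 2 * (s * (c - c₀)) := by
        show s * nt S T - k * R = s * nt S T₀ - k * R + 2 * (s * (c - c₀))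
        rw [hc, hc₀]
        ring
      rw [h1]
      exact hT₀'.add (even_two_mul _)
    choose! v hv using heven
    refine ⟨R, v, hR2, fun T hT => ⟨?_, ?_⟩⟩
    · have h1 := hUR T hT
      have h2 : U T = 2 * v T := by rw [hv T hT]; ring
      rw [h2] at h1
      exact IsCoprime.of_mul_left_right h1
    · rw [hUx T hT, hv T hT]
      push_cast
      field_simp
      ring

private theorem cs_ct {x : ℝ} (hs : Real.sin (Real.pi * x) ≠ 0) : cs2 x = 1 + ct x ^ 2 := by
  unfold cs2 ct
  have h2 := Real.sin_sq_add_cos_sq (Real.pi * x)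
  field_simp
  linarith

private theorem bb_ne {S : Finset ℕ} (hS : IsLeaf S) {p : ℕ} (hp : p ∈ S) {k : ℕ} (hk : 1 ≤ k)
    {s : ℤ} (hs : UU S s) : bb S k 0 s ≠ 0 := by
  obtain ⟨c, hc, h⟩ := bb_zero_sq hS hp hk
  intro h0
  have h1 := h s hs
  rw [h0] at h1
  have h2 : 0 < c * HH S p k s := mul_pos hc (HH_pos hS hp k hs)
  rw [← h1] at h2
  norm_num at h2

/-- The lowest exponent of the mass of a node with leaves is at most `3`. -/
theorem trail_le {S : Finset ℕ} {k : ℕ} (hS : LeafG S k) (hne : S.Nonempty) {s : ℤ}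
    (hs : UG S s) : ∃ e ≤ 3, (YY S k 0 s).coeff e ≠ 0 := by
  obtain ⟨q, hq⟩ := hne
  have hcp : 0 < S.card := Finset.card_pos.2 ⟨q, hq⟩
  by_cases h2 : S.card ≤ 2
  · refine ⟨2 * 0 + 4 - S.card, by omega, ?_⟩
    exact bb_ne ⟨hS.two_le, hS.coprime, h2⟩ hq hS.one_le hs
  have hcl := hS.card_le
  have hrr : rr S 0 = 1 := by
    unfold rr
    omega
  by_cases hk : S.card = k + 2
  · refine ⟨1, by norm_num, fun h1 => YYG_ne hS 0 hs ?_⟩
    ext n
    rw [Polynomial.coeff_zero]
    rcases lt_trichotomy n 1 with hn | hn | hn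
    · exact coeff_lt hS ⟨q, hq⟩ 0 s (by omega)
    · rw [hn]
      exact h1
    · refine coeff_gt ⟨q, hq⟩ k 0 s ?_
      unfold ex
      omega
  · refine ⟨2, by norm_num, fun h0 => ?_⟩
    have hex : 2 ≤ ex S k 0 + 1 := by
      unfold ex
      omega
    have h1 := coeff_eq hS hq 0 (r := 2) (by omega) hex s
    rw [h0, Complex.ofReal_zero] at h1
    have h3 := (mul_eq_zero.1 h1.symm).resolve_left (kap_ne hS 0 2)
    set i := ex S k 0 + 1 - 2 with hi
    have hik : i < k := by
      rw [hi]
      unfold ex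
      omega
    have him : k - 1 - i = S.card - 2 := by
      rw [hi]
      unfold ex
      omega
    obtain ⟨M, u, hM, hu⟩ := exists_den hS ⟨q, hq⟩ hs
    set J := S.powerset.filter fun T => q ∈ T with hJ
    have hJm : ∀ T ∈ J, T ⊆ S ∧ q ∈ T := by
      intro T hT
      rw [hJ, Finset.mem_filter, Finset.mem_powerset] at hT
      exact hT
    -- the arguments are no integers
    have hnint : ∀ T ∈ J, ∀ n : ℤ, (s * al S T - k / 2 : ℚ) ≠ n := by
      intro T hT n hn
      obtain ⟨hc, hx⟩ := hu T (hJm T hT).1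
      rw [hx] at hn
      have hM0 : (M : ℚ) ≠ 0 := by
        have : M ≠ 0 := by omega
        exact_mod_cast this
      rw [div_eq_iff hM0] at hn
      have h4 : u T = n * M := by exact_mod_cast hn
      rw [h4] at hc
      have h5 := hc.isUnit_of_dvd' (dvd_mul_left (M : ℤ) n) dvd_rfl
      rw [Int.isUnit_iff] at h5
      omega
    have hval : ∀ T ∈ J, ((cotP 2).map (algebraMap ℚ ℂ)).eval
        (Complex.I * (ww S k s T * 1 + 1) / (ww S k s T * 1 - 1)) =
        ((cs2 ((u T : ℝ) / M) : ℝ) : ℂ) := by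
      intro T hT
      have hx := (hu T (hJm T hT).1).2
      have hxr : ((s * al S T - k / 2 : ℚ) : ℝ) = (u T : ℝ) / M := by
        rw [hx]
        push_cast
        rfl
      have hw : ww S k s T = Complex.exp (2 * Real.pi * Complex.I * (((u T : ℝ) / M : ℝ) : ℂ)) := by
        rw [ww_eq, ← hxr]
        push_cast
        rfl
      have hs0 : Real.sin (Real.pi * ((u T : ℝ) / M)) ≠ 0 := by
        intro h4
        rw [Real.sin_eq_zero_iff] at h4
        obtain ⟨n, hn⟩ := h4
        refine hnint T hT n ?_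
        have h5 : (n : ℝ) = (u T : ℝ) / M := by
          have h6 : Real.pi * n = Real.pi * ((u T : ℝ) / M) := by rw [← hn]; ring
          exact mul_left_cancel₀ Real.pi_ne_zero h6
        rw [← hxr] at h5
        exact_mod_cast h5.symm
      rw [mul_one, hw, ← ct_eq]
      rw [cs_ct hs0]
      simp [cotP]
    have h4 : ∑ T ∈ J, ((((-1) ^ (S \ T).card * tc k i (al S T) : ℚ)) : ℝ) *
        cs2 ((u T : ℝ) / M) = 0 := by
      have h5 : ((∑ T ∈ J, ((((-1) ^ (S \ T).card * tc k i (al S T) : ℚ)) : ℝ) *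
        cs2 ((u T : ℝ) / M) : ℝ) : ℂ) = gg S k i 2 q s 1 := by
        rw [Complex.ofReal_sum]
        unfold gg cs
        refine Finset.sum_congr rfl fun T hT => ?_
        have h6 := hval T hT
        unfold ww at h6
        rw [h6]
        push_cast
        ring
      rw [h3] at h5
      exact_mod_cast h5
    have h5 := csc_indep hM J (fun T => (-1) ^ (S \ T).card * tc k i (al S T)) u
      (fun T hT => (hu T (hJm T hT).1).1) (fun T hT T' hT' hTT => ?_) h4
    · -- too many zeros
      have h6 : J ⊆ S.powerset.filter fun T => tc k i (al S T) = 0 := by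
        intro T hT
        refine Finset.mem_filter.2 ⟨Finset.mem_powerset.2 (hJm T hT).1, ?_⟩
        exact (mul_eq_zero.1 (h5 T hT)).resolve_left (pow_ne_zero _ (by norm_num))
      have h7 := (Finset.card_le_card h6).trans (card_bad hS hik)
      rw [hJ, card_filter hq, him] at h7
      have h8 : S.card - 2 < 2 ^ (S.card - 2) := Nat.lt_two_pow_self
      have h9 : 2 ^ (S.card - 2) ≤ 2 ^ (S.card - 1) := Nat.pow_le_pow_right (by norm_num) (by omega)
      omega
    · obtain ⟨hTS, hqT⟩ := hJm T hT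
      obtain ⟨hTS', hqT'⟩ := hJm T' hT'
      have hM0 : (M : ℚ) ≠ 0 := by
        have : M ≠ 0 := by omega
        exact_mod_cast this
      have hx := (hu T hTS).2
      have hx' := (hu T' hTS').2
      have hbad : ∀ p ∈ S, ¬ (p : ℤ) ∣ s := by
        intro p hp hd
        have h6 := (hs.2 p hp).isUnit_of_dvd' hd dvd_rfl
        rw [Int.isUnit_iff] at h6
        have := hS.two_le p hp
        omega
      constructor
      · rintro ⟨n, hn⟩
        have h6 : (s : ℚ) * (al S T - al S T') = n := by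
          have h7 : (s * al S T - k / 2 : ℚ) - (s * al S T' - k / 2) = n := by
            rw [hx, hx', ← sub_div, div_eq_iff hM0]
            have : (u T : ℚ) - u T' = M * n := by exact_mod_cast hn
            rw [this]
            ring
          linarith
        have h8 : (symmDiff T T').Nonempty := by
          rw [Finset.nonempty_iff_ne_empty, Ne, ← Finset.bot_eq_empty, symmDiff_eq_bot]
          exact hTT
        obtain ⟨p, hp⟩ := h8
        have hpS : p ∈ S := by
          rcases Finset.mem_symmDiff.1 hp with h9 | h9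
          · exact hTS h9.1
          · exact hTS' h9.1
        exact hbad p hpS (dvd_of_int hS.two_le hS.coprime hTS hTS' h6 hp)
      · rintro ⟨n, hn⟩
        have hcomp : al S (S \ T') = -al S T' := by
          unfold al
          rw [Finset.sdiff_sdiff_eq_self hTS']
          ring
        have h6 : (s : ℚ) * (al S T - al S (S \ T')) = ((n + k : ℤ) : ℚ) := by
          have h7 : (s * al S T - k / 2 : ℚ) + (s * al S T' - k / 2) = n := by
            rw [hx, hx', ← add_div, div_eq_iff hM0]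
            have : (u T : ℚ) + u T' = M * n := by exact_mod_cast hn
            rw [this]
            ring
          rw [hcomp]
          push_cast
          linarith
        refine hbad q hq (dvd_of_int hS.two_le hS.coprime hTS Finset.sdiff_subset h6 ?_)
        rw [Finset.mem_symmDiff]
        exact Or.inl ⟨hqT, fun h9 => (Finset.mem_sdiff.1 h9).2 hqT'⟩

end Pool.Agent.GSX.Tr
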