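import Pool.Agent.GSP.A3
import Pool.Agent.GSP.D1
import Pool.Agent.H42.PF.Cot

/-!
# Linear independence of the numbers `1 / sin (π u / M) ^ 2`
-/

set_option autoImplicit false

open Finset

namespace Pool.Agent.GSX.Tr

open Pool.Agent.GSP

private theorem cs_cs2_int (x : ℝ) (n : ℤ) : cs2 (x + n) = cs2 x := by
  unfold cs2
  have e : Real.pi * (x + n) = Real.pi * x + n * Real.pi := by ring
  rw [e, Real.sin_add_int_mul_pi, mul_pow, ← zpow_natCast ((-1 : ℝ) ^ n), ← zpow_mul]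
  have : ((-1 : ℝ) ^ (n * ((2 : ℕ) : ℤ))) = 1 := by
    rw [mul_comm, zpow_mul]
    norm_num
  rw [this, one_mul]

private theorem cs_cs2_neg (x : ℝ) : cs2 (-x) = cs2 x := by
  unfold cs2
  rw [mul_neg, Real.sin_neg, neg_sq]

private theorem cs_cs2_nonneg (x : ℝ) : 0 ≤ cs2 x := by
  unfold cs2
  positivity

private theorem cs_series {z : ℝ} (hz : ∀ n : ℤ, z ≠ n) :
    HasSum (fun n : ℤ => 1 / ((n : ℝ) + z) ^ 2) (Real.pi ^ 2 * cs2 z) := by
  have h1 := cot_tsum (r := 2) le_rfl hz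
  have hs : Real.sin (Real.pi * z) ≠ 0 := by
    intro h
    rw [Real.sin_eq_zero_iff] at h
    obtain ⟨n, hn⟩ := h
    apply hz n
    have hpi := Real.pi_ne_zero
    have : Real.pi * z = Real.pi * n := by rw [← hn]; ring
    exact mul_left_cancel₀ hpi this
  have h2 : ((cotP 2).map (algebraMap ℚ ℝ)).eval (ct z) = cs2 z := by
    have e : cotP 2 = Polynomial.C (1 / ((0 : ℕ) + 1 : ℚ)) * (1 + Polynomial.X ^ 2) *
      Polynomial.derivative Polynomial.X := rfl
    rw [e]
    simp only [Polynomial.derivative_X, Polynomial.map_mul, Polynomial.map_add, Polynomial.map_one,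
      Polynomial.map_pow, Polynomial.map_X, Polynomial.map_C, Polynomial.eval_mul,
      Polynomial.eval_add, Polynomial.eval_one, Polynomial.eval_pow, Polynomial.eval_X,
      Polynomial.eval_C]
    unfold ct cs2
    have hc := Real.sin_sq_add_cos_sq (Real.pi * z)
    norm_num
    field_simp
    linarith
  rw [h2] at h1
  exact h1

private theorem cs_zeta : HasSum (fun n : ℤ => 1 / (n : ℝ) ^ 2) (Real.pi ^ 2 / 3) := by
  have h1 : HasSum (fun n : ℕ => (1 : ℝ) / ((n : ℤ) : ℝ) ^ 2) (Real.pi ^ 2 / 6) := by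
    simpa using hasSum_zeta_two
  have h2 : HasSum (fun n : ℕ => (1 : ℝ) / ((-(n : ℤ) : ℤ) : ℝ) ^ 2) (Real.pi ^ 2 / 6) := by
    simpa using hasSum_zeta_two
  have h3 := HasSum.of_nat_of_neg (f := fun n : ℤ => 1 / (n : ℝ) ^ 2) h1 h2
  have e : Real.pi ^ 2 / 6 + Real.pi ^ 2 / 6 - 1 / ((0 : ℤ) : ℝ) ^ 2 = Real.pi ^ 2 / 3 := by
    norm_num
    ring
  rw [e] at h3
  exact h3

/-- the sum over the residue classes -/
private theorem cs_S (M : ℕ) [NeZero M] :
    ∑ m ∈ Ico 1 M, cs2 ((m : ℝ) / M) ≤ (M : ℝ) ^ 2 / 3 := by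
  have hM : 0 < M := Nat.pos_of_ne_zero (NeZero.ne M)
  have hM0 : (0 : ℝ) < M := by exact_mod_cast hM
  have h1 := (Int.divModEquiv M).symm.hasSum_iff.mpr cs_zeta
  have h2 := (Equiv.prodComm (Fin M) ℤ).hasSum_iff.mpr h1
  have hs := h2.summable
  have h3 := h2.prod_fiberwise (fun b => (hs.prod_factor b).hasSum)
  have h4 := hasSum_fintype (fun b : Fin M => ∑' c : ℤ,
    (((fun n : ℤ => 1 / (n : ℝ) ^ 2) ∘ (Int.divModEquiv M).symm) ∘
      (Equiv.prodComm (Fin M) ℤ)) (b, c))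
  have h5 := h3.unique h4
  -- the values of the inner sums
  have h6 : ∀ b : Fin M, b.val ≠ 0 → ∑' c : ℤ,
      (((fun n : ℤ => 1 / (n : ℝ) ^ 2) ∘ (Int.divModEquiv M).symm) ∘
        (Equiv.prodComm (Fin M) ℤ)) (b, c) = Real.pi ^ 2 / (M : ℝ) ^ 2 * cs2 ((b.val : ℝ) / M) := by
    intro b hb
    have hz : ∀ n : ℤ, (b.val : ℝ) / M ≠ n := by
      intro n hn
      rw [div_eq_iff hM0.ne'] at hn
      have h7 : ((b.val : ℤ)) = n * M := by exact_mod_cast hn
      have h8 : ((b.val : ℤ)) < M := by exact_mod_cast b.isLt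
      have h9 : (0 : ℤ) < b.val := by exact_mod_cast Nat.pos_of_ne_zero hb
      rw [h7] at h8 h9
      have hMz : (0 : ℤ) < M := by exact_mod_cast hM
      have h10 : 0 < n := by
        by_contra hn0
        push Not at hn0
        nlinarith
      nlinarith
    have h7 := (cs_series hz).mul_left (1 / (M : ℝ) ^ 2)
    have e : 1 / (M : ℝ) ^ 2 * (Real.pi ^ 2 * cs2 ((b.val : ℝ) / M)) =
        Real.pi ^ 2 / (M : ℝ) ^ 2 * cs2 ((b.val : ℝ) / M) := by ring
    rw [← e, ← h7.tsum_eq]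
    congr 1
    funext c
    have e2 : (((fun n : ℤ => 1 / (n : ℝ) ^ 2) ∘ (Int.divModEquiv M).symm) ∘
        (Equiv.prodComm (Fin M) ℤ)) (b, c) = 1 / (((c * M + (b.val : ℤ) : ℤ)) : ℝ) ^ 2 := rfl
    rw [e2]
    push_cast
    have e3 : ((c : ℝ) * M + b.val) = M * ((c : ℝ) + (b.val : ℝ) / M) := by field_simp
    rw [e3, mul_pow]
    rw [one_div_mul_one_div]
  have h7 : ∑ b : Fin M, (if b.val = 0 then (0 : ℝ) else Real.pi ^ 2 / (M : ℝ) ^ 2 *
      cs2 ((b.val : ℝ) / M)) ≤ Real.pi ^ 2 / 3 := by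
    rw [h5]
    refine Finset.sum_le_sum fun b _ => ?_
    by_cases hb : b.val = 0
    · rw [if_pos hb]
      refine tsum_nonneg fun c => ?_
      show 0 ≤ 1 / (((c * M + (b.val : ℤ) : ℤ)) : ℝ) ^ 2
      positivity
    · rw [if_neg hb, h6 b hb]
  have h8 : ∑ b : Fin M, (if b.val = 0 then (0 : ℝ) else Real.pi ^ 2 / (M : ℝ) ^ 2 *
      cs2 ((b.val : ℝ) / M)) = Real.pi ^ 2 / (M : ℝ) ^ 2 * ∑ m ∈ Ico 1 M, cs2 ((m : ℝ) / M) := by
    rw [Fin.sum_univ_eq_sum_range (fun m => if m = 0 then (0 : ℝ) else Real.pi ^ 2 / (M : ℝ) ^ 2 *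
      cs2 ((m : ℝ) / M)) M, Finset.mul_sum, Finset.range_eq_Ico, Finset.sum_eq_sum_Ico_succ_bot hM,
      if_pos rfl, zero_add]
    refine Finset.sum_congr rfl fun m hm => ?_
    rw [Finset.mem_Ico] at hm
    rw [if_neg (by omega)]
  rw [h8] at h7
  have hpi : 0 < Real.pi ^ 2 := by positivity
  rw [div_mul_eq_mul_div, div_le_iff₀ (by positivity)] at h7
  have h9 : Real.pi ^ 2 * ∑ m ∈ Ico 1 M, cs2 ((m : ℝ) / M) ≤ Real.pi ^ 2 * ((M : ℝ) ^ 2 / 3) := by
    linarith
  exact le_of_mul_le_mul_left h9 hpi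


private theorem cs_low {M : ℕ} (hM : 2 ≤ M) : (M : ℝ) ^ 2 / Real.pi ^ 2 ≤ cs2 (1 / M) := by
  have hM0 : (0 : ℝ) < M := by positivity
  unfold cs2
  have hx : 0 < Real.pi * (1 / M) := by positivity
  have hx2 : Real.pi * (1 / M) < Real.pi := by
    have : (1 : ℝ) / M < 1 := by
      rw [div_lt_one hM0]
      exact_mod_cast hM
    nlinarith [Real.pi_pos]
  have hs : 0 < Real.sin (Real.pi * (1 / M)) := Real.sin_pos_of_pos_of_lt_pi hx hx2
  have hs2 : Real.sin (Real.pi * (1 / M)) ≤ Real.pi * (1 / M) := Real.sin_le hx.le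
  have h1 : Real.sin (Real.pi * (1 / M)) ^ 2 ≤ (Real.pi * (1 / M)) ^ 2 :=
    pow_le_pow_left₀ hs.le hs2 2
  have e : (M : ℝ) ^ 2 / Real.pi ^ 2 = 1 / (Real.pi * (1 / M)) ^ 2 := by
    field_simp
  rw [e]
  exact one_div_le_one_div_of_le (by positivity) h1

/-- the value as a rational function of a root of unity -/
theorem cs_exp {x : ℝ} (h : Complex.exp (2 * Real.pi * Complex.I * x) ≠ 1) :
    ((cs2 x : ℝ) : ℂ) = -4 * (Complex.exp (2 * Real.pi * Complex.I * x) /
      (Complex.exp (2 * Real.pi * Complex.I * x) - 1) ^ 2) := by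
  have hs : Real.sin (Real.pi * x) ≠ 0 := by
    intro h0
    rw [Real.sin_eq_zero_iff] at h0
    obtain ⟨n, hn⟩ := h0
    refine h ?_
    rw [Complex.exp_eq_one_iff]
    refine ⟨n, ?_⟩
    have h1 : ((n : ℝ) * Real.pi : ℂ) = Real.pi * x := by exact_mod_cast hn
    push_cast at h1
    linear_combination (-2 * Complex.I) * h1
  have h1 : cs2 x = 1 + ct x ^ 2 := by
    unfold cs2 ct
    have h2 := Real.sin_sq_add_cos_sq (Real.pi * x)
    field_simp
    linarith
  have h2 : Complex.exp (2 * Real.pi * Complex.I * x) - 1 ≠ 0 := sub_ne_zero.2 h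
  rw [h1]
  push_cast
  rw [Pool.H42.PF.ct_eq]
  generalize Complex.exp (2 * Real.pi * Complex.I * x) = w at h2 ⊢
  rw [div_pow, mul_pow, Complex.I_sq]
  field_simp
  ring

open Polynomial in
/-- conjugation of a relation -/
theorem conj_sum {M : ℕ} (hM : 0 < M) {I : Type} (J : Finset I) (c : I → ℚ) (m : I → ℕ) {ζ : ℂ}
    (hζ : IsPrimitiveRoot ζ M) (hm : ∀ i ∈ J, ζ ^ m i ≠ 1) {a : ℕ} (ha : Nat.Coprime a M)
    (h : ∑ i ∈ J, (c i : ℂ) * (ζ ^ m i / (ζ ^ m i - 1) ^ 2) = 0) :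
    ∑ i ∈ J, (c i : ℂ) * ((ζ ^ a) ^ m i / ((ζ ^ a) ^ m i - 1) ^ 2) = 0 := by
  classical
  have hζa : IsPrimitiveRoot (ζ ^ a) M := hζ.pow_of_coprime a ha
  have hma : ∀ i ∈ J, (ζ ^ a) ^ m i ≠ 1 := by
    intro i hi h1
    refine hm i hi ?_
    rw [hζ.pow_eq_one_iff_dvd]
    exact (hζa.pow_eq_one_iff_dvd _).1 h1
  let F : ℚ[X] := ∑ i ∈ J, C (c i) * (X ^ m i * ∏ j ∈ J.erase i, (X ^ m j - 1) ^ 2)
  have key : ∀ z : ℂ, (∀ i ∈ J, z ^ m i ≠ 1) → aeval z F =
      (∑ i ∈ J, (c i : ℂ) * (z ^ m i / (z ^ m i - 1) ^ 2)) * ∏ j ∈ J, (z ^ m j - 1) ^ 2 := by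
    intro z hz
    simp only [F, map_sum, map_mul, map_prod, map_pow, map_sub, map_one, aeval_X, aeval_C]
    rw [Finset.sum_mul]
    refine Finset.sum_congr rfl fun i hi => ?_
    rw [← Finset.mul_prod_erase J _ hi]
    have h1 : (z ^ m i - 1) ≠ 0 := sub_ne_zero.2 (hz i hi)
    have h2 : (algebraMap ℚ ℂ) (c i) = (c i : ℂ) := rfl
    rw [h2]
    field_simp
  have h0 : aeval ζ F = 0 := by
    rw [key ζ hm, h, zero_mul]
  have h1 : aeval (ζ ^ a) F = 0 := by
    have h2 : minpoly ℚ ζ ∣ F := minpoly.dvd ℚ ζ h0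
    rw [← Polynomial.cyclotomic_eq_minpoly_rat hζ hM,
      Polynomial.cyclotomic_eq_minpoly_rat hζa hM] at h2
    exact aeval_eq_zero_of_dvd_aeval_eq_zero h2 (minpoly.aeval ℚ _)
  rw [key _ hma] at h1
  refine (mul_eq_zero.1 h1).resolve_right ?_
  exact Finset.prod_ne_zero_iff.2 fun j hj => pow_ne_zero _ (sub_ne_zero.2 (hma j hj))

/-- The numbers `1 / sin (π u / M) ^ 2`, for the units `u` modulo `M` up to the sign, are linearly
independent over the rational numbers. -/
theorem csc_indep {M : ℕ} (hM : 2 ≤ M) {I : Type} (J : Finset I) (c : I → ℚ) (u : I → ℤ)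
    (hu : ∀ i ∈ J, IsCoprime (u i) (M : ℤ))
    (hd : ∀ i ∈ J, ∀ j ∈ J, i ≠ j → ¬ (M : ℤ) ∣ u i - u j ∧ ¬ (M : ℤ) ∣ u i + u j)
    (h : ∑ i ∈ J, (c i : ℝ) * cs2 ((u i : ℝ) / M) = 0) : ∀ i ∈ J, c i = 0 := by
  classical
  have hM0 : 0 < M := by omega
  have hMr : (0 : ℝ) < M := by exact_mod_cast hM0
  haveI : NeZero M := ⟨hM0.ne'⟩
  by_contra hcon
  push Not at hcon
  obtain ⟨i₁, hi₁, hci₁⟩ := hcon
  obtain ⟨i₀, hi₀, hmax⟩ := Finset.exists_max_image J (fun i => |c i|) ⟨i₁, hi₁⟩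
  have hc0 : 0 < |c i₀| := lt_of_lt_of_le (abs_pos.2 hci₁) (hmax i₁ hi₁)
  -- the natural representatives
  have hrep : ∀ v : ℤ, ∃ m : ℕ, m < M ∧ (M : ℤ) ∣ v - m := by
    intro v
    refine ⟨(v % M).toNat, ?_, ?_⟩
    · have h1 := Int.emod_nonneg v (show (M : ℤ) ≠ 0 by exact_mod_cast hM0.ne')
      have h2 := Int.emod_lt_of_pos v (show (0 : ℤ) < M by exact_mod_cast hM0)
      omega
    · have h1 := Int.emod_nonneg v (show (M : ℤ) ≠ 0 by exact_mod_cast hM0.ne')
      rw [Int.toNat_of_nonneg h1]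
      exact Int.dvd_self_sub_emod
  have hper : ∀ v w : ℤ, (M : ℤ) ∣ v - w → cs2 ((v : ℝ) / M) = cs2 ((w : ℝ) / M) := by
    rintro v w ⟨n, hn⟩
    have h1 : (v : ℝ) / M = (w : ℝ) / M + (n : ℤ) := by
      have h2 : (v : ℝ) = w + M * n := by
        have : v = w + M * n := by linarith
        exact_mod_cast this
      rw [h2]
      field_simp
    rw [h1, cs_cs2_int]
  have hneg : ∀ v w : ℤ, (M : ℤ) ∣ v + w → cs2 ((v : ℝ) / M) = cs2 ((w : ℝ) / M) := by
    intro v w hvw
    have h1 := hper v (-w) (by rwa [sub_neg_eq_add])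
    rw [h1, ← cs_cs2_neg]
    congr 1
    push_cast
    ring
  -- the conjugate relation
  have hu0 : IsCoprime (u i₀) (M : ℤ) := hu i₀ hi₀
  obtain ⟨a', b', hab⟩ := hu0
  obtain ⟨a, haM, ha⟩ := hrep a'
  have hau : (M : ℤ) ∣ a * u i₀ - 1 := by
    obtain ⟨n, hn⟩ := ha
    refine ⟨-b' - n * u i₀, ?_⟩
    have : a' = a + M * n := by linarith
    rw [this] at hab
    linear_combination hab
  have hac : Nat.Coprime a M := by
    rw [← Nat.isCoprime_iff_coprime]
    obtain ⟨n, hn⟩ := hau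
    exact ⟨u i₀, -n, by linear_combination hn⟩
  have hrel : ∑ i ∈ J, (c i : ℝ) * cs2 (((a * u i : ℤ) : ℝ) / M) = 0 := by
    choose m hmM hm using hrep
    set ζ : ℂ := Complex.exp (2 * Real.pi * Complex.I / M) with hζd
    have hζ : IsPrimitiveRoot ζ M := Complex.isPrimitiveRoot_exp M hM0.ne'
    have hpow : ∀ n : ℕ, ζ ^ n = Complex.exp (2 * Real.pi * Complex.I * (((n : ℝ) / M : ℝ) : ℂ)) := by
      intro n
      rw [hζd, ← Complex.exp_nat_mul]
      congr 1
      push_cast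
      ring
    have hcop : ∀ i ∈ J, ¬ M ∣ m (u i) := by
      intro i hi hdv
      have h1 : (M : ℤ) ∣ u i := by
        have h2 := hm (u i)
        have h3 : (M : ℤ) ∣ (m (u i) : ℤ) := by exact_mod_cast hdv
        have h4 := dvd_add h2 h3
        rwa [sub_add_cancel] at h4
      have h2 := (hu i hi).isUnit_of_dvd' h1 dvd_rfl
      rw [Int.isUnit_iff] at h2
      omega
    have hne : ∀ i ∈ J, ζ ^ m (u i) ≠ 1 := fun i hi h1 =>
      hcop i hi ((hζ.pow_eq_one_iff_dvd _).1 h1)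
    have hval : ∀ (n : ℕ), ζ ^ n ≠ 1 → ((cs2 ((n : ℝ) / M) : ℝ) : ℂ) =
        -4 * (ζ ^ n / (ζ ^ n - 1) ^ 2) := by
      intro n hn
      rw [hpow] at hn ⊢
      exact cs_exp hn
    have h1 : ∑ i ∈ J, (c i : ℂ) * (ζ ^ m (u i) / (ζ ^ m (u i) - 1) ^ 2) = 0 := by
      have h2 : ((∑ i ∈ J, (c i : ℝ) * cs2 ((u i : ℝ) / M) : ℝ) : ℂ) =
          -4 * ∑ i ∈ J, (c i : ℂ) * (ζ ^ m (u i) / (ζ ^ m (u i) - 1) ^ 2) := by
        rw [Complex.ofReal_sum, Finset.mul_sum]
        refine Finset.sum_congr rfl fun i hi => ?_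
        rw [hper (u i) (m (u i)) (hm (u i)), Complex.ofReal_mul]
        have h3 := hval (m (u i)) (hne i hi)
        rw [Int.cast_natCast, h3]
        push_cast
        ring
      rw [h, Complex.ofReal_zero] at h2
      have h3 : (-4 : ℂ) ≠ 0 := by norm_num
      exact (mul_eq_zero.1 h2.symm).resolve_left h3
    have h2 := conj_sum hM0 J c (fun i => m (u i)) hζ hne hac h1
    have h3 : ((∑ i ∈ J, (c i : ℝ) * cs2 (((a * u i : ℤ) : ℝ) / M) : ℝ) : ℂ) = 0 := by
      rw [Complex.ofReal_sum]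
      have h4 : ∀ i ∈ J, (((c i : ℝ) * cs2 (((a * u i : ℤ) : ℝ) / M) : ℝ) : ℂ) =
          -4 * ((c i : ℂ) * ((ζ ^ a) ^ m (u i) / ((ζ ^ a) ^ m (u i) - 1) ^ 2)) := by
        intro i hi
        have h5 : (M : ℤ) ∣ a * u i - ((a * m (u i) : ℕ) : ℤ) := by
          push_cast
          rw [← mul_sub]
          exact Dvd.dvd.mul_left (hm (u i)) _
        rw [hper _ _ h5, Complex.ofReal_mul]
        have h6 : ζ ^ (a * m (u i)) ≠ 1 := by
          intro h7
          have h8 := (hζ.pow_eq_one_iff_dvd _).1 h7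
          exact hcop i hi (hac.symm.dvd_of_dvd_mul_left h8)
        have h7 := hval (a * m (u i)) h6
        rw [Int.cast_natCast, h7, pow_mul]
        push_cast
        ring
      rw [Finset.sum_congr rfl h4, ← Finset.mul_sum, h2, mul_zero]
    exact_mod_cast h3
  -- the estimate
  have h1 : cs2 (((a * u i₀ : ℤ) : ℝ) / M) = cs2 (1 / M) := by
    have h2 := hper (a * u i₀) 1 hau
    rwa [Int.cast_one] at h2
  rw [← Finset.add_sum_erase J _ hi₀, h1] at hrel
  have hlow := cs_low hM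
  have hlow0 : 0 < cs2 (1 / M) := lt_of_lt_of_le (by positivity) hlow
  -- the sum of the other values
  have hsum : ∑ i ∈ J.erase i₀, cs2 (((a * u i : ℤ) : ℝ) / M) < cs2 (1 / M) := by
    choose m hmM hm using hrep
    set f : I → ℕ := fun i => m (a * u i) with hf
    have hfc : ∀ i ∈ J, cs2 (((a * u i : ℤ) : ℝ) / M) = cs2 ((f i : ℝ) / M) := by
      intro i _
      have h2 := hper (a * u i) (m (a * u i)) (hm _)
      rwa [Int.cast_natCast] at h2
    have hfc' : ∀ i ∈ J, cs2 (((a * u i : ℤ) : ℝ) / M) = cs2 (((M - f i : ℕ) : ℝ) / M) := by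
      intro i _
      have h3 : (M : ℤ) ∣ a * u i + ((M - f i : ℕ) : ℤ) := by
        rw [Nat.cast_sub (hmM _).le]
        obtain ⟨n, hn⟩ := hm (a * u i)
        exact ⟨n + 1, by linear_combination hn⟩
      have h2 := hneg (a * u i) ((M - f i : ℕ) : ℤ) h3
      rwa [Int.cast_natCast] at h2
    -- divisibility
    have haZ : IsCoprime (M : ℤ) (a : ℤ) := (Nat.isCoprime_iff_coprime.2 hac).symm
    have hcan : ∀ v : ℤ, (M : ℤ) ∣ a * v → (M : ℤ) ∣ v := fun v hv => haZ.dvd_of_dvd_mul_left hv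
    have hf0 : ∀ i ∈ J, f i ≠ 0 := by
      intro i hi h0
      have h2 := hm (a * u i)
      have h3 : m (a * u i) = 0 := h0
      rw [h3, Nat.cast_zero, sub_zero] at h2
      have h4 := hcan _ h2
      have h5 := (hu i hi).isUnit_of_dvd' h4 dvd_rfl
      rw [Int.isUnit_iff] at h5
      omega
    have hff : ∀ i ∈ J, ∀ j ∈ J, f i = f j → i = j := by
      intro i hi j hj hij
      by_contra hne
      refine (hd i hi j hj hne).1 (hcan _ ?_)
      have h2 := dvd_sub (hm (a * u i)) (hm (a * u j))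
      have h3 : (m (a * u i) : ℤ) = m (a * u j) := by exact_mod_cast hij
      rw [h3] at h2
      have h4 : a * u i - (m (a * u j) : ℤ) - (a * u j - m (a * u j)) = a * (u i - u j) := by ring
      rwa [h4] at h2
    have hfn : ∀ i ∈ J, ∀ j ∈ J, i ≠ j → f i ≠ M - f j := by
      intro i hi j hj hne hij
      refine (hd i hi j hj hne).2 (hcan _ ?_)
      have h2 := dvd_add (hm (a * u i)) (hm (a * u j))
      have h3 : (m (a * u i) : ℤ) = M - m (a * u j) := by
        have h4 : f i + f j = M := by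
          have := (hmM (a * u j)).le
          have h5 : f j = m (a * u j) := rfl
          omega
        have h5 : (f i : ℤ) + f j = M := by exact_mod_cast h4
        have h6 : (f i : ℤ) = m (a * u i) := rfl
        have h7 : (f j : ℤ) = m (a * u j) := rfl
        omega
      rw [h3] at h2
      have h4 : a * u i - ((M : ℤ) - m (a * u j)) + (a * u j - m (a * u j)) =
          a * (u i + u j) - M := by ring
      rw [h4] at h2
      have := dvd_add h2 (dvd_refl (M : ℤ))
      rwa [sub_add_cancel] at this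
    have hf1 : f i₀ = 1 := by
      have h2 := dvd_sub hau (hm (a * u i₀))
      have h3 : a * u i₀ - 1 - (a * u i₀ - (m (a * u i₀) : ℤ)) = (m (a * u i₀) : ℤ) - 1 := by ring
      rw [h3] at h2
      obtain ⟨n, hn⟩ := h2
      have h4 := hmM (a * u i₀)
      have h5 : f i₀ = m (a * u i₀) := rfl
      have h6 : (m (a * u i₀) : ℤ) < M := by exact_mod_cast h4
      have h7 : (0 : ℤ) ≤ m (a * u i₀) := Int.natCast_nonneg _
      have h8 : n = 0 := by
        have hMz : (2 : ℤ) ≤ M := by exact_mod_cast hM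
        by_contra hn0
        rcases lt_or_gt_of_ne hn0 with h9 | h9
        · nlinarith
        · nlinarith
      rw [h8, mul_zero] at hn
      omega
    by_cases h2M : M = 2
    · have he : J.erase i₀ = ∅ := by
        rw [Finset.eq_empty_iff_forall_notMem]
        intro i hi
        rw [Finset.mem_erase] at hi
        refine hi.1 (hff i hi.2 i₀ hi₀ ?_)
        have h2 := hf0 i hi.2
        have h3 := hmM (a * u i)
        have h4 : f i = m (a * u i) := rfl
        omega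
      rw [he, Finset.sum_empty]
      exact hlow0
    · have hM3 : 3 ≤ M := by omega
      have hself : ∀ i ∈ J, f i ≠ M - f i := by
        intro i hi hii
        have h2 : (M : ℤ) ∣ 2 * (a * u i) := by
          have h3 := hm (a * u i)
          have h4 : f i + f i = M := by
            have := (hmM (a * u i)).le
            have h5 : f i = m (a * u i) := rfl
            omega
          have h5 : (m (a * u i) : ℤ) + m (a * u i) = M := by exact_mod_cast h4
          have h6 := dvd_add (dvd_add h3 h3) (dvd_refl (M : ℤ))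
          have h7 : a * u i - (m (a * u i) : ℤ) + (a * u i - m (a * u i)) + M = 2 * (a * u i) := by
            linarith
          rwa [h7] at h6
        have h3 : (M : ℤ) ∣ 2 := by
          have hc : IsCoprime (M : ℤ) (a * u i) := IsCoprime.mul_right haZ (hu i hi).symm
          exact hc.dvd_of_dvd_mul_right h2
        have h4 := Int.le_of_dvd (by norm_num) h3
        have h5 : M ≤ 2 := by exact_mod_cast h4
        omega
      have e1 : ∑ i ∈ J.erase i₀, cs2 (((a * u i : ℤ) : ℝ) / M) =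
          ∑ x ∈ (J.erase i₀).image f, cs2 ((x : ℝ) / M) := by
        rw [Finset.sum_image fun i hi j hj hij => hff i (Finset.mem_of_mem_erase hi) j
          (Finset.mem_of_mem_erase hj) hij]
        exact Finset.sum_congr rfl fun i hi => hfc i (Finset.mem_of_mem_erase hi)
      have e2 : ∑ i ∈ J.erase i₀, cs2 (((a * u i : ℤ) : ℝ) / M) =
          ∑ x ∈ (J.erase i₀).image (fun i => M - f i), cs2 ((x : ℝ) / M) := by
        rw [Finset.sum_image fun i hi j hj hij => hff i (Finset.mem_of_mem_erase hi) j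
          (Finset.mem_of_mem_erase hj) (by
            have h3 : M - f i = M - f j := hij
            have h4 := (hmM (a * u i)).le
            have h5 := (hmM (a * u j)).le
            have h6 : f i = m (a * u i) := rfl
            have h7 : f j = m (a * u j) := rfl
            omega)]
        exact Finset.sum_congr rfl fun i hi => hfc' i (Finset.mem_of_mem_erase hi)
      have hdis : Disjoint ((J.erase i₀).image f) ((J.erase i₀).image fun i => M - f i) := by
        rw [Finset.disjoint_left]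
        intro x hx hx'
        obtain ⟨i, hi, rfl⟩ := Finset.mem_image.1 hx
        obtain ⟨j, hj, hij⟩ := Finset.mem_image.1 hx'
        by_cases hne : i = j
        · subst hne
          exact hself i (Finset.mem_of_mem_erase hi) hij.symm
        · exact hfn i (Finset.mem_of_mem_erase hi) j (Finset.mem_of_mem_erase hj) hne hij.symm
      have hsub : (J.erase i₀).image f ∪ ((J.erase i₀).image fun i => M - f i) ⊆
          ((Ico 1 M).erase 1).erase (M - 1) := by
        intro x hx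
        rw [Finset.mem_erase, Finset.mem_erase, Finset.mem_Ico]
        rcases Finset.mem_union.1 hx with h2 | h2
        · obtain ⟨i, hi, rfl⟩ := Finset.mem_image.1 h2
          rw [Finset.mem_erase] at hi
          have h3 := hf0 i hi.2
          have h4 : f i < M := hmM _
          refine ⟨fun h5 => ?_, fun h5 => hi.1 (hff i hi.2 i₀ hi₀ (h5.trans hf1.symm)), by omega, h4⟩
          exact hfn i hi.2 i₀ hi₀ hi.1 (by rw [hf1]; exact h5)
        · obtain ⟨i, hi, rfl⟩ := Finset.mem_image.1 h2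
          rw [Finset.mem_erase] at hi
          have h3 := hf0 i hi.2
          have h4 : f i < M := hmM _
          refine ⟨fun h5 => ?_, fun h5 => ?_, by omega, by omega⟩
          · exact hi.1 (hff i hi.2 i₀ hi₀ (by rw [hf1]; omega))
          · exact hfn i hi.2 i₀ hi₀ hi.1 (by rw [hf1]; omega)
      have h3 := Finset.sum_le_sum_of_subset_of_nonneg (f := fun x : ℕ => cs2 ((x : ℝ) / M)) hsub
        fun x _ _ => cs_cs2_nonneg _
      rw [Finset.sum_union hdis, ← e1, ← e2] at h3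
      have hS := cs_S M
      have hm1 : (1 : ℕ) ∈ Ico 1 M := Finset.mem_Ico.2 ⟨le_rfl, by omega⟩
      have hm2 : M - 1 ∈ (Ico 1 M).erase 1 := Finset.mem_erase.2
        ⟨by omega, Finset.mem_Ico.2 ⟨by omega, by omega⟩⟩
      rw [← Finset.add_sum_erase _ _ hm1, ← Finset.add_sum_erase _ _ hm2] at hS
      have hlast : cs2 (((M - 1 : ℕ) : ℝ) / M) = cs2 (1 / M) := by
        have h5 := hneg 1 ((M - 1 : ℕ) : ℤ) (by
          rw [Nat.cast_sub (by omega), Nat.cast_one]
          exact ⟨1, by ring⟩)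
        rw [Int.cast_natCast, Int.cast_one] at h5
        exact h5.symm
      rw [hlast, Nat.cast_one] at hS
      have hpi : Real.pi ^ 2 < 12 := by
        have h5 := Real.pi_lt_d2
        have h6 := Real.pi_pos
        nlinarith
      have h5 : (M : ℝ) ^ 2 / 12 < (M : ℝ) ^ 2 / Real.pi ^ 2 := by
        refine div_lt_div_of_pos_left (by positivity) (by positivity) hpi
      linarith
  have habs : |(c i₀ : ℝ)| * cs2 (1 / M) ≤
      |(c i₀ : ℝ)| * ∑ i ∈ J.erase i₀, cs2 (((a * u i : ℤ) : ℝ) / M) := by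
    have e1 : (c i₀ : ℝ) * cs2 (1 / M) =
        -∑ i ∈ J.erase i₀, (c i : ℝ) * cs2 (((a * u i : ℤ) : ℝ) / M) := by linarith
    calc |(c i₀ : ℝ)| * cs2 (1 / M) = |(c i₀ : ℝ) * cs2 (1 / M)| := by
          rw [abs_mul, abs_of_pos hlow0]
      _ = |∑ i ∈ J.erase i₀, (c i : ℝ) * cs2 (((a * u i : ℤ) : ℝ) / M)| := by rw [e1, abs_neg]
      _ ≤ ∑ i ∈ J.erase i₀, |(c i : ℝ) * cs2 (((a * u i : ℤ) : ℝ) / M)| :=
          Finset.abs_sum_le_sum_abs _ _
      _ ≤ ∑ i ∈ J.erase i₀, |(c i₀ : ℝ)| * cs2 (((a * u i : ℤ) : ℝ) / M) := by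
          refine Finset.sum_le_sum fun i hi => ?_
          rw [abs_mul, abs_of_nonneg (cs_cs2_nonneg _)]
          refine mul_le_mul_of_nonneg_right ?_ (cs_cs2_nonneg _)
          have := hmax i (Finset.mem_of_mem_erase hi)
          exact_mod_cast this
      _ = _ := by rw [Finset.mul_sum]
  have hc0' : (0 : ℝ) < |(c i₀ : ℝ)| := by exact_mod_cast hc0
  have := le_of_mul_le_mul_left habs hc0'
  linarith

end Pool.Agent.GSX.Tr
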